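import Pool.Agent.Helper62.PM.St2

set_option autoImplicit false

open MeasureTheory Metric Set Filter Topology Polynomial
open scoped RealInnerProductSpace ContDiff

namespace Pool.Agent.Helper62.PM

open Pool.Agent.Helper62.Mink

private lemma S1_add {n : ℕ} {φ ψ : E n → ℝ} (h1 : S1 φ) (h2 : S1 ψ) : S1 (fun z => φ z + ψ z) :=
  ⟨fun c hc x => by rw [h1.hom c hc, h2.hom c hc]; ring, h1.smooth.add h2.smooth⟩

private lemma S1_rot {n : ℕ} {φ : E n → ℝ} (h1 : S1 φ) (θ : E n ≃ₗᵢ[ℝ] E n) :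
    S1 (fun z => φ (θ z)) := by
  refine ⟨fun c hc x => by rw [map_smul, h1.hom c hc], ?_⟩
  refine h1.smooth.comp (θ.contDiff.contDiffOn) ?_
  intro x hx hx'
  apply hx
  have : θ x = 0 := hx'
  simpa using this

private lemma sub_add {n : ℕ} {φ ψ : E n → ℝ} (h1 : Sublinear φ) (h2 : Sublinear ψ) :
    Sublinear (fun z => φ z + ψ z) :=
  ⟨fun c hc x => by rw [h1.pos_hom c hc, h2.pos_hom c hc]; ring,
    fun x y => by have := h1.add_le x y; have := h2.add_le x y; linarith⟩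

private lemma sub_rot {n : ℕ} {φ : E n → ℝ} (h1 : Sublinear φ) (θ : E n ≃ₗᵢ[ℝ] E n) :
    Sublinear (fun z => φ (θ z)) :=
  ⟨fun c hc x => by rw [map_smul, h1.pos_hom c hc],
    fun x y => by rw [map_add]; exact h1.add_le _ _⟩

private lemma small {a C : ℝ} (hC : 0 ≤ C) (h : ∀ ε : ℝ, 0 < ε → ε ≤ 1 → a ≤ ε * C) : a ≤ 0 := by
  by_contra hn
  push Not at hn
  have h1 := h (min 1 (a / (2 * (C + 1)))) (lt_min one_pos (by positivity)) (min_le_left _ _)
  have h2 : min 1 (a / (2 * (C + 1))) * C ≤ (a / (2 * (C + 1))) * C :=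
    mul_le_mul_of_nonneg_right (min_le_right _ _) hC
  have h3 : (a / (2 * (C + 1))) * C ≤ a / 2 := by
    rw [div_mul_eq_mul_div, div_le_div_iff₀ (by positivity) (by positivity)]
    nlinarith
  linarith

/-- module XM -/
theorem hXM : StXM := by
  intro n A hn hadd hrot hpos hest
  choose! Kf hK0 hKest using hest
  obtain ⟨P, hP⟩ : ∃ P : (E n → ℝ) → (E n → ℝ) → Prop, ∀ h F, P h F ↔
      ∀ ε : ℝ, 0 < ε → ∀ (k : E n → ℝ) (R δ : ℝ), S1 k → Sublinear k →
        (∀ x : E n, ‖x‖ = 1 → |h x| ≤ R) → (∀ x : E n, ‖x‖ = 1 → |k x| ≤ R) →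
        (∀ x : E n, ‖x‖ = 1 → |h x - k x| ≤ δ) → ∀ x : E n, ‖x‖ = 1 →
          |F x - A k x| ≤ ε * R + Kf ε * δ := ⟨_, fun _ _ => Iff.rfl⟩
  -- a bound on the sphere
  have hbd : ∀ h : E n → ℝ, Sublinear h → ∃ R : ℝ, 0 ≤ R ∧ ∀ x : E n, ‖x‖ = 1 → |h x| ≤ R := by
    intro h hh
    obtain ⟨C, hC0, hC⟩ := hh.exists_bound
    refine ⟨C, hC0, fun x hx => ?_⟩
    have h1 := hC x
    have h2 := hC (-x)
    rw [norm_neg] at h2
    rw [hx, mul_one] at h1 h2
    have h3 := hh.add_le x (-x)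
    have h4 := hh.pos_hom 0 le_rfl 0
    rw [zero_smul, zero_mul] at h4
    rw [add_neg_cancel, h4] at h3
    rw [abs_le]
    constructor <;> linarith
  -- existence
  have ex : ∀ h : E n → ℝ, Sublinear h → ∃ F : E n → ℝ, Sublinear F ∧ P h F := by
    intro h hh
    obtain ⟨R0, hR0, hR⟩ := hbd h hh
    have hsm : ∀ j : ℕ, ∃ k : E n → ℝ, Sublinear k ∧ ContDiffOn ℝ ∞ k {0}ᶜ ∧
        ∀ x, |k x - h x| ≤ (1 / ((j : ℝ) + 1)) * ‖x‖ := fun j =>
      exists_smooth hh (by positivity)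
    choose k hk1 hk2 hk3 using hsm
    have hk1' : ∀ j, S1 (k j) := fun j => ⟨(hk1 j).pos_hom, hk2 j⟩
    have hk4 : ∀ j, ∀ x : E n, ‖x‖ = 1 → |k j x - h x| ≤ 1 / ((j : ℝ) + 1) := fun j x hx => by
      have := hk3 j x
      rwa [hx, mul_one] at this
    have hlim : ∀ x : E n, ‖x‖ = 1 → ∃ l : ℝ, Tendsto (fun j => A (k j) x) atTop (𝓝 l) := by
      intro x hx
      apply cauchySeq_tendsto_of_complete
      rw [Metric.cauchySeq_iff']
      intro ε' hε'
      obtain ⟨ε, hε, hεe⟩ : ∃ ε : ℝ, 0 < ε ∧ ε * (R0 + 1) < ε' / 2 := by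
        refine ⟨ε' / (4 * (R0 + 1)), by positivity, ?_⟩
        rw [div_mul_eq_mul_div, div_lt_div_iff₀ (by positivity) (by positivity)]
        nlinarith
      have hKe := hK0 ε hε
      obtain ⟨N, hN⟩ := exists_nat_gt (4 * (Kf ε + 1) / ε')
      refine ⟨N, fun m hm => ?_⟩
      have hmN : 1 / ((m : ℝ) + 1) ≤ 1 / ((N : ℝ) + 1) := by
        apply one_div_le_one_div_of_le (by positivity)
        have : (N : ℝ) ≤ m := by exact_mod_cast hm
        linarith
      have h1 : ∀ j : ℕ, 1 / ((j : ℝ) + 1) ≤ 1 := fun j => by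
        rw [div_le_one (by positivity)]
        have : (0 : ℝ) ≤ j := j.cast_nonneg
        linarith
      have hb : ∀ j, ∀ y : E n, ‖y‖ = 1 → |k j y| ≤ R0 + 1 := fun j y hy => by
        have h2 := hk4 j y hy
        have h3 := hR y hy
        have h4 := h1 j
        rw [abs_le] at h2 h3 ⊢
        constructor <;> linarith [h2.1, h2.2, h3.1, h3.2]
      have h5 := hKest ε hε (k m) (k N) (R0 + 1) (2 * (1 / ((N : ℝ) + 1))) (hk1' m) (hk1 m)
        (hk1' N) (hk1 N) (hb m) (hb N) (fun y hy => by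
          have h2 := hk4 m y hy
          have h3 := hk4 N y hy
          rw [abs_le] at h2 h3 ⊢
          constructor <;> linarith [h2.1, h2.2, h3.1, h3.2]) x hx
      rw [Real.dist_eq]
      refine lt_of_le_of_lt h5 ?_
      have h6 : Kf ε * (2 * (1 / ((N : ℝ) + 1))) < ε' / 2 := by
        have hN1 : (0 : ℝ) < (N : ℝ) + 1 := by positivity
        have h7 : 4 * (Kf ε + 1) < ε' * N := by
          rw [div_lt_iff₀ hε'] at hN
          linarith
        have h8 : Kf ε * (2 * (1 / ((N : ℝ) + 1))) = (2 * Kf ε) / ((N : ℝ) + 1) := by ring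
        rw [h8, div_lt_div_iff₀ hN1 (by norm_num)]
        nlinarith
      linarith
    have hlim' : ∀ x : E n, ∃ l : ℝ, Tendsto (fun j => A (k j) x) atTop (𝓝 l) := by
      intro x
      by_cases hx : x = 0
      · subst hx
        refine ⟨0, ?_⟩
        have : ∀ j, A (k j) 0 = 0 := fun j => by
          have := (hpos (k j) (hk1' j) (hk1 j)).pos_hom 0 le_rfl 0
          simpa using this
        simp [this]
      · have hx' : 0 < ‖x‖ := norm_pos_iff.2 hx
        obtain ⟨l, hl⟩ := hlim (‖x‖⁻¹ • x) (by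
          rw [norm_smul, norm_inv, norm_norm, inv_mul_cancel₀ hx'.ne'])
        refine ⟨‖x‖ * l, (hl.const_mul ‖x‖).congr fun j => ?_⟩
        rw [← (hpos (k j) (hk1' j) (hk1 j)).pos_hom ‖x‖ hx'.le, smul_smul,
          mul_inv_cancel₀ hx'.ne', one_smul]
    choose F hF using hlim'
    refine ⟨F, ⟨fun c hc x => ?_, fun x y => ?_⟩, ?_⟩
    · refine tendsto_nhds_unique (hF (c • x)) (((hF x).const_mul c).congr fun j => ?_)
      rw [(hpos (k j) (hk1' j) (hk1 j)).pos_hom c hc]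
    · exact le_of_tendsto_of_tendsto' (hF (x + y)) ((hF x).add (hF y)) fun j =>
        (hpos (k j) (hk1' j) (hk1 j)).add_le x y
    · rw [hP]
      intro ε hε g R δ hg1 hg2 hhR hgR hhg x hx
      have h1 : Tendsto (fun j : ℕ => 1 / ((j : ℝ) + 1)) atTop (𝓝 0) :=
        tendsto_one_div_add_atTop_nhds_zero_nat
      have h2 : Tendsto (fun j : ℕ => ε * (R + 1 / ((j : ℝ) + 1)) + Kf ε * (δ + 1 / ((j : ℝ) + 1)))
          atTop (𝓝 (ε * (R + 0) + Kf ε * (δ + 0))) :=
        ((h1.const_add R).const_mul ε).add ((h1.const_add δ).const_mul (Kf ε))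
      rw [add_zero, add_zero] at h2
      have h3 : Tendsto (fun j => |A (k j) x - A g x|) atTop (𝓝 |F x - A g x|) :=
        ((hF x).sub_const _).abs
      refine le_of_tendsto_of_tendsto' h3 h2 fun j => ?_
      have hj : 0 < 1 / ((j : ℝ) + 1) := by positivity
      refine hKest ε hε (k j) g (R + 1 / ((j : ℝ) + 1)) (δ + 1 / ((j : ℝ) + 1)) (hk1' j) (hk1 j)
        hg1 hg2 (fun y hy => ?_) (fun y hy => ?_) (fun y hy => ?_) x hx
      · have h4 := hk4 j y hy
        have h5 := hhR y hy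
        rw [abs_le] at h4 h5 ⊢
        constructor <;> linarith [h4.1, h4.2, h5.1, h5.2]
      · have h5 := hgR y hy
        linarith
      · have h4 := hk4 j y hy
        have h5 := hhg y hy
        rw [abs_le] at h4 h5 ⊢
        constructor <;> linarith [h4.1, h4.2, h5.1, h5.2]
  choose! G hG1 hG2 using ex
  -- closeness to a smooth function
  have close : ∀ h : E n → ℝ, Sublinear h → ∀ R : ℝ, (∀ x : E n, ‖x‖ = 1 → |h x| ≤ R) →
      ∀ k : E n → ℝ, S1 k → Sublinear k → ∀ δ : ℝ, 0 ≤ δ → (∀ x : E n, ‖x‖ = 1 → |h x - k x| ≤ δ) →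
      ∀ ε : ℝ, 0 < ε → ∀ x : E n, ‖x‖ = 1 → |G h x - A k x| ≤ ε * (R + δ) + Kf ε * δ := by
    intro h hh R hR k hk1 hk2 δ hδ hd ε hε x hx
    refine (hP h (G h)).1 (hG2 h hh) ε hε k (R + δ) δ hk1 hk2 (fun y hy => ?_) (fun y hy => ?_) hd x hx
    · have := hR y hy
      linarith
    · have h1 := hR y hy
      have h2 := hd y hy
      rw [abs_le] at h1 h2 ⊢
      constructor <;> linarith [h1.1, h1.2, h2.1, h2.2]
  -- smooth approximation
  have appr : ∀ h : E n → ℝ, Sublinear h → ∀ η : ℝ, 0 < η → ∃ k : E n → ℝ, S1 k ∧ Sublinear k ∧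
      (∀ x : E n, ‖x‖ = 1 → |h x - k x| ≤ η) ∧ ∀ x : E n, ‖x‖ = 1 → |G h x - A k x| ≤ η := by
    intro h hh η hη
    obtain ⟨R, hR0, hR⟩ := hbd h hh
    obtain ⟨ε, hε, hεe⟩ : ∃ ε : ℝ, 0 < ε ∧ ε * (R + 1) ≤ η / 2 := by
      refine ⟨η / (2 * (R + 1)), by positivity, ?_⟩
      rw [div_mul_eq_mul_div, div_le_div_iff₀ (by positivity) (by positivity)]
      nlinarith
    have hKe := hK0 ε hε
    obtain ⟨δ, hδ, hδ1, hδη, hδe⟩ : ∃ δ : ℝ, 0 < δ ∧ δ ≤ 1 ∧ δ ≤ η ∧ Kf ε * δ ≤ η / 2 := by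
      refine ⟨min (min 1 η) (η / (2 * (Kf ε + 1))), lt_min (lt_min one_pos hη) (by positivity),
        (min_le_left _ _).trans (min_le_left _ _), (min_le_left _ _).trans (min_le_right _ _), ?_⟩
      refine (mul_le_mul_of_nonneg_left (min_le_right _ _) hKe).trans ?_
      rw [mul_div_assoc', div_le_div_iff₀ (by positivity) (by positivity)]
      nlinarith
    obtain ⟨k, hk1, hk2, hk3⟩ := exists_smooth hh hδ
    have hk4 : ∀ x : E n, ‖x‖ = 1 → |h x - k x| ≤ δ := fun x hx => by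
      have := hk3 x
      rw [hx, mul_one, abs_sub_comm] at this
      exact this
    refine ⟨k, ⟨hk1.pos_hom, hk2⟩, hk1, fun x hx => (hk4 x hx).trans hδη, fun x hx => ?_⟩
    refine (close h hh R hR k ⟨hk1.pos_hom, hk2⟩ hk1 δ hδ.le hk4 ε hε x hx).trans ?_
    have : ε * (R + δ) ≤ ε * (R + 1) := mul_le_mul_of_nonneg_left (by linarith) hε.le
    linarith
  -- two sublinear functions
  have two : ∀ h h' : E n → ℝ, Sublinear h → Sublinear h' → ∀ R δ : ℝ, 0 ≤ δ →
      (∀ x : E n, ‖x‖ = 1 → |h x| ≤ R) → (∀ x : E n, ‖x‖ = 1 → |h x - h' x| ≤ δ) →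
      ∀ ε : ℝ, 0 < ε → ∀ x : E n, ‖x‖ = 1 → |G h x - G h' x| ≤ ε * (R + δ) + Kf ε * δ := by
    intro h h' hh hh' R δ hδ hR hd ε hε x hx
    have hKe := hK0 ε hε
    rw [← sub_nonpos]
    refine small (C := ε + Kf ε + 1) (by positivity) fun η hη hη1 => ?_
    obtain ⟨k, hk1, hk2, hk3, hk4⟩ := appr h' hh' η hη
    have h1 := close h hh R hR k hk1 hk2 (δ + η) (by positivity) (fun y hy => by
      have h2 := hd y hy
      have h3 := hk3 y hy
      rw [abs_le] at h2 h3 ⊢
      constructor <;> linarith [h2.1, h2.2, h3.1, h3.2]) ε hε x hx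
    have h2 := hk4 x hx
    have h3 : |G h x - G h' x| ≤ |G h x - A k x| + |G h' x - A k x| := by
      have : G h x - G h' x = (G h x - A k x) - (G h' x - A k x) := by ring
      rw [this]
      exact abs_sub _ _
    nlinarith
  -- the extension of `A`
  have ext : ∀ h : E n → ℝ, S1 h → Sublinear h → ∀ x, G h x = A h x := by
    intro h h1 h2
    obtain ⟨R, hR0, hR⟩ := hbd h h2
    have hu : ∀ x : E n, ‖x‖ = 1 → G h x = A h x := by
      intro x hx
      have : |G h x - A h x| ≤ 0 := by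
        refine small (C := R) hR0 fun ε hε _ => ?_
        have := close h h2 R hR h h1 h2 0 le_rfl (fun y _ => by simp) ε hε x hx
        simpa using this
      exact sub_eq_zero.1 (abs_eq_zero.1 (le_antisymm this (abs_nonneg _)))
    intro x
    by_cases hx : x = 0
    · subst hx
      have e1 := (hG1 h h2).pos_hom 0 le_rfl 0
      have e2 := (hpos h h1 h2).pos_hom 0 le_rfl 0
      rw [zero_smul, zero_mul] at e1 e2
      rw [e1, e2]
    · have hx' : 0 < ‖x‖ := norm_pos_iff.2 hx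
      have e0 : x = ‖x‖ • (‖x‖⁻¹ • x) := by
        rw [smul_smul, mul_inv_cancel₀ hx'.ne', one_smul]
      rw [e0, (hG1 h h2).pos_hom _ hx'.le, (hpos h h1 h2).pos_hom _ hx'.le, hu _ (by
        rw [norm_smul, norm_inv, norm_norm, inv_mul_cancel₀ hx'.ne'])]
  -- reduction to the sphere
  have sph : ∀ f g : E n → ℝ, Sublinear f → Sublinear g → ∀ c : ℝ,
      (∀ x : E n, ‖x‖ = 1 → |f x - g x| ≤ c) → ∀ x, |f x - g x| ≤ c * ‖x‖ := by
    intro f g hf hg c h x
    by_cases hx : x = 0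
    · subst hx
      have e1 := hf.pos_hom 0 le_rfl 0
      have e2 := hg.pos_hom 0 le_rfl 0
      rw [zero_smul, zero_mul] at e1 e2
      rw [e1, e2]
      simp
    · have hx' : 0 < ‖x‖ := norm_pos_iff.2 hx
      have e0 : x = ‖x‖ • (‖x‖⁻¹ • x) := by
        rw [smul_smul, mul_inv_cancel₀ hx'.ne', one_smul]
      have h1 := h (‖x‖⁻¹ • x) (by
        rw [norm_smul, norm_inv, norm_norm, inv_mul_cancel₀ hx'.ne'])
      have e1 := hf.pos_hom ‖x‖ hx'.le (‖x‖⁻¹ • x)
      have e2 := hg.pos_hom ‖x‖ hx'.le (‖x‖⁻¹ • x)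
      rw [← e0] at e1 e2
      rw [e1, e2, ← mul_sub, abs_mul, abs_of_pos hx', mul_comm]
      exact mul_le_mul_of_nonneg_right h1 hx'.le
  have eqs : ∀ f g : E n → ℝ, Sublinear f → Sublinear g →
      (∀ x : E n, ‖x‖ = 1 → |f x - g x| ≤ 0) → ∀ x, f x = g x := by
    intro f g hf hg h x
    have := sph f g hf hg 0 h x
    rw [zero_mul] at this
    exact sub_eq_zero.1 (abs_eq_zero.1 (le_antisymm this (abs_nonneg _)))
  have gadd : ∀ h h' : E n → ℝ, Sublinear h → Sublinear h' → ∀ x,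
      G (fun z => h z + h' z) x = G h x + G h' x := by
    intro h h' hh hh'
    have hs := sub_add hh hh'
    obtain ⟨R, hR0, hR⟩ := hbd _ hs
    refine eqs _ (fun z => G h z + G h' z) (hG1 _ hs) (sub_add (hG1 h hh) (hG1 h' hh')) ?_
    intro x hx
    refine small (C := R + 4) (by positivity) fun ε hε hε1 => ?_
    have hKe := hK0 ε hε
    refine le_of_sub_nonpos ?_
    refine small (C := 2 * Kf ε) (by positivity) fun η' hη' hη'1 => ?_
    obtain ⟨η, hη, hηe, hη1, hηη⟩ : ∃ η : ℝ, 0 < η ∧ η ≤ ε ∧ η ≤ 1 ∧ η ≤ η' :=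
      ⟨min (min ε 1) η', lt_min (lt_min hε one_pos) hη', (min_le_left _ _).trans (min_le_left _ _),
        (min_le_left _ _).trans (min_le_right _ _), min_le_right _ _⟩
    obtain ⟨k, hk1, hk2, hk3, hk4⟩ := appr h hh η hη
    obtain ⟨k', hk1', hk2', hk3', hk4'⟩ := appr h' hh' η hη
    have h1 := close _ hs R hR (fun z => k z + k' z) (S1_add hk1 hk1') (sub_add hk2 hk2') (2 * η)
      (by positivity) (fun y hy => by
        have h2 := hk3 y hy
        have h3 := hk3' y hy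
        rw [abs_le] at h2 h3 ⊢
        constructor <;> linarith [h2.1, h2.2, h3.1, h3.2]) ε hε x hx
    rw [hadd k k' hk1 hk1'] at h1
    have h2 := hk4 x hx
    have h3 := hk4' x hx
    have h4 : |G (fun z => h z + h' z) x - (G h x + G h' x)| ≤
        (ε * (R + 2 * η) + Kf ε * (2 * η)) + η + η := by
      rw [abs_le] at h1 h2 h3 ⊢
      constructor <;> linarith [h1.1, h1.2, h2.1, h2.2, h3.1, h3.2]
    have h5 : Kf ε * (2 * η) ≤ η' * (2 * Kf ε) := by nlinarith
    have h6 : ε * (2 * η) ≤ 2 * ε := by nlinarith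
    nlinarith
  have grot : ∀ θ : E n ≃ₗᵢ[ℝ] E n, IsRot θ → ∀ h : E n → ℝ, Sublinear h → ∀ x,
      G (fun z => h (θ z)) x = G h (θ x) := by
    intro θ hθ h hh
    have hs := sub_rot hh θ
    obtain ⟨R, hR0, hR⟩ := hbd _ hs
    refine eqs _ (fun z => G h (θ z)) (hG1 _ hs) (sub_rot (hG1 h hh) θ) ?_
    intro x hx
    refine small (C := R + 4) (by positivity) fun ε hε hε1 => ?_
    have hKe := hK0 ε hε
    refine le_of_sub_nonpos ?_
    refine small (C := 2 * Kf ε) (by positivity) fun η' hη' hη'1 => ?_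
    obtain ⟨η, hη, hηe, hη1, hηη⟩ : ∃ η : ℝ, 0 < η ∧ η ≤ ε ∧ η ≤ 1 ∧ η ≤ η' :=
      ⟨min (min ε 1) η', lt_min (lt_min hε one_pos) hη', (min_le_left _ _).trans (min_le_left _ _),
        (min_le_left _ _).trans (min_le_right _ _), min_le_right _ _⟩
    obtain ⟨k, hk1, hk2, hk3, hk4⟩ := appr h hh η hη
    have h1 := close _ hs R hR (fun z => k (θ z)) (S1_rot hk1 θ) (sub_rot hk2 θ) η
      hη.le (fun y hy => hk3 (θ y) (by simpa using hy)) ε hε x hx
    rw [hrot θ hθ k hk1] at h1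
    have h2 := hk4 (θ x) (by simpa using hx)
    have h4 : |G (fun z => h (θ z)) x - G h (θ x)| ≤
        (ε * (R + η) + Kf ε * η) + η := by
      rw [abs_le] at h1 h2 ⊢
      constructor <;> linarith [h1.1, h1.2, h2.1, h2.2]
    have h5 : Kf ε * η ≤ η' * (2 * Kf ε) := by nlinarith
    have h6 : ε * η ≤ ε := by nlinarith
    nlinarith
  -- the map
  have hT : ∀ K : ConvexBody (E n), ∃ L : ConvexBody (E n), supp L = G (supp K) := fun K =>
    exists_body (hG1 _ (supp_sublinear K))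
  choose T hT using hT
  refine ⟨T, ⟨?_, ?_, ?_⟩, fun K hK x => ?_⟩
  · rw [Metric.continuous_iff]
    intro K0 ε0 hε0
    obtain ⟨R, hR0, hR⟩ := hbd _ (supp_sublinear K0)
    obtain ⟨ε, hε, hεe⟩ : ∃ ε : ℝ, 0 < ε ∧ ε * (R + 1) ≤ ε0 / 4 := by
      refine ⟨ε0 / (4 * (R + 1)), by positivity, ?_⟩
      rw [div_mul_eq_mul_div, div_le_div_iff₀ (by positivity) (by positivity)]
      nlinarith
    have hKe := hK0 ε hε
    obtain ⟨δ, hδ, hδ1, hδe⟩ : ∃ δ : ℝ, 0 < δ ∧ δ ≤ 1 ∧ Kf ε * δ ≤ ε0 / 4 := by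
      refine ⟨min 1 (ε0 / (4 * (Kf ε + 1))), lt_min one_pos (by positivity), min_le_left _ _, ?_⟩
      refine (mul_le_mul_of_nonneg_left (min_le_right _ _) hKe).trans ?_
      rw [mul_div_assoc', div_le_div_iff₀ (by positivity) (by positivity)]
      nlinarith
    refine ⟨δ, hδ, fun K hK => ?_⟩
    refine lt_of_le_of_lt (b := ε0 / 2) ?_ (by linarith)
    refine dist_le_of_supp (by positivity) ?_
    rw [hT, hT]
    refine sph _ _ (hG1 _ (supp_sublinear K)) (hG1 _ (supp_sublinear K0)) _ fun x hx => ?_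
    have h1 := two (supp K0) (supp K) (supp_sublinear K0) (supp_sublinear K) R δ hδ.le hR
      (fun y hy => by
        have h2 := abs_supp_sub_le K K0 y
        rw [hy, mul_one] at h2
        rw [abs_sub_comm]
        exact h2.trans hK.le) ε hε x hx
    rw [abs_sub_comm]
    refine h1.trans ?_
    have : ε * (R + δ) ≤ ε * (R + 1) := mul_le_mul_of_nonneg_left (by linarith) hε.le
    linarith
  · intro K L u
    have e1 : supp (K + L) = fun z => supp K z + supp L z := funext fun z => supp_add K L z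
    rw [hT, hT, hT, e1, gadd _ _ (supp_sublinear K) (supp_sublinear L)]
  · intro θ hθ K
    apply supp_inj
    funext u
    have hr : IsRot θ.symm := by
      unfold IsRot at *
      have h1 : (θ.symm.toLinearEquiv.toLinearMap : E n →ₗ[ℝ] E n) ∘ₗ
          (θ.toLinearEquiv.toLinearMap : E n →ₗ[ℝ] E n) = LinearMap.id := by
        ext x
        simp
      have h2 := congrArg LinearMap.det h1
      rw [LinearMap.det_comp, LinearMap.det_id, hθ, mul_one] at h2
      exact h2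
    have e1 : supp (rot θ K) = fun z => supp K (θ.symm z) := funext fun z => supp_rot θ K z
    rw [hT, e1, grot θ.symm hr _ (supp_sublinear K), supp_rot, hT]
  · rw [hT]
    exact ext _ ⟨(supp_sublinear K).pos_hom, hK⟩ (supp_sublinear K) x

end Pool.Agent.Helper62.PM
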