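import Pool.Agent.Helper62.PM.St

/-!
# Project PM: assembly of the structure theorem
-/

set_option autoImplicit false

open MeasureTheory Metric Set Filter Topology
open scoped RealInnerProductSpace ContDiff

namespace Pool.Agent.Helper62.PM

open Pool.Agent.Helper62.Mink

/-- the vector space of the functions of class `S1` -/
def V1 (n : ℕ) (hD : StD) : Submodule ℝ (E n → ℝ) where
  carrier := {φ | S1 φ}
  add_mem' := fun {a b} ha hb => ((hD n).1 a b ha hb).1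
  zero_mem' := ⟨fun c _ x => by simp, contDiffOn_const⟩
  smul_mem' := fun c φ hφ => ((hD n).2.1 c φ hφ).1

/-- the orthonormal pairs -/
abbrev XO (n : ℕ) : Type := {p : E n × E n // ON p}

lemma isClosed_ON (n : ℕ) : IsClosed {p : E n × E n | ON p} := by
  have h : {p : E n × E n | ON p}
      = {p | ‖p.1‖ = 1} ∩ ({p | ‖p.2‖ = 1} ∩ {p | (inner ℝ p.1 p.2 : ℝ) = 0}) := by
    ext p; rfl
  rw [h]
  refine IsClosed.inter ?_ (IsClosed.inter ?_ ?_)
  · exact isClosed_eq (by fun_prop) continuous_const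
  · exact isClosed_eq (by fun_prop) continuous_const
  · exact isClosed_eq (by fun_prop) continuous_const

lemma isCompact_ON (n : ℕ) : IsCompact {p : E n × E n | ON p} := by
  refine IsCompact.of_isClosed_subset ((isCompact_closedBall (0 : E n) 1).prod
    (isCompact_closedBall (0 : E n) 1)) (isClosed_ON n) ?_
  rintro p ⟨h1, h2, -⟩
  exact ⟨by simp [h1], by simp [h2]⟩

instance (n : ℕ) : CompactSpace (XO n) := isCompact_iff_compactSpace.1 (isCompact_ON n)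

/-- the radii of curvature as a continuous function on the orthonormal pairs -/
noncomputable def rad (n : ℕ) (hD : StD) : V1 n hD →ₗ[ℝ] C(XO n, ℝ) where
  toFun φ := ⟨fun p => D2 (φ : E n → ℝ) p.1.2 p.1.1, by
    have h := ((hD n).2.2.2.2 φ.1 φ.2).2
    exact continuousOn_iff_continuous_domRestrict.1 h⟩
  map_add' φ ψ := by
    ext p
    exact ((hD n).1 φ.1 ψ.1 φ.2 ψ.2).2 p.1 p.2
  map_smul' c φ := by
    ext p
    exact ((hD n).2.1 c φ.1 φ.2).2 p.1 p.2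

lemma quo_eq {n : ℕ} {e v : E n} {φ : E n → ℝ} {s : ℝ} {θ θ' : E n ≃ₗᵢ[ℝ] E n}
    (h : ∀ x, θ x = rp e v s x) (h' : ∀ x, θ' x = rp e v (-s) x) :
    quo e v φ s = fun z => (1 / s ^ 2) * ((φ (θ z) + φ (θ' z)) + (-2 * Real.cos s) * φ z) := by
  funext z
  unfold quo
  rw [h, h']
  ring

lemma quo_S1 (hA : StA) (hD : StD) {n : ℕ} {e v : E n} (hev : ON (e, v)) {φ : E n → ℝ} (hφ : S1 φ)
    (s : ℝ) : S1 (quo e v φ s) ∧ ∀ p : E n × E n, ON p → D2 (quo e v φ s) p.2 p.1 = quo2 e v φ s p := by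
  obtain ⟨θ, -, hθ⟩ := (hA n e v hev).1 s
  obtain ⟨θ', -, hθ'⟩ := (hA n e v hev).1 (-s)
  rw [quo_eq hθ hθ']
  obtain ⟨d1, d2, d3, -, -⟩ := hD n
  have a1 := d3 θ φ hφ
  have a2 := d3 θ' φ hφ
  have a3 := d1 _ _ a1.1 a2.1
  have a4 := d2 (-2 * Real.cos s) φ hφ
  have a5 := d1 _ _ a3.1 a4.1
  have a6 := d2 (1 / s ^ 2) _ a5.1
  refine ⟨a6.1, fun p hp => ?_⟩
  rw [a6.2 p hp, a5.2 p hp, a3.2 p hp, a4.2 p hp, a1.2 p hp, a2.2 p hp]
  unfold quo2
  rw [hθ, hθ', hθ, hθ']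
  ring

lemma quo_A (hA : StA) (hD : StD) {n : ℕ} {e v : E n} (hev : ON (e, v)) {φ : E n → ℝ} (hφ : S1 φ)
    {T : ConvexBody (E n) → ConvexBody (E n)} {A : (E n → ℝ) → E n → ℝ} {C : ℝ} (hT : Ext T A C)
    (s : ℝ) (x : E n) : A (quo e v φ s) x = quo e v (A φ) s x := by
  obtain ⟨θ, hr, hθ⟩ := (hA n e v hev).1 s
  obtain ⟨θ', hr', hθ'⟩ := (hA n e v hev).1 (-s)
  rw [quo_eq hθ hθ']
  obtain ⟨d1, d2, d3, -, -⟩ := hD n
  have a1 := d3 θ φ hφ
  have a2 := d3 θ' φ hφ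
  have a3 := d1 _ _ a1.1 a2.1
  have a4 := d2 (-2 * Real.cos s) φ hφ
  have a5 := d1 _ _ a3.1 a4.1
  rw [hT.smul _ _ a5.1, hT.add _ _ a3.1 a4.1, hT.add _ _ a1.1 a2.1, hT.smul _ _ hφ,
    hT.rot θ hr φ hφ, hT.rot θ' hr' φ hφ, hθ, hθ']
  unfold quo
  ring

/-- the limit of the quotients exists -/
lemma lim_exists (hA : StA) (hC : StC) (hD : StD) {n : ℕ} {e v : E n} (hev : ON (e, v))
    {T : ConvexBody (E n) → ConvexBody (E n)} {A : (E n → ℝ) → E n → ℝ} {C : ℝ} (hC0 : 0 ≤ C)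
    (hT : Ext T A C) {φ : E n → ℝ} (hφ : S1 φ) :
    ∃ l : ℝ, Tendsto (fun s : ℝ => quo e v (A φ) s e) (𝓝[>] 0) (𝓝 l) := by
  rw [← cauchy_map_iff_exists_tendsto, Metric.cauchy_iff]
  refine ⟨inferInstance, fun ε hε => ?_⟩
  obtain ⟨c1, ⟨ρ, c2⟩, -⟩ := hC n e v φ hev hφ
  obtain ⟨δ1, hδ1, h1⟩ := c1 (ε / (8 * (C + 1))) (by positivity)
  obtain ⟨δ2, hδ2, h2⟩ := c2 (ε / (8 * (C + 1))) (by positivity)
  refine ⟨(fun s : ℝ => quo e v (A φ) s e) '' Ioo 0 (min δ1 δ2), image_mem_map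
    (Ioo_mem_nhdsGT (lt_min hδ1 hδ2)), ?_⟩
  rintro _ ⟨s, ⟨hs0, hs⟩, rfl⟩ _ ⟨t, ⟨ht0, ht⟩, rfl⟩
  have q1 := quo_S1 hA hD hev hφ s
  have q2 := quo_S1 hA hD hev hφ t
  obtain ⟨d1, d2, -, -, -⟩ := hD n
  have m1 := d2 (-1) _ q2.1
  have m2 := d1 _ _ q1.1 m1.1
  have hb := hT.bound _ m2.1 (2 * (ε / (8 * (C + 1)))) (2 * (ε / (8 * (C + 1))))
    (fun x hx => by
      have e1 := h1 s hs0 (lt_of_lt_of_le hs (min_le_left _ _)) x hx
      have e2 := h1 t ht0 (lt_of_lt_of_le ht (min_le_left _ _)) x hx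
      rw [abs_le] at e1 e2 ⊢
      constructor <;> linarith [e1.1, e1.2, e2.1, e2.2])
    (fun p hp => by
      have e1 := h2 s hs0 (lt_of_lt_of_le hs (min_le_right _ _)) p hp
      have e2 := h2 t ht0 (lt_of_lt_of_le ht (min_le_right _ _)) p hp
      rw [m2.2 p hp, m1.2 p hp, q1.2 p hp, q2.2 p hp]
      rw [abs_le] at e1 e2 ⊢
      constructor <;> linarith [e1.1, e1.2, e2.1, e2.2]) e hev.1
  rw [hT.add _ _ q1.1 m1.1, hT.smul _ _ q2.1, quo_A hA hD hev hφ hT, quo_A hA hD hev hφ hT] at hb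
  rw [Real.dist_eq]
  have e3 : quo e v (A φ) s e + -1 * quo e v (A φ) t e = quo e v (A φ) s e - quo e v (A φ) t e := by
    ring
  rw [e3] at hb
  refine lt_of_le_of_lt hb ?_
  have e4 : C * (2 * (ε / (8 * (C + 1))) + 2 * (ε / (8 * (C + 1)))) = ε / 2 * (C / (C + 1)) := by
    field_simp
    ring
  rw [e4]
  have e5 : C / (C + 1) ≤ 1 := by
    rw [div_le_one (by linarith)]
    linarith
  nlinarith

/-- sublinearity from nonnegative radii -/
lemma sublin (hD : StD) (hE : StE) (hF : StF) {n : ℕ} (hn : 2 ≤ n) {φ : E n → ℝ} (hφ : S1 φ)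
    (h : ∀ p : E n × E n, ON p → 0 ≤ D2 φ p.2 p.1) : Sublinear φ :=
  ⟨hφ.hom, hE n φ hn ((hD n).2.2.2.2 φ hφ).1 hφ.hom fun a b hab =>
    ⟨D2 φ b a, h (a, b) hab, hF n φ a b hab hφ⟩⟩

/-- the quotient of a sublinear function is nonnegative -/
lemma quo_nonneg (hA : StA) {n : ℕ} {e v : E n} (hev : ON (e, v)) {F : E n → ℝ} (hF : Sublinear F)
    {s : ℝ} (hs : 0 ≤ Real.cos s) : 0 ≤ quo e v F s e := by
  obtain ⟨-, -, -, h⟩ := hA n e v hev
  unfold quo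
  refine div_nonneg ?_ (sq_nonneg s)
  rw [h, h, Real.cos_neg, Real.sin_neg]
  have h1 := hF.add_le (Real.cos s • e + Real.sin s • v) (Real.cos s • e + -Real.sin s • v)
  have e1 : (Real.cos s • e + Real.sin s • v) + (Real.cos s • e + -Real.sin s • v)
      = (2 * Real.cos s) • e := by
    module
  rw [e1, hF.pos_hom _ (by linarith)] at h1
  linarith

/-- The structure theorem, for the linear extension. -/
theorem struct (hA : StA) (hC : StC) (hD : StD) (hE : StE) (hF : StF) (hG : StG) {n : ℕ}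
    (hn : 2 ≤ n) {e v : E n} (hev : ON (e, v))
    {T : ConvexBody (E n) → ConvexBody (E n)} {A : (E n → ℝ) → E n → ℝ} {C : ℝ} (hC0 : 0 ≤ C)
    (hT : Ext T A C) :
    ∃ m : Measure (E n × E n), IsFiniteMeasure m ∧ m {p | ¬ ON p} = 0 ∧
      ∀ φ : E n → ℝ, S1 φ →
        Tendsto (fun s : ℝ => quo e v (A φ) s e) (𝓝[>] 0) (𝓝 (∫ p, D2 φ p.2 p.1 ∂m)) := by
  classical
  have hl : ∀ φ : V1 n hD, ∃ l : ℝ,
      Tendsto (fun s : ℝ => quo e v (A φ.1) s e) (𝓝[>] 0) (𝓝 l) := fun φ =>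
    lim_exists hA hC hD hev hC0 hT φ.2
  choose L hL using hl
  obtain ⟨Λ, hΛ⟩ : ∃ Λ : V1 n hD →ₗ[ℝ] ℝ, ∀ φ, Λ φ = L φ := by
    refine ⟨{ toFun := L, map_add' := ?_, map_smul' := ?_ }, fun _ => rfl⟩
    · intro φ ψ
      refine tendsto_nhds_unique (hL (φ + ψ)) ?_
      refine ((hL φ).add (hL ψ)).congr fun s => ?_
      have e1 : ∀ x, A ((φ + ψ : V1 n hD) : E n → ℝ) x = A φ.1 x + A ψ.1 x :=
        hT.add φ.1 ψ.1 φ.2 ψ.2
      unfold quo
      rw [e1, e1, e1]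
      ring
    · intro c φ
      refine tendsto_nhds_unique (hL (c • φ)) ?_
      refine ((hL φ).const_mul c).congr fun s => ?_
      have e1 : ∀ x, A ((c • φ : V1 n hD) : E n → ℝ) x = c * A φ.1 x := hT.smul c φ.1 φ.2
      unfold quo
      rw [e1, e1, e1]
      ring
  obtain ⟨m', hm', hm⟩ := hG (XO n) (V1 n hD) (rad n hD) Λ
    ⟨fun z => ‖z‖, ((hD n).2.2.2.1).1⟩ (fun x => ((hD n).2.2.2.1).2 x.1 x.2) (fun φ hφ => by
      rw [hΛ]
      have hs : Sublinear φ.1 := sublin hD hE hF hn φ.2 fun p hp => hφ ⟨p, hp⟩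
      refine ge_of_tendsto (hL φ) ?_
      have hev' : ∀ᶠ s : ℝ in 𝓝[>] 0, 0 ≤ Real.cos s := by
        have h1 : ∀ᶠ s : ℝ in 𝓝 0, 0 < Real.cos s := by
          have : ContinuousAt Real.cos 0 := Real.continuous_cos.continuousAt
          exact this.eventually (lt_mem_nhds (by simp))
        exact (h1.filter_mono nhdsWithin_le_nhds).mono fun s hs => hs.le
      exact hev'.mono fun s hs' => quo_nonneg hA hev (hT.pos φ.1 φ.2 hs) hs')
  have hms : MeasurableSet {p : E n × E n | ON p} := (isClosed_ON n).measurableSet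
  have hemb : MeasurableEmbedding (Subtype.val : XO n → E n × E n) :=
    MeasurableEmbedding.subtype_coe hms
  refine ⟨m'.map Subtype.val, ⟨?_⟩, ?_, fun φ hφ => ?_⟩
  · rw [Measure.map_apply hemb.measurable MeasurableSet.univ]
    exact measure_lt_top _ _
  · have hmc : MeasurableSet {p : E n × E n | ¬ ON p} := hms.compl
    rw [Measure.map_apply hemb.measurable hmc]
    have : (Subtype.val : XO n → E n × E n) ⁻¹' {p | ¬ ON p} = ∅ := by
      ext x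
      simp only [mem_preimage, mem_setOf_eq, mem_empty_iff_false, iff_false, not_not]
      exact x.2
    rw [this, measure_empty]
  · rw [hemb.integral_map]
    have h1 := hm ⟨φ, hφ⟩
    rw [hΛ] at h1
    have h2 := hL ⟨φ, hφ⟩
    rw [h1] at h2
    exact h2

end Pool.Agent.Helper62.PM
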