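import Pool.Agent.Helper62.PM.St3
import Pool.Agent.Helper62.PM.Asm

/-!
# Project PM: assembly of the criterion for zonal distributions
-/

set_option autoImplicit false

open MeasureTheory Metric Set Filter Topology
open scoped RealInnerProductSpace ContDiff

namespace Pool.Agent.Helper62.PM

open Pool.Agent.Helper62.Mink

lemma isRot_refl (n : ℕ) : IsRot (LinearIsometryEquiv.refl ℝ (E n)) := by
  unfold IsRot
  have : ((LinearIsometryEquiv.refl ℝ (E n)).toLinearEquiv.toLinearMap : E n →ₗ[ℝ] E n)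
      = LinearMap.id := rfl
  rw [this, LinearMap.det_id]

lemma isRot_trans {n : ℕ} {θ η : E n ≃ₗᵢ[ℝ] E n} (h : IsRot θ) (h' : IsRot η) :
    IsRot (θ.trans η) := by
  unfold IsRot at *
  have e1 : ((θ.trans η).toLinearEquiv.toLinearMap : E n →ₗ[ℝ] E n)
      = (η.toLinearEquiv.toLinearMap : E n →ₗ[ℝ] E n) ∘ₗ
        (θ.toLinearEquiv.toLinearMap : E n →ₗ[ℝ] E n) := rfl
  rw [e1, LinearMap.det_comp, h, h', mul_one]

lemma S1_supp {n : ℕ} {K : ConvexBody (E n)} (hK : ContDiffOn ℝ ∞ (supp K) {0}ᶜ) : S1 (supp K) :=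
  ⟨fun c hc x => (supp_sublinear K).pos_hom c hc x, hK⟩

lemma ON_rot {n : ℕ} {e v : E n} (h : ON (e, v)) (θ : E n ≃ₗᵢ[ℝ] E n) : ON (θ e, θ v) := by
  obtain ⟨h1, h2, h3⟩ := h
  exact ⟨by simpa using h1, by simpa using h2, by simpa using h3⟩

lemma mu_quo (hA : StA) (hD : StD) {n : ℕ} {e v : E n} (hev : ON (e, v)) {μ : (E n → ℝ) → ℝ}
    (hμ : ZDist e μ) {φ : E n → ℝ} (hφ : S1 φ) {F : E n → ℝ}
    (hF : ∀ θ : E n ≃ₗᵢ[ℝ] E n, IsRot θ → F (θ e) = μ (fun z => φ (θ z))) (s : ℝ) :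
    μ (quo e v φ s) = quo e v F s e := by
  obtain ⟨θ, hr, hθ⟩ := (hA n e v hev).1 s
  obtain ⟨θ', hr', hθ'⟩ := (hA n e v hev).1 (-s)
  rw [quo_eq hθ hθ']
  obtain ⟨d1, d2, d3, -, -⟩ := hD n
  have a1 := d3 θ φ hφ
  have a2 := d3 θ' φ hφ
  have a3 := d1 _ _ a1.1 a2.1
  have a4 := d2 (-2 * Real.cos s) φ hφ
  have a5 := d1 _ _ a3.1 a4.1
  have h0 := hF (LinearIsometryEquiv.refl ℝ (E n)) (isRot_refl n)
  have h0' : F e = μ φ := h0
  rw [hμ.smul _ _ a5.1, hμ.add _ _ a3.1 a4.1, hμ.add _ _ a1.1 a2.1, hμ.smul _ _ hφ,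
    ← hF θ hr, ← hF θ' hr', ← h0', hθ, hθ']
  unfold quo
  ring

lemma lim_mu (hA : StA) (hD : StD) (hXA : StXA) (hXB : StXB) (hXC : StXC) {n : ℕ} {e v : E n}
    (hev : ON (e, v)) {μ : (E n → ℝ) → ℝ} (hμ : ZDist e μ) {φ : E n → ℝ} (hφ : S1 φ) :
    Tendsto (fun s : ℝ => μ (quo e v φ s)) (𝓝[>] 0) (𝓝 (μ (Lop e v φ))) := by
  obtain ⟨N, C, hC⟩ := hμ.cont
  obtain ⟨C1, hC1, hB⟩ := hXB n N
  obtain ⟨hL, hw⟩ := hXC n e v φ hev hφ
  rw [Metric.tendsto_nhds]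
  intro ε hε
  obtain ⟨η, hη, hη'⟩ : ∃ η : ℝ, 0 < η ∧ |C| * (C1 * η) < ε := by
    refine ⟨ε / (|C| * C1 + 1), by positivity, ?_⟩
    have h1 : 0 ≤ |C| * C1 := by positivity
    have h2 : |C| * (C1 * (ε / (|C| * C1 + 1))) = ε * ((|C| * C1) / (|C| * C1 + 1)) := by
      field_simp
    rw [h2]
    have h3 : (|C| * C1) / (|C| * C1 + 1) < 1 := by
      rw [div_lt_one (by linarith)]
      linarith
    nlinarith
  have hfin : {w : List (Fin n × Fin n) | w.length ≤ N}.Finite := List.finite_length_le _ _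
  have hevt : ∀ᶠ s : ℝ in 𝓝[>] (0 : ℝ), ∀ w ∈ {w : List (Fin n × Fin n) | w.length ≤ N},
      ∀ x : E n, ‖x‖ = 1 → |Xw w (quo e v φ s) x - Xw w (Lop e v φ) x| ≤ η := by
    rw [Filter.eventually_all_finite hfin]
    intro w _
    obtain ⟨δ, hδ, h⟩ := hw w η hη
    filter_upwards [Ioo_mem_nhdsGT hδ] with s hs
    exact h s hs.1 hs.2
  filter_upwards [hevt] with s hs
  have q := quo_S1 hA hD hev hφ s
  have m1 := (hD n).2.1 (-1) _ hL
  have m2 := (hD n).1 _ _ q.1 m1.1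
  have hbd : Bd N (fun z => quo e v φ s z + (-1) * Lop e v φ z) η := by
    intro w hw x hx
    have hx0 : x ≠ 0 := by
      rintro rfl
      simp at hx
    have e1 := ((hXA n).2.2.1 w (quo e v φ s) (fun z => (-1) * Lop e v φ z) 1 q.1 m1.1 x hx0).1
    have e2 := ((hXA n).2.2.1 w (Lop e v φ) (Lop e v φ) (-1) hL hL x hx0).2
    rw [e1, e2]
    have h3 := hs w hw x hx
    have h4 : Xw w (quo e v φ s) x + -1 * Xw w (Lop e v φ) x
        = Xw w (quo e v φ s) x - Xw w (Lop e v φ) x := by ring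
    rw [h4]
    exact h3
  have hb := hB _ η m2.1 hη.le hbd
  have h3 := hC _ m2.1 (C1 * η) hb
  rw [hμ.add _ _ q.1 m1.1, hμ.smul _ _ hL] at h3
  rw [Real.dist_eq]
  have h4 : μ (quo e v φ s) + -1 * μ (Lop e v φ) = μ (quo e v φ s) - μ (Lop e v φ) := by ring
  rw [h4] at h3
  refine lt_of_le_of_lt h3 (lt_of_le_of_lt ?_ hη')
  exact mul_le_mul_of_nonneg_right (le_abs_self C) (by positivity)

lemma ev_cos : ∀ᶠ s : ℝ in 𝓝[>] 0, 0 ≤ Real.cos s := by
  have h1 : ∀ᶠ s : ℝ in 𝓝 0, 0 < Real.cos s := by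
    have : ContinuousAt Real.cos 0 := Real.continuous_cos.continuousAt
    exact this.eventually (lt_mem_nhds (by simp))
  exact (h1.filter_mono nhdsWithin_le_nhds).mono fun s hs => hs.le

/-- an admissible map gives the inequalities -/
lemma crit_b (hA : StA) (hD : StD) (hXA : StXA) (hXB : StXB) (hXC : StXC) {n : ℕ} {e v : E n}
    (hev : ON (e, v)) {μ : (E n → ℝ) → ℝ} (hμ : ZDist e μ)
    {T : ConvexBody (E n) → ConvexBody (E n)} (hT : GenD e μ T) (K : ConvexBody (E n))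
    (hK : ContDiffOn ℝ ∞ (supp K) {0}ᶜ) : 0 ≤ μ (Lop e v (supp K)) := by
  refine ge_of_tendsto (lim_mu hA hD hXA hXB hXC hev hμ (S1_supp hK)) ?_
  filter_upwards [ev_cos] with s hs
  rw [mu_quo hA hD hev hμ (S1_supp hK) (F := supp (T K)) (fun θ hθ => hT K hK θ hθ) s]
  exact quo_nonneg hA hev (supp_sublinear (T K)) hs

/-- the inequalities give the measure -/
lemma crit_c (hA : StA) (hD : StD) (hE : StE) (hF : StF) (hG : StG) (hXA : StXA) (hXB : StXB)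
    (hXC : StXC) {n : ℕ} (hn : 2 ≤ n) {e v : E n}
    (hev : ON (e, v)) {μ : (E n → ℝ) → ℝ} (hμ : ZDist e μ)
    (hb : ∀ K : ConvexBody (E n), ContDiffOn ℝ ∞ (supp K) {0}ᶜ → 0 ≤ μ (Lop e v (supp K))) :
    ∃ m : Measure (E n × E n), IsFiniteMeasure m ∧ m {p | ¬ ON p} = 0 ∧
      ∀ φ : E n → ℝ, S1 φ → μ (Lop e v φ) = ∫ p, D2 φ p.2 p.1 ∂m := by
  classical
  have hL : ∀ φ : V1 n hD, Tendsto (fun s : ℝ => μ (quo e v φ.1 s)) (𝓝[>] 0)
      (𝓝 (μ (Lop e v φ.1))) := fun φ => lim_mu hA hD hXA hXB hXC hev hμ φ.2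
  obtain ⟨Λ, hΛ⟩ : ∃ Λ : V1 n hD →ₗ[ℝ] ℝ, ∀ φ, Λ φ = μ (Lop e v φ.1) := by
    refine ⟨{ toFun := fun φ => μ (Lop e v φ.1), map_add' := ?_, map_smul' := ?_ }, fun _ => rfl⟩
    · intro φ ψ
      refine tendsto_nhds_unique (hL (φ + ψ)) ?_
      refine ((hL φ).add (hL ψ)).congr fun s => ?_
      rw [← hμ.add _ _ (quo_S1 hA hD hev φ.2 s).1 (quo_S1 hA hD hev ψ.2 s).1]
      congr 1
      funext z
      have e1 : ∀ x, ((φ + ψ : V1 n hD) : E n → ℝ) x = φ.1 x + ψ.1 x := fun x => rfl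
      unfold quo
      rw [e1, e1, e1]
      ring
    · intro c φ
      refine tendsto_nhds_unique (hL (c • φ)) ?_
      refine ((hL φ).const_mul c).congr fun s => ?_
      rw [← hμ.smul _ _ (quo_S1 hA hD hev φ.2 s).1]
      congr 1
      funext z
      have e1 : ∀ x, ((c • φ : V1 n hD) : E n → ℝ) x = c * φ.1 x := fun x => rfl
      unfold quo
      rw [e1, e1, e1]
      ring
  obtain ⟨m', hm', hm⟩ := hG (XO n) (V1 n hD) (rad n hD) Λ
    ⟨fun z => ‖z‖, ((hD n).2.2.2.1).1⟩ (fun x => ((hD n).2.2.2.1).2 x.1 x.2) (fun φ hφ => by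
      rw [hΛ]
      have hs : Sublinear φ.1 := sublin hD hE hF hn φ.2 fun p hp => hφ ⟨p, hp⟩
      obtain ⟨K, hK⟩ := exists_body hs
      have h1 := hb K (by rw [hK]; exact φ.2.smooth)
      rwa [hK] at h1)
  have hms : MeasurableSet {p : E n × E n | ON p} := (isClosed_ON n).measurableSet
  have hemb : MeasurableEmbedding (Subtype.val : XO n → E n × E n) :=
    MeasurableEmbedding.subtype_coe hms
  refine ⟨m'.map Subtype.val, ⟨?_⟩, ?_, fun φ hφ => ?_⟩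
  · rw [Measure.map_apply hemb.measurable MeasurableSet.univ]
    exact measure_lt_top _ _
  · have hmc : MeasurableSet {p : E n × E n | ¬ ON p} := hms.compl
    rw [Measure.map_apply hemb.measurable hmc]
    have : (Subtype.val : XO n → E n × E n) ⁻¹' {p | ¬ ON p} = ∅ := by
      ext x
      constructor
      · intro hx
        exact absurd x.2 hx
      · intro hx
        exact absurd hx (by simp)
    rw [this, measure_empty]
  · rw [hemb.integral_map]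
    have h1 := hm ⟨φ, hφ⟩
    rw [hΛ] at h1
    exact h1

/-- the measure gives the admissible map -/
lemma crit_a (hXD : StXD) (hXE : StXE) (hXK : StXK) (hXM : StXM) {n : ℕ} (hn : 3 ≤ n)
    {e v : E n} (hev : ON (e, v)) {μ : (E n → ℝ) → ℝ} (hμ : ZDist e μ) {m : Measure (E n × E n)}
    (hm : IsFiniteMeasure m) (h0 : m {p | ¬ ON p} = 0)
    (hc : ∀ φ : E n → ℝ, S1 φ → μ (Lop e v φ) = ∫ p, D2 φ p.2 p.1 ∂m) :
    ∃ T : ConvexBody (E n) → ConvexBody (E n), Admissible T ∧ GenD e μ T := by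
  obtain ⟨A, N, C, hC0, hA'⟩ := hXD n e μ (by omega) hev.1 hμ
  have hpos := hXE n e v μ A N C m hn hev hμ hA' hm h0 hc
  have hK := hXK n e μ A N C hn hev.1 hμ hC0 hA' hpos
  obtain ⟨T, hT, hTK⟩ := hXM n A (by omega) hA'.add hA'.rot hpos hK.2
  refine ⟨T, hT, fun K hK θ hθ => ?_⟩
  rw [hTK K hK]
  exact hA'.pole (supp K) (S1_supp hK) θ hθ

lemma abs_D2_le {n : ℕ} {φ : E n → ℝ} (hφ : S1 φ) {p : E n × E n} (hp : ON p) :
    |D2 φ p.2 p.1| ≤ ‖iteratedFDeriv ℝ 2 φ p.1‖ := by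
  have h0 : p.1 ≠ 0 := by
    intro h
    have := hp.1
    rw [h] at this
    simp at this
  rw [D2_eq_Bf hφ.smooth h0]
  unfold Bf
  have h1 := iteratedFDeriv_two_apply (𝕜 := ℝ) φ p.1 ![p.2, p.2]
  have h2 : fderiv ℝ (fderiv ℝ φ) p.1 p.2 p.2 = iteratedFDeriv ℝ 2 φ p.1 ![p.2, p.2] := by
    rw [h1]
    simp
  rw [h2]
  have h3 := (iteratedFDeriv ℝ 2 φ p.1).le_opNorm ![p.2, p.2]
  rw [Real.norm_eq_abs] at h3
  refine h3.trans ?_
  rw [Fin.prod_univ_two]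
  simp [hp.2.1]

/-- every admissible map is generated by a zonal distribution -/
lemma gen_exists (hI : StI) {n : ℕ} (hn : 2 ≤ n) {e : E n} (he : ‖e‖ = 1)
    {T : ConvexBody (E n) → ConvexBody (E n)} (hT : Admissible T) :
    ∃ μ : (E n → ℝ) → ℝ, ZDist e μ ∧ GenD e μ T := by
  obtain ⟨A, C, hC, hE⟩ := hI n T hn hT
  refine ⟨fun φ => A φ e, ⟨fun φ ψ hφ hψ => hE.add φ ψ hφ hψ e, fun c φ hφ => hE.smul c φ hφ e,
    ⟨2, 2 * C, ?_⟩, ?_⟩, ?_⟩
  · intro φ hφ B hB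
    have h1 := hE.bound φ hφ B B (fun x hx => by
      have := hB 0 (by norm_num) x hx
      rwa [norm_iteratedFDeriv_zero, Real.norm_eq_abs] at this) (fun p hp =>
      (abs_D2_le hφ hp).trans (hB 2 le_rfl p.1 hp.1)) e he
    refine h1.trans (le_of_eq ?_)
    ring
  · intro θ hθ hθe φ hφ
    show A (fun z => φ (θ z)) e = A φ e
    rw [hE.rot θ hθ φ hφ, hθe]
  · intro K hK θ hθ
    show supp (T K) (θ e) = A (fun z => supp K (θ z)) e
    rw [hE.rot θ hθ _ (S1_supp hK), hE.body K hK]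

/-- averaging of the radii of curvature -/
lemma average (hA : StA) (hD : StD) (hE : StE) (hF : StF) (hG : StG) (hI : StI) (hXA : StXA)
    (hXB : StXB) (hXC : StXC) (hXD : StXD) (hSC : StSC) {n : ℕ} (hn : 3 ≤ n) {e v : E n}
    (hev : ON (e, v)) {T : ConvexBody (E n) → ConvexBody (E n)} (hT : Admissible T) :
    ∃ m : Measure (E n × E n), IsFiniteMeasure m ∧ m {p | ¬ ON p} = 0 ∧
      ∀ K : ConvexBody (E n), ContDiffOn ℝ ∞ (supp K) {0}ᶜ →
        ContDiffOn ℝ ∞ (supp (T K)) {0}ᶜ ∧ ∀ θ : E n ≃ₗᵢ[ℝ] E n, IsRot θ →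
          D2 (supp (T K)) (θ v) (θ e) = ∫ p, D2 (supp K) (θ p.2) (θ p.1) ∂m := by
  have hn2 : 2 ≤ n := by omega
  obtain ⟨μ, hμ, hg⟩ := gen_exists hI hn2 hev.1 hT
  obtain ⟨m, hm, h0, hc⟩ := crit_c hA hD hE hF hG hXA hXB hXC hn2 hev hμ
    (fun K hK => crit_b hA hD hXA hXB hXC hev hμ hg K hK)
  refine ⟨m, hm, h0, fun K hK => ?_⟩
  have hS := S1_supp hK
  obtain ⟨A, N, C, hC0, hDop⟩ := hXD n e μ hn2 hev.1 hμ
  have hAS := hSC n e μ A N C hn2 hC0 hDop (supp K) hS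
  have hEq : supp (T K) = A (supp K) := by
    funext x
    by_cases hx : x = 0
    · subst hx
      have h1 := (supp_sublinear (T K)).pos_hom 0 le_rfl 0
      have h2 := hAS.hom 0 le_rfl 0
      rw [zero_smul, zero_mul] at h1 h2
      rw [h1, h2]
    · have hx' : 0 < ‖x‖ := norm_pos_iff.2 hx
      obtain ⟨θ, hθ, hθe⟩ := exists_rot hn2 hev.1 (u := ‖x‖⁻¹ • x) (by
        rw [norm_smul, norm_inv, norm_norm, inv_mul_cancel₀ hx'.ne'])
      have h1 : x = ‖x‖ • θ e := by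
        rw [hθe, smul_smul, mul_inv_cancel₀ hx'.ne', one_smul]
      have h2 := (supp_sublinear (T K)).pos_hom ‖x‖ hx'.le (θ e)
      have h3 := hAS.hom ‖x‖ hx'.le (θ e)
      rw [h1, h2, h3, hg K hK θ hθ, hDop.pole _ hS θ hθ]
  have hTS : S1 (supp (T K)) := by
    rw [hEq]
    exact hAS
  refine ⟨hTS.smooth, fun θ hθ => ?_⟩
  have hSθ := ((hD n).2.2.1 θ (supp K) hS)
  have l1 := lim_mu hA hD hXA hXB hXC hev hμ hSθ.1
  have l2 := hF n (supp (T K)) (θ e) (θ v) (ON_rot hev θ) hTS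
  have l3 : D2 (supp (T K)) (θ v) (θ e) = μ (Lop e v (fun z => supp K (θ z))) := by
    refine tendsto_nhds_unique l2 (l1.congr fun s => ?_)
    rw [mu_quo hA hD hev hμ hSθ.1 (F := fun z => supp (T K) (θ z)) (fun η hη => by
      have := hg K hK (η.trans θ) (isRot_trans hη hθ)
      exact this) s]
    obtain ⟨-, -, -, h4⟩ := hA n e v hev
    unfold quo
    rw [h4, h4, Real.cos_neg, Real.sin_neg]
    simp only [map_add, map_smul, neg_smul, map_neg, sub_eq_add_neg]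
  rw [l3, hc _ hSθ.1]
  refine integral_congr_ae ?_
  have hae : ∀ᵐ p ∂m, ON p := by
    rw [ae_iff]
    exact h0
  filter_upwards [hae] with p hp
  exact hSθ.2 p hp

end Pool.Agent.Helper62.PM
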