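import Pool.Agent.Helper62.PM.St4
import Pool.Agent.Helper62.PM.Fin

/-!
# Project PM: assembly of the theorem on the negative part
-/

set_option autoImplicit false

open MeasureTheory Metric Set Filter Topology
open scoped RealInnerProductSpace ContDiff

namespace Pool.Agent.Helper62.PM

open Pool.Agent.Helper62.Mink

lemma integrable_sph {n : ℕ} {P : Measure (sphere (0 : E n) 1)} (hP : IsFiniteMeasure P)
    {φ : E n → ℝ} (hφ : Continuous φ) : Integrable (fun w : sphere (0 : E n) 1 => φ (w : E n)) P := by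
  have hc : Continuous fun w : sphere (0 : E n) 1 => φ (w : E n) := hφ.comp continuous_subtype_val
  obtain ⟨M, hM⟩ : ∃ M : ℝ, ∀ w : sphere (0 : E n) 1, ‖φ (w : E n)‖ ≤ M := by
    obtain ⟨M, hM⟩ := (isCompact_univ (X := sphere (0 : E n) 1)).exists_bound_of_continuousOn
      hc.continuousOn
    exact ⟨M, fun w => hM w (mem_univ w)⟩
  exact Integrable.of_bound hc.aestronglyMeasurable M (Eventually.of_forall hM)

/-- a zonal signed measure is a zonal distribution -/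
lemma zdist_of_meas (hD : StD) {n : ℕ} {e : E n} {P N : Measure (sphere (0 : E n) 1)}
    (hP : IsFiniteMeasure P) (hN : IsFiniteMeasure N) (zP : Zon e P) (zN : Zon e N) :
    ZDist e (fun φ => ∫ w : sphere (0 : E n) 1, φ (w : E n) ∂P -
      ∫ w : sphere (0 : E n) 1, φ (w : E n) ∂N) := by
  have hc : ∀ φ : E n → ℝ, S1 φ → Continuous φ := fun φ hφ => ((hD n).2.2.2.2 φ hφ).1
  refine ⟨fun φ ψ hφ hψ => ?_, fun c φ hφ => ?_, ⟨0, (P univ).toReal + (N univ).toReal, ?_⟩, ?_⟩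
  · show ∫ w : sphere (0 : E n) 1, (φ (w : E n) + ψ (w : E n)) ∂P -
      ∫ w : sphere (0 : E n) 1, (φ (w : E n) + ψ (w : E n)) ∂N = _
    rw [integral_add (integrable_sph hP (hc φ hφ)) (integrable_sph hP (hc ψ hψ)),
      integral_add (integrable_sph hN (hc φ hφ)) (integrable_sph hN (hc ψ hψ))]
    ring
  · show ∫ w : sphere (0 : E n) 1, (c * φ (w : E n)) ∂P -
      ∫ w : sphere (0 : E n) 1, (c * φ (w : E n)) ∂N = _
    rw [integral_const_mul, integral_const_mul]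
    ring
  · intro φ hφ B hB
    have h0 : ∀ w : sphere (0 : E n) 1, ‖φ (w : E n)‖ ≤ B := fun w => by
      have := hB 0 le_rfl (w : E n) (by simp)
      rwa [norm_iteratedFDeriv_zero] at this
    have h1 := norm_integral_le_of_norm_le_const (μ := P) (Eventually.of_forall h0)
    have h2 := norm_integral_le_of_norm_le_const (μ := N) (Eventually.of_forall h0)
    rw [Real.norm_eq_abs] at h1 h2
    have h3 := abs_sub (∫ w : sphere (0 : E n) 1, φ (w : E n) ∂P)
      (∫ w : sphere (0 : E n) 1, φ (w : E n) ∂N)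
    refine h3.trans ?_
    have e1 : P.real univ = (P univ).toReal := rfl
    have e2 : N.real univ = (N univ).toReal := rfl
    rw [e1] at h1
    rw [e2] at h2
    linarith
  · intro θ hθ hθe φ hφ
    show ∫ w : sphere (0 : E n) 1, φ (θ (w : E n)) ∂P - ∫ w : sphere (0 : E n) 1, φ (θ (w : E n)) ∂N = _
    rw [zP θ hθ hθe φ (hc φ hφ), zN θ hθ hθe φ (hc φ hφ)]

/-- module NZ -/
theorem hNZ (hA : StA) (hD : StD) (hXA : StXA) (hXB : StXB) (hXC : StXC) : StNZ := by
  intro n e v P N T hn hev hP hN zP zN hg φ hφ hs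
  obtain ⟨K, hK⟩ := exists_body hs
  have h1 := crit_b hA hD hXA hXB hXC hev (zdist_of_meas hD hP hN zP zN) (T := T)
    (fun K hK θ hθ => hg K hK θ hθ) K (by rw [hK]; exact hφ.smooth)
  rw [hK] at h1
  linarith

/-- nonnegative zonal measures generate admissible maps -/
lemma suff (hA : StA) (hD : StD) (hE : StE) (hF : StF) (hG : StG) (hXA : StXA) (hXB : StXB)
    (hXC : StXC) (hXD : StXD) (hXE : StXE) (hXK : StXK) (hXM : StXM) (hNF : StNF) {n : ℕ}
    (hn : 3 ≤ n) {e : E n} (he : ‖e‖ = 1) {P : Measure (sphere (0 : E n) 1)}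
    (hP : IsFiniteMeasure P) (zP : Zon e P) :
    ∃ T : ConvexBody (E n) → ConvexBody (E n), Admissible T ∧ Gen e P 0 T := by
  have zN : Zon e (0 : Measure (sphere (0 : E n) 1)) := by
    intro θ _ _ φ _
    simp
  obtain ⟨v, hv⟩ : ∃ v : E n, ON (e, v) := by
    have h1 : ∃ a : E n, a ≠ 0 ∧ (inner ℝ e a : ℝ) = 0 := by
      have hne : (ℝ ∙ e)ᗮ ≠ ⊥ := by
        intro h
        have h2 := Submodule.finrank_add_finrank_orthogonal (𝕜 := ℝ) (ℝ ∙ e)
        rw [h, finrank_bot] at h2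
        have h3 : Module.finrank ℝ (ℝ ∙ e) ≤ 1 := by
          have := finrank_span_le_card (R := ℝ) ({e} : Set (E n))
          simpa using this
        have h4 : Module.finrank ℝ (E n) = n := by simp
        omega
      obtain ⟨a, ha, ha0⟩ := Submodule.exists_mem_ne_zero_of_ne_bot hne
      exact ⟨a, ha0, Submodule.mem_orthogonal_singleton_iff_inner_right.1 ha⟩
    obtain ⟨a, ha0, ha⟩ := h1
    have ha' : 0 < ‖a‖ := norm_pos_iff.2 ha0
    refine ⟨‖a‖⁻¹ • a, he, ?_, ?_⟩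
    · show ‖‖a‖⁻¹ • a‖ = 1
      rw [norm_smul, norm_inv, norm_norm, inv_mul_cancel₀ ha'.ne']
    · show (inner ℝ e (‖a‖⁻¹ • a) : ℝ) = 0
      rw [inner_smul_right, ha, mul_zero]
  have hz := zdist_of_meas hD hP (inferInstance : IsFiniteMeasure (0 : Measure (sphere (0 : E n) 1))) zP zN
  obtain ⟨m, hm, h0, hc⟩ := crit_c hA hD hE hF hG hXA hXB hXC (by omega) hv hz (fun K hK => by
    have h1 := hNF n e v P hn hv hP zP (supp K) (S1_supp hK) (supp_sublinear K)
    have h2 : ∫ w : sphere (0 : E n) 1, Lop e v (supp K) (w : E n)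
      ∂(0 : Measure (sphere (0 : E n) 1)) = 0 := by simp
    show 0 ≤ ∫ w : sphere (0 : E n) 1, Lop e v (supp K) (w : E n) ∂P - _
    rw [h2]
    linarith)
  obtain ⟨T, hT, hg⟩ := crit_a hXD hXE hXK hXM hn hv hz hm h0 hc
  exact ⟨T, hT, fun K hK θ hθ => hg K hK θ hθ⟩

/-- the inequality for all Borel sets -/
lemma neg_part (hND : StND) (hNP : StNP) {n : ℕ} (hn : 3 ≤ n) {e : E n} (he : ‖e‖ = 1)
    {P N : Measure (sphere (0 : E n) 1)} (hP : IsFiniteMeasure P) (hN : IsFiniteMeasure N)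
    (zP : Zon e P) (zN : Zon e N) {T : ConvexBody (E n) → ConvexBody (E n)} (hg : Gen e P N T)
    (B : Set ℝ) (hB : MeasurableSet B) :
    N {w | (inner ℝ e (w : E n) : ℝ) ∈ B} ≤ P {w | (inner ℝ e (w : E n) : ℝ) ∈ B} +
      ENNReal.ofReal (((n : ℝ) - 1) * (P univ).toReal) *
        ∫⁻ t in B ∩ Ioo (-1 : ℝ) 1, ENNReal.ofReal (|t| / (1 - t ^ 2)) := by
  have hm : Measurable fun w : sphere (0 : E n) 1 => (inner ℝ e (w : E n) : ℝ) := by
    have : Continuous fun w : sphere (0 : E n) 1 => (inner ℝ e (w : E n) : ℝ) := by fun_prop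
    exact this.measurable
  have hle : ∀ w : sphere (0 : E n) 1, |(inner ℝ e (w : E n) : ℝ)| ≤ 1 := by
    intro w
    have h1 := abs_real_inner_le_norm e (w : E n)
    rw [he] at h1
    simpa using h1
  have h1 := hND n e P N T hn he hP hN zP zN hg (B ∩ Ioo (-1) 1) (hB.inter measurableSet_Ioo)
    inter_subset_right
  have hp : ∀ σ : ℝ, (σ = 1 ∨ σ = -1) →
      N {w | (inner ℝ e (w : E n) : ℝ) ∈ B ∩ {σ}} ≤ P {w | (inner ℝ e (w : E n) : ℝ) ∈ B ∩ {σ}} := by
    intro σ hσ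
    by_cases hσB : σ ∈ B
    · have e1 : B ∩ {σ} = {σ} := by
        ext t
        constructor
        · exact fun h => h.2
        · intro h
          rw [mem_singleton_iff] at h
          subst h
          exact ⟨hσB, rfl⟩
      rw [e1]
      exact hNP n e P N T hn he hP hN zP zN hg σ hσ
    · have e1 : B ∩ {σ} = ∅ := by
        ext t
        constructor
        · rintro ⟨h, h'⟩
          rw [mem_singleton_iff] at h'
          subst h'
          exact absurd h hσB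
        · intro h
          exact absurd h (by simp)
      rw [e1]
      simp
  have h2 := hp 1 (Or.inl rfl)
  have h3 := hp (-1) (Or.inr rfl)
  have hcov : B ∩ Icc (-1) 1 = (B ∩ Ioo (-1) 1) ∪ ((B ∩ {1}) ∪ (B ∩ {(-1 : ℝ)})) := by
    ext t
    constructor
    · rintro ⟨hb, h1, h2⟩
      rcases h1.lt_or_eq with h1 | h1
      · rcases h2.lt_or_eq with h2 | h2
        · exact Or.inl ⟨hb, h1, h2⟩
        · exact Or.inr (Or.inl ⟨hb, h2⟩)
      · exact Or.inr (Or.inr ⟨hb, h1.symm⟩)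
    · rintro (⟨hb, h1, h2⟩ | ⟨hb, h1⟩ | ⟨hb, h1⟩)
      · exact ⟨hb, h1.le, h2.le⟩
      · rw [mem_singleton_iff] at h1
        subst h1
        exact ⟨hb, by norm_num⟩
      · rw [mem_singleton_iff] at h1
        subst h1
        exact ⟨hb, by norm_num⟩
  have hset : {w : sphere (0 : E n) 1 | (inner ℝ e (w : E n) : ℝ) ∈ B} =
      {w : sphere (0 : E n) 1 | (inner ℝ e (w : E n) : ℝ) ∈ B ∩ Ioo (-1) 1} ∪
        ({w : sphere (0 : E n) 1 | (inner ℝ e (w : E n) : ℝ) ∈ B ∩ {1}} ∪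
          {w : sphere (0 : E n) 1 | (inner ℝ e (w : E n) : ℝ) ∈ B ∩ {(-1 : ℝ)}}) := by
    ext w
    have h4 := abs_le.1 (hle w)
    have h5 : (inner ℝ e (w : E n) : ℝ) ∈ B ↔ (inner ℝ e (w : E n) : ℝ) ∈ B ∩ Icc (-1) 1 :=
      ⟨fun h => ⟨h, h4⟩, fun h => h.1⟩
    show (inner ℝ e (w : E n) : ℝ) ∈ B ↔ _
    rw [h5, hcov]
    rfl
  have hd1 : Disjoint {w : sphere (0 : E n) 1 | (inner ℝ e (w : E n) : ℝ) ∈ B ∩ Ioo (-1) 1}
      ({w | (inner ℝ e (w : E n) : ℝ) ∈ B ∩ {1}} ∪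
          {w | (inner ℝ e (w : E n) : ℝ) ∈ B ∩ {(-1 : ℝ)}}) := by
    rw [Set.disjoint_left]
    rintro w ⟨-, h1, h2⟩ (⟨-, h3⟩ | ⟨-, h3⟩)
    · rw [mem_singleton_iff] at h3
      linarith
    · rw [mem_singleton_iff] at h3
      linarith
  have hd2 : Disjoint {w : sphere (0 : E n) 1 | (inner ℝ e (w : E n) : ℝ) ∈ B ∩ {1}}
      {w | (inner ℝ e (w : E n) : ℝ) ∈ B ∩ {(-1 : ℝ)}} := by
    rw [Set.disjoint_left]
    rintro w ⟨-, h1⟩ ⟨-, h3⟩
    rw [mem_singleton_iff] at h1 h3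
    linarith
  have hm1 : MeasurableSet {w : sphere (0 : E n) 1 | (inner ℝ e (w : E n) : ℝ) ∈ B ∩ {1}} :=
    hm (hB.inter (measurableSet_singleton _))
  have hm2 : MeasurableSet {w : sphere (0 : E n) 1 | (inner ℝ e (w : E n) : ℝ) ∈ B ∩ {(-1 : ℝ)}} :=
    hm (hB.inter (measurableSet_singleton _))
  rw [hset, measure_union hd1 (hm1.union hm2), measure_union hd2 hm2,
    measure_union hd1 (hm1.union hm2), measure_union hd2 hm2]
  calc N {w | (inner ℝ e (w : E n) : ℝ) ∈ B ∩ Ioo (-1) 1} +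
        (N {w | (inner ℝ e (w : E n) : ℝ) ∈ B ∩ {1}} +
          N {w | (inner ℝ e (w : E n) : ℝ) ∈ B ∩ {(-1 : ℝ)}})
      ≤ (P {w | (inner ℝ e (w : E n) : ℝ) ∈ B ∩ Ioo (-1) 1} +
          ENNReal.ofReal (((n : ℝ) - 1) * (P univ).toReal) *
            ∫⁻ t in B ∩ Ioo (-1 : ℝ) 1, ENNReal.ofReal (|t| / (1 - t ^ 2))) +
        (P {w | (inner ℝ e (w : E n) : ℝ) ∈ B ∩ {1}} +
          P {w | (inner ℝ e (w : E n) : ℝ) ∈ B ∩ {(-1 : ℝ)}}) :=
        add_le_add h1 (add_le_add h2 h3)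
    _ = _ := by
        rw [add_right_comm]

/-- the criterion for singular measures -/
lemma sing (hND : StND) (hNP : StNP) {n : ℕ} (hn : 3 ≤ n) {e : E n} (he : ‖e‖ = 1)
    {P N : Measure (sphere (0 : E n) 1)} (hP : IsFiniteMeasure P) (hN : IsFiniteMeasure N)
    (zP : Zon e P) (zN : Zon e N) {T : ConvexBody (E n) → ConvexBody (E n)} (hg : Gen e P N T)
    (h1 : (N.map fun w : sphere (0 : E n) 1 => (inner ℝ e (w : E n) : ℝ)) ⟂ₘ volume)
    (h2 : (P.map fun w : sphere (0 : E n) 1 => (inner ℝ e (w : E n) : ℝ)) ⟂ₘ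
      (N.map fun w : sphere (0 : E n) 1 => (inner ℝ e (w : E n) : ℝ))) :
    N = 0 := by
  have hm : Measurable fun w : sphere (0 : E n) 1 => (inner ℝ e (w : E n) : ℝ) := by
    have : Continuous fun w : sphere (0 : E n) 1 => (inner ℝ e (w : E n) : ℝ) := by fun_prop
    exact this.measurable
  obtain ⟨A, hA, hA1, hA2⟩ := h1
  obtain ⟨B, hB, hB1, hB2⟩ := h2
  -- `N.map A = 0`, `volume Aᶜ = 0`, `P.map B = 0`, `N.map Bᶜ = 0`
  have h3 := neg_part hND hNP hn he hP hN zP zN hg (Aᶜ ∩ B) (hA.compl.inter hB)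
  have h4 : P {w | (inner ℝ e (w : E n) : ℝ) ∈ Aᶜ ∩ B} = 0 := by
    rw [Measure.map_apply hm hB] at hB1
    exact measure_mono_null (fun w hw => hw.2) hB1
  have h5 : ∫⁻ t in (Aᶜ ∩ B) ∩ Ioo (-1 : ℝ) 1, ENNReal.ofReal (|t| / (1 - t ^ 2)) = 0 := by
    apply setLIntegral_measure_zero
    exact measure_mono_null (fun t ht => ht.1.1) hA2
  rw [h4, h5, mul_zero, add_zero] at h3
  have h6 : N {w | (inner ℝ e (w : E n) : ℝ) ∈ Aᶜ ∩ B} = 0 := le_antisymm h3 bot_le
  rw [Measure.map_apply hm hA] at hA1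
  rw [Measure.map_apply hm hB.compl] at hB2
  rw [← Measure.measure_univ_eq_zero]
  refine measure_mono_null (fun w _ => ?_) (measure_union_null (measure_union_null hA1 hB2) h6)
  by_cases ha : (inner ℝ e (w : E n) : ℝ) ∈ A
  · exact Or.inl (Or.inl ha)
  · by_cases hb : (inner ℝ e (w : E n) : ℝ) ∈ B
    · exact Or.inr ⟨ha, hb⟩
    · exact Or.inl (Or.inr hb)

end Pool.Agent.Helper62.PM
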