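import Pool.Agent.Helper62.PM.St5
import Pool.Agent.Helper62.PM.Fin4

/-!
# Project PM: assembly of the theorem on the poles
-/

set_option autoImplicit false

open MeasureTheory Metric Set Filter Topology
open scoped RealInnerProductSpace ContDiff

namespace Pool.Agent.Helper62.PM

open Pool.Agent.Helper62.Mink

lemma exists_v {n : ℕ} (hn : 2 ≤ n) {e : E n} (he : ‖e‖ = 1) : ∃ v : E n, ON (e, v) := by
  have h1 : ∃ a : E n, a ≠ 0 ∧ (inner ℝ e a : ℝ) = 0 := by
    have hne : (ℝ ∙ e)ᗮ ≠ ⊥ := by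
      intro h
      have h2 := Submodule.finrank_add_finrank_orthogonal (𝕜 := ℝ) (ℝ ∙ e)
      rw [h, finrank_bot] at h2
      have h3 : Module.finrank ℝ (ℝ ∙ e) ≤ 1 := by
        have := finrank_span_le_card (R := ℝ) ({e} : Set (E n))
        simpa using this
      have h4 : Module.finrank ℝ (E n) = n := by simp
      omega
    obtain ⟨a, ha, ha0⟩ := Submodule.exists_mem_ne_zero_of_ne_bot hne
    exact ⟨a, ha0, Submodule.mem_orthogonal_singleton_iff_inner_right.1 ha⟩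
  obtain ⟨a, ha0, ha⟩ := h1
  have ha' : 0 < ‖a‖ := norm_pos_iff.2 ha0
  refine ⟨‖a‖⁻¹ • a, he, ?_, ?_⟩
  · show ‖‖a‖⁻¹ • a‖ = 1
    rw [norm_smul, norm_inv, norm_norm, inv_mul_cancel₀ ha'.ne']
  · show (inner ℝ e (‖a‖⁻¹ • a) : ℝ) = 0
    rw [inner_smul_right, ha, mul_zero]

/-- the inequalities are sufficient -/
lemma gen_of_ineq (hA : StA) (hD : StD) (hE : StE) (hF : StF) (hG : StG) (hXA : StXA) (hXB : StXB)
    (hXC : StXC) (hXD : StXD) (hXE : StXE) (hXK : StXK) (hXM : StXM) {n : ℕ}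
    (hn : 3 ≤ n) {e v : E n} (hv : ON (e, v)) {P N : Measure (sphere (0 : E n) 1)}
    (hP : IsFiniteMeasure P) (hN : IsFiniteMeasure N) (zP : Zon e P) (zN : Zon e N)
    (hi : ∀ φ : E n → ℝ, S1 φ → Sublinear φ →
      ∫ w : sphere (0 : E n) 1, Lop e v φ (w : E n) ∂N ≤
        ∫ w : sphere (0 : E n) 1, Lop e v φ (w : E n) ∂P) :
    ∃ T : ConvexBody (E n) → ConvexBody (E n), Admissible T ∧ Gen e P N T := by
  have hz := zdist_of_meas hD hP hN zP zN
  obtain ⟨m, hm, h0, hc⟩ := crit_c hA hD hE hF hG hXA hXB hXC (by omega) hv hz (fun K hK => by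
    have h1 := hi (supp K) (S1_supp hK) (supp_sublinear K)
    show 0 ≤ ∫ w : sphere (0 : E n) 1, Lop e v (supp K) (w : E n) ∂P -
      ∫ w : sphere (0 : E n) 1, Lop e v (supp K) (w : E n) ∂N
    linarith)
  obtain ⟨T, hT, hg⟩ := crit_a hXD hXE hXK hXM hn hv hz hm h0 hc
  exact ⟨T, hT, fun K hK θ hθ => hg K hK θ hθ⟩

/-- integral over the complement of a point -/
lemma int_off {n : ℕ} {P : Measure (sphere (0 : E n) 1)} (hP : IsFiniteMeasure P)
    (s : sphere (0 : E n) 1) {φ : E n → ℝ} (hφ : Continuous φ) :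
    ∫ w : sphere (0 : E n) 1 in {w | (w : E n) ≠ (s : E n)}, φ (w : E n) ∂P =
      ∫ w : sphere (0 : E n) 1, φ (w : E n) ∂P - (P {s}).toReal * φ (s : E n) := by
  have h1 : {w : sphere (0 : E n) 1 | (w : E n) ≠ (s : E n)} = {s}ᶜ := by
    ext w
    simp [Subtype.ext_iff]
  rw [h1]
  have h2 := integral_add_compl (μ := P) (measurableSet_singleton s) (integrable_sph hP hφ)
  have h3 : ∫ w : sphere (0 : E n) 1 in {s}, φ (w : E n) ∂P = (P {s}).toReal * φ (s : E n) := by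
    rw [Measure.restrict_singleton, integral_smul_measure, integral_dirac, smul_eq_mul]
  rw [h3] at h2
  linarith

lemma zon_off {n : ℕ} {e : E n} {P : Measure (sphere (0 : E n) 1)} (hP : IsFiniteMeasure P)
    (zP : Zon e P) (s : sphere (0 : E n) 1) {σ : ℝ} (hs : (s : E n) = σ • e) :
    Zon e (P.restrict {w | (w : E n) ≠ (s : E n)}) := by
  intro θ hθ hθe φ hφ
  have h1 := int_off hP s (φ := fun z => φ (θ z)) (hφ.comp θ.continuous)
  have h2 := int_off hP s hφ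
  have h3 : θ (s : E n) = (s : E n) := by
    rw [hs, map_smul, hθe]
  rw [h1, h2, zP θ hθ hθe φ hφ, h3]

/-- the restriction to the complement of the poles is zonal -/
lemma zon_poles {n : ℕ} {e : E n} (he : ‖e‖ = 1) {P : Measure (sphere (0 : E n) 1)}
    (hP : IsFiniteMeasure P) (zP : Zon e P) :
    Zon e (P.restrict {w | (w : E n) ≠ e ∧ (w : E n) ≠ -e}) := by
  have m₁ : e ∈ sphere (0 : E n) 1 := by simp [he]
  have m₂ : -e ∈ sphere (0 : E n) 1 := by simp [he]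
  have h1 := zon_off hP zP ⟨e, m₁⟩ (σ := 1) (one_smul ℝ e).symm
  have hP1 : IsFiniteMeasure (P.restrict {w : sphere (0 : E n) 1 | (w : E n) ≠ e}) := inferInstance
  have h2 := zon_off hP1 h1 ⟨-e, m₂⟩ (σ := -1) (neg_one_smul ℝ e).symm
  have hm : MeasurableSet {w : sphere (0 : E n) 1 | (w : E n) ≠ -e} := by
    have h3 : {w : sphere (0 : E n) 1 | (w : E n) ≠ -e} = {(⟨-e, m₂⟩ : sphere (0 : E n) 1)}ᶜ := by
      ext w
      simp [Subtype.ext_iff]
    rw [h3]
    exact (measurableSet_singleton _).compl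
  have h4 : P.restrict {w : sphere (0 : E n) 1 | (w : E n) ≠ e ∧ (w : E n) ≠ -e} =
      (P.restrict {w : sphere (0 : E n) 1 | (w : E n) ≠ e}).restrict
        {w : sphere (0 : E n) 1 | (w : E n) ≠ -e} := by
    rw [Measure.restrict_restrict hm]
    congr 1
    ext w
    exact and_comm
  rw [h4]
  exact h2

/-- **the poles split off** -/
lemma poles (hA : StA) (hD : StD) (hE : StE) (hF : StF) (hG : StG) (hXA : StXA) (hXB : StXB)
    (hXC : StXC) (hXD : StXD) (hXE : StXE) (hXK : StXK) (hXM : StXM) (hNZ : StNZ) (hNP : StNP)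
    (hPE : StPE) (hPF : StPF) {n : ℕ}
    (hn : 3 ≤ n) {e : E n} (he : ‖e‖ = 1) {P N : Measure (sphere (0 : E n) 1)}
    (hP : IsFiniteMeasure P) (hN : IsFiniteMeasure N) (zP : Zon e P) (zN : Zon e N)
    {T : ConvexBody (E n) → ConvexBody (E n)} (hT : Admissible T) (hg : Gen e P N T)
    (s₁ s₂ : sphere (0 : E n) 1) (h₁ : (s₁ : E n) = e) (h₂ : (s₂ : E n) = -e) :
    ∃ T' : ConvexBody (E n) → ConvexBody (E n), Admissible T' ∧
      Gen e (P.restrict {w | (w : E n) ≠ e ∧ (w : E n) ≠ -e})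
        (N.restrict {w | (w : E n) ≠ e ∧ (w : E n) ≠ -e}) T' ∧
      (N {s₁}).toReal ≤ (P {s₁}).toReal ∧ (N {s₂}).toReal ≤ (P {s₂}).toReal ∧
      ∀ (K : ConvexBody (E n)) (x : E n), supp (T K) x =
        ((P {s₁}).toReal - (N {s₁}).toReal) * supp K x +
          ((P {s₂}).toReal - (N {s₂}).toReal) * supp K (-x) + supp (T' K) x := by
  obtain ⟨v, hv⟩ := exists_v (by omega) he
  have e₁ : (s₁ : E n) = (1 : ℝ) • e := by rw [h₁, one_smul]
  have e₂ : (s₂ : E n) = (-1 : ℝ) • e := by rw [h₂, neg_one_smul]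
  have hne : s₂ ≠ s₁ := by
    intro h
    have h3 : (s₂ : E n) = (s₁ : E n) := by rw [h]
    rw [h₁, h₂] at h3
    have h4 : e = 0 := by
      have h5 : (2 : ℝ) • e = 0 := by
        rw [two_smul]
        nth_rewrite 1 [← h3]
        exact neg_add_cancel e
      exact (smul_eq_zero.1 h5).resolve_left (by norm_num)
    rw [h4, norm_zero] at he
    exact zero_ne_one he
  -- the iterated inequality
  have i0 := hNZ n e v P N T hn hv hP hN zP zN hg
  have i1 := hPE n e v P N hv hP hN i0 1 (Or.inl rfl)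
  rw [← e₁] at i1
  have hP1 : IsFiniteMeasure (P.restrict {w | (w : E n) ≠ (s₁ : E n)}) := inferInstance
  have hN1 : IsFiniteMeasure (N.restrict {w | (w : E n) ≠ (s₁ : E n)}) := inferInstance
  have i2 := hPE n e v _ _ hv hP1 hN1 i1 (-1) (Or.inr rfl)
  rw [← e₂] at i2
  have zP1 := zon_off hP zP s₁ e₁
  have zN1 := zon_off hN zN s₁ e₁
  have zP2 := zon_off hP1 zP1 s₂ e₂
  have zN2 := zon_off hN1 zN1 s₂ e₂
  have hms : ∀ s : sphere (0 : E n) 1, MeasurableSet {w : sphere (0 : E n) 1 | (w : E n) ≠ (s : E n)} := by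
    intro s
    have h1 : {w : sphere (0 : E n) 1 | (w : E n) ≠ (s : E n)} = {s}ᶜ := by
      ext w
      simp [Subtype.ext_iff]
    rw [h1]
    exact (measurableSet_singleton s).compl
  have hset : ({w : sphere (0 : E n) 1 | (w : E n) ≠ (s₂ : E n)} ∩
      {w : sphere (0 : E n) 1 | (w : E n) ≠ (s₁ : E n)} : Set (sphere (0 : E n) 1)) =
      {w : sphere (0 : E n) 1 | (w : E n) ≠ e ∧ (w : E n) ≠ -e} := by
    ext w
    rw [h₁, h₂]
    exact and_comm
  obtain ⟨T', hT', hg'⟩ := gen_of_ineq hA hD hE hF hG hXA hXB hXC hXD hXE hXK hXM hn hv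
    (P := (P.restrict {w | (w : E n) ≠ (s₁ : E n)}).restrict {w | (w : E n) ≠ (s₂ : E n)})
    (N := (N.restrict {w | (w : E n) ≠ (s₁ : E n)}).restrict {w | (w : E n) ≠ (s₂ : E n)})
    inferInstance inferInstance zP2 zN2 i2
  have hatom : ∀ Q : Measure (sphere (0 : E n) 1), IsFiniteMeasure Q → ∀ φ : E n → ℝ, Continuous φ →
      ∫ w : sphere (0 : E n) 1, φ (w : E n)
        ∂((Q.restrict {w | (w : E n) ≠ (s₁ : E n)}).restrict {w | (w : E n) ≠ (s₂ : E n)}) =
      ∫ w : sphere (0 : E n) 1, φ (w : E n) ∂Q - (Q {s₁}).toReal * φ (s₁ : E n) -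
        (Q {s₂}).toReal * φ (s₂ : E n) := by
    intro Q hQ φ hφ
    have hQ1 : IsFiniteMeasure (Q.restrict {w | (w : E n) ≠ (s₁ : E n)}) := inferInstance
    have h1 := int_off hQ s₁ hφ
    have h2 := int_off hQ1 s₂ hφ
    have h3 : (Q.restrict {w | (w : E n) ≠ (s₁ : E n)}) {s₂} = Q {s₂} := by
      rw [Measure.restrict_apply (measurableSet_singleton s₂)]
      congr 1
      ext w
      constructor
      · exact fun h => h.1
      · intro h
        refine ⟨h, ?_⟩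
        rw [mem_singleton_iff] at h
        rw [h]
        show (s₂ : E n) ≠ (s₁ : E n)
        exact fun h' => hne (Subtype.ext h')
    rw [h3, h1] at h2
    exact h2
  have hle : ∀ (s : sphere (0 : E n) 1) (σ : ℝ), (σ = 1 ∨ σ = -1) → (s : E n) = σ • e →
      (N {s}).toReal ≤ (P {s}).toReal := by
    intro s σ hσ hs
    have h1 := hNP n e P N T hn he hP hN zP zN hg σ hσ
    have h2 : {w : sphere (0 : E n) 1 | (inner ℝ e (w : E n) : ℝ) = σ} = {s} := by
      ext w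
      constructor
      · intro hw
        have hw' : (inner ℝ e (w : E n) : ℝ) = σ := hw
        rw [mem_singleton_iff]
        apply Subtype.ext
        rw [hs]
        have hnw : ‖(w : E n)‖ = 1 := by simp
        have h3 : ‖(w : E n) - σ • e‖ ^ 2 = 0 := by
          rw [norm_sub_sq_real, norm_smul, he, inner_smul_right, real_inner_comm, hw', hnw]
          rcases hσ with rfl | rfl <;> norm_num
        have h4 : (w : E n) - σ • e = 0 := by
          have := pow_eq_zero_iff (two_ne_zero) |>.1 h3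
          exact norm_eq_zero.1 this
        exact sub_eq_zero.1 h4
      · intro hw
        rw [mem_singleton_iff] at hw
        rw [hw]
        show (inner ℝ e (s : E n) : ℝ) = σ
        rw [hs, inner_smul_right, real_inner_self_eq_norm_sq, he]
        norm_num
    rw [h2] at h1
    exact ENNReal.toReal_mono (measure_ne_top P _) h1
  refine ⟨T', hT', ?_, hle s₁ 1 (Or.inl rfl) e₁, hle s₂ (-1) (Or.inr rfl) e₂, ?_⟩
  · intro K hK θ hθ
    have h1 := hg' K hK θ hθ
    rw [Measure.restrict_restrict (hms s₂), Measure.restrict_restrict (hms s₂), hset] at h1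
    exact h1
  · refine hPF n e T T' _ _ (by omega) he hT hT' ?_
    intro K hK θ hθ
    have hc : Continuous fun z : E n => supp K (θ z) := ((hD n).2.2.2.2 (supp K) (S1_supp hK)).1.comp θ.continuous
    have h1 := hg K hK θ hθ
    have h2 := hg' K hK θ hθ
    rw [hatom P hP _ hc, hatom N hN _ hc] at h2
    have h3 : θ (s₁ : E n) = θ e := by rw [h₁]
    have h4 : θ (s₂ : E n) = -(θ e) := by rw [h₂, map_neg]
    rw [h3, h4] at h2
    rw [h1, h2]
    ring

/-- from the Borel subsets of `(-1,1)` to all Borel sets -/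
lemma neg_part_gen (hNP : StNP) {n : ℕ} (hn : 3 ≤ n) {e : E n} (he : ‖e‖ = 1)
    {P N : Measure (sphere (0 : E n) 1)} (hP : IsFiniteMeasure P) (hN : IsFiniteMeasure N)
    (zP : Zon e P) (zN : Zon e N) {T : ConvexBody (E n) → ConvexBody (E n)} (hg : Gen e P N T)
    (B : Set ℝ) (hB : MeasurableSet B) (C : ENNReal)
    (h1 : N {w | (inner ℝ e (w : E n) : ℝ) ∈ B ∩ Ioo (-1) 1} ≤
      P {w | (inner ℝ e (w : E n) : ℝ) ∈ B ∩ Ioo (-1) 1} +
        C * ∫⁻ t in B ∩ Ioo (-1 : ℝ) 1, ENNReal.ofReal (|t| / (1 - t ^ 2))) :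
    N {w | (inner ℝ e (w : E n) : ℝ) ∈ B} ≤ P {w | (inner ℝ e (w : E n) : ℝ) ∈ B} +
      C *
        ∫⁻ t in B ∩ Ioo (-1 : ℝ) 1, ENNReal.ofReal (|t| / (1 - t ^ 2)) := by
  have hm : Measurable fun w : sphere (0 : E n) 1 => (inner ℝ e (w : E n) : ℝ) := by
    have : Continuous fun w : sphere (0 : E n) 1 => (inner ℝ e (w : E n) : ℝ) := by fun_prop
    exact this.measurable
  have hle : ∀ w : sphere (0 : E n) 1, |(inner ℝ e (w : E n) : ℝ)| ≤ 1 := by
    intro w
    have h1 := abs_real_inner_le_norm e (w : E n)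
    rw [he] at h1
    simpa using h1
  have hp : ∀ σ : ℝ, (σ = 1 ∨ σ = -1) →
      N {w | (inner ℝ e (w : E n) : ℝ) ∈ B ∩ {σ}} ≤ P {w | (inner ℝ e (w : E n) : ℝ) ∈ B ∩ {σ}} := by
    intro σ hσ
    by_cases hσB : σ ∈ B
    · have e1 : B ∩ {σ} = {σ} := by
        ext t
        constructor
        · exact fun h => h.2
        · intro h
          rw [mem_singleton_iff] at h
          subst h
          exact ⟨hσB, rfl⟩
      rw [e1]
      exact hNP n e P N T hn he hP hN zP zN hg σ hσ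
    · have e1 : B ∩ {σ} = ∅ := by
        ext t
        constructor
        · rintro ⟨h, h'⟩
          rw [mem_singleton_iff] at h'
          subst h'
          exact absurd h hσB
        · intro h
          exact absurd h (by simp)
      rw [e1]
      simp
  have h2 := hp 1 (Or.inl rfl)
  have h3 := hp (-1) (Or.inr rfl)
  have hcov : B ∩ Icc (-1) 1 = (B ∩ Ioo (-1) 1) ∪ ((B ∩ {1}) ∪ (B ∩ {(-1 : ℝ)})) := by
    ext t
    constructor
    · rintro ⟨hb, h1, h2⟩
      rcases h1.lt_or_eq with h1 | h1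
      · rcases h2.lt_or_eq with h2 | h2
        · exact Or.inl ⟨hb, h1, h2⟩
        · exact Or.inr (Or.inl ⟨hb, h2⟩)
      · exact Or.inr (Or.inr ⟨hb, h1.symm⟩)
    · rintro (⟨hb, h1, h2⟩ | ⟨hb, h1⟩ | ⟨hb, h1⟩)
      · exact ⟨hb, h1.le, h2.le⟩
      · rw [mem_singleton_iff] at h1
        subst h1
        exact ⟨hb, by norm_num⟩
      · rw [mem_singleton_iff] at h1
        subst h1
        exact ⟨hb, by norm_num⟩
  have hset : {w : sphere (0 : E n) 1 | (inner ℝ e (w : E n) : ℝ) ∈ B} =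
      {w : sphere (0 : E n) 1 | (inner ℝ e (w : E n) : ℝ) ∈ B ∩ Ioo (-1) 1} ∪
        ({w : sphere (0 : E n) 1 | (inner ℝ e (w : E n) : ℝ) ∈ B ∩ {1}} ∪
          {w : sphere (0 : E n) 1 | (inner ℝ e (w : E n) : ℝ) ∈ B ∩ {(-1 : ℝ)}}) := by
    ext w
    have h4 := abs_le.1 (hle w)
    have h5 : (inner ℝ e (w : E n) : ℝ) ∈ B ↔ (inner ℝ e (w : E n) : ℝ) ∈ B ∩ Icc (-1) 1 :=
      ⟨fun h => ⟨h, h4⟩, fun h => h.1⟩
    show (inner ℝ e (w : E n) : ℝ) ∈ B ↔ _
    rw [h5, hcov]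
    rfl
  have hd1 : Disjoint {w : sphere (0 : E n) 1 | (inner ℝ e (w : E n) : ℝ) ∈ B ∩ Ioo (-1) 1}
      ({w | (inner ℝ e (w : E n) : ℝ) ∈ B ∩ {1}} ∪
          {w | (inner ℝ e (w : E n) : ℝ) ∈ B ∩ {(-1 : ℝ)}}) := by
    rw [Set.disjoint_left]
    rintro w ⟨-, h1, h2⟩ (⟨-, h3⟩ | ⟨-, h3⟩)
    · rw [mem_singleton_iff] at h3
      linarith
    · rw [mem_singleton_iff] at h3
      linarith
  have hd2 : Disjoint {w : sphere (0 : E n) 1 | (inner ℝ e (w : E n) : ℝ) ∈ B ∩ {1}}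
      {w | (inner ℝ e (w : E n) : ℝ) ∈ B ∩ {(-1 : ℝ)}} := by
    rw [Set.disjoint_left]
    rintro w ⟨-, h1⟩ ⟨-, h3⟩
    rw [mem_singleton_iff] at h1 h3
    linarith
  have hm1 : MeasurableSet {w : sphere (0 : E n) 1 | (inner ℝ e (w : E n) : ℝ) ∈ B ∩ {1}} :=
    hm (hB.inter (measurableSet_singleton _))
  have hm2 : MeasurableSet {w : sphere (0 : E n) 1 | (inner ℝ e (w : E n) : ℝ) ∈ B ∩ {(-1 : ℝ)}} :=
    hm (hB.inter (measurableSet_singleton _))
  rw [hset, measure_union hd1 (hm1.union hm2), measure_union hd2 hm2,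
    measure_union hd1 (hm1.union hm2), measure_union hd2 hm2]
  calc N {w | (inner ℝ e (w : E n) : ℝ) ∈ B ∩ Ioo (-1) 1} +
        (N {w | (inner ℝ e (w : E n) : ℝ) ∈ B ∩ {1}} +
          N {w | (inner ℝ e (w : E n) : ℝ) ∈ B ∩ {(-1 : ℝ)}})
      ≤ (P {w | (inner ℝ e (w : E n) : ℝ) ∈ B ∩ Ioo (-1) 1} +
          C *
            ∫⁻ t in B ∩ Ioo (-1 : ℝ) 1, ENNReal.ofReal (|t| / (1 - t ^ 2))) +
        (P {w | (inner ℝ e (w : E n) : ℝ) ∈ B ∩ {1}} +
          P {w | (inner ℝ e (w : E n) : ℝ) ∈ B ∩ {(-1 : ℝ)}}) :=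
        add_le_add h1 (add_le_add h2 h3)
    _ = _ := by
        rw [add_right_comm]

/-- the inequality with the mass of `P` off the poles -/
lemma neg_part_off (hND : StND) (hNP : StNP) {n : ℕ} (hn : 3 ≤ n) {e : E n} (he : ‖e‖ = 1)
    {P N : Measure (sphere (0 : E n) 1)} (hP : IsFiniteMeasure P) (hN : IsFiniteMeasure N)
    (zP : Zon e P) (zN : Zon e N) {T T' : ConvexBody (E n) → ConvexBody (E n)} (hg : Gen e P N T)
    (zP' : Zon e (P.restrict {w | (w : E n) ≠ e ∧ (w : E n) ≠ -e}))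
    (zN' : Zon e (N.restrict {w | (w : E n) ≠ e ∧ (w : E n) ≠ -e}))
    (hg' : Gen e (P.restrict {w | (w : E n) ≠ e ∧ (w : E n) ≠ -e})
        (N.restrict {w | (w : E n) ≠ e ∧ (w : E n) ≠ -e}) T')
    (B : Set ℝ) (hB : MeasurableSet B) :
    N {w | (inner ℝ e (w : E n) : ℝ) ∈ B} ≤ P {w | (inner ℝ e (w : E n) : ℝ) ∈ B} +
      ENNReal.ofReal (((n : ℝ) - 1) * (P {w | (w : E n) ≠ e ∧ (w : E n) ≠ -e}).toReal) *
        ∫⁻ t in B ∩ Ioo (-1 : ℝ) 1, ENNReal.ofReal (|t| / (1 - t ^ 2)) := by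
  have hm : Measurable fun w : sphere (0 : E n) 1 => (inner ℝ e (w : E n) : ℝ) := by
    have : Continuous fun w : sphere (0 : E n) 1 => (inner ℝ e (w : E n) : ℝ) := by fun_prop
    exact this.measurable
  refine neg_part_gen hNP hn he hP hN zP zN hg B hB _ ?_
  have h1 := hND n e _ _ T' hn he inferInstance inferInstance zP' zN' hg' (B ∩ Ioo (-1) 1)
    (hB.inter measurableSet_Ioo) inter_subset_right
  have hsub : ∀ w : sphere (0 : E n) 1, (inner ℝ e (w : E n) : ℝ) ∈ B ∩ Ioo (-1 : ℝ) 1 →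
      ((w : E n) ≠ e ∧ (w : E n) ≠ -e) := by
    rintro w ⟨-, h2, h3⟩
    constructor
    · intro h
      rw [h, real_inner_self_eq_norm_sq, he] at h3
      norm_num at h3
    · intro h
      rw [h, inner_neg_right, real_inner_self_eq_norm_sq, he] at h2
      norm_num at h2
  have hR : ∀ Q : Measure (sphere (0 : E n) 1),
      (Q.restrict {w | (w : E n) ≠ e ∧ (w : E n) ≠ -e})
        {w | (inner ℝ e (w : E n) : ℝ) ∈ B ∩ Ioo (-1 : ℝ) 1} =
      Q {w | (inner ℝ e (w : E n) : ℝ) ∈ B ∩ Ioo (-1 : ℝ) 1} := by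
    intro Q
    rw [Measure.restrict_apply (show MeasurableSet {w : sphere (0 : E n) 1 |
      (inner ℝ e (w : E n) : ℝ) ∈ B ∩ Ioo (-1 : ℝ) 1} from hm (hB.inter measurableSet_Ioo))]
    congr 1
    ext w
    exact ⟨fun h => h.1, fun h => ⟨h, hsub w h⟩⟩
  rw [hR P, hR N, Measure.restrict_apply_univ] at h1
  exact h1

/-- the converse -/
lemma poles_conv (hA : StA) (hD : StD) (hE : StE) (hF : StF) (hG : StG) (hXA : StXA) (hXB : StXB)
    (hXC : StXC) (hXD : StXD) (hXE : StXE) (hXK : StXK) (hXM : StXM) (hNZ : StNZ) (hNF : StNF)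
    {n : ℕ} (hn : 3 ≤ n) {e : E n} (he : ‖e‖ = 1) {P N : Measure (sphere (0 : E n) 1)}
    (hP : IsFiniteMeasure P) (hN : IsFiniteMeasure N) (zP : Zon e P) (zN : Zon e N)
    (s₁ s₂ : sphere (0 : E n) 1) (h₁ : (s₁ : E n) = e) (h₂ : (s₂ : E n) = -e)
    (a₁ : (N {s₁}).toReal ≤ (P {s₁}).toReal) (a₂ : (N {s₂}).toReal ≤ (P {s₂}).toReal)
    {T' : ConvexBody (E n) → ConvexBody (E n)}
    (hg' : Gen e (P.restrict {w | (w : E n) ≠ e ∧ (w : E n) ≠ -e})
        (N.restrict {w | (w : E n) ≠ e ∧ (w : E n) ≠ -e}) T') :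
    ∃ T : ConvexBody (E n) → ConvexBody (E n), Admissible T ∧ Gen e P N T := by
  obtain ⟨v, hv⟩ := exists_v (by omega) he
  have e₁ : (s₁ : E n) = (1 : ℝ) • e := by rw [h₁, one_smul]
  have e₂ : (s₂ : E n) = (-1 : ℝ) • e := by rw [h₂, neg_one_smul]
  have hne : s₂ ≠ s₁ := by
    intro h
    have h3 : (s₂ : E n) = (s₁ : E n) := by rw [h]
    rw [h₁, h₂] at h3
    have h4 : e = 0 := by
      have h5 : (2 : ℝ) • e = 0 := by
        rw [two_smul]
        nth_rewrite 1 [← h3]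
        exact neg_add_cancel e
      exact (smul_eq_zero.1 h5).resolve_left (by norm_num)
    rw [h4, norm_zero] at he
    exact zero_ne_one he
  have hms : ∀ s : sphere (0 : E n) 1, MeasurableSet {w : sphere (0 : E n) 1 | (w : E n) ≠ (s : E n)} := by
    intro s
    have h1 : {w : sphere (0 : E n) 1 | (w : E n) ≠ (s : E n)} = {s}ᶜ := by
      ext w
      simp [Subtype.ext_iff]
    rw [h1]
    exact (measurableSet_singleton s).compl
  have hset : ({w : sphere (0 : E n) 1 | (w : E n) ≠ (s₂ : E n)} ∩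
      {w : sphere (0 : E n) 1 | (w : E n) ≠ (s₁ : E n)} : Set (sphere (0 : E n) 1)) =
      {w : sphere (0 : E n) 1 | (w : E n) ≠ e ∧ (w : E n) ≠ -e} := by
    ext w
    rw [h₁, h₂]
    exact and_comm
  have hres : ∀ Q : Measure (sphere (0 : E n) 1),
      Q.restrict {w | (w : E n) ≠ e ∧ (w : E n) ≠ -e} =
        (Q.restrict {w | (w : E n) ≠ (s₁ : E n)}).restrict {w | (w : E n) ≠ (s₂ : E n)} := by
    intro Q
    rw [Measure.restrict_restrict (hms s₂), hset]
  have hatom : ∀ Q : Measure (sphere (0 : E n) 1), IsFiniteMeasure Q → ∀ φ : E n → ℝ, Continuous φ →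
      ∫ w : sphere (0 : E n) 1 in {w | (w : E n) ≠ e ∧ (w : E n) ≠ -e}, φ (w : E n) ∂Q =
      ∫ w : sphere (0 : E n) 1, φ (w : E n) ∂Q - (Q {s₁}).toReal * φ (s₁ : E n) -
        (Q {s₂}).toReal * φ (s₂ : E n) := by
    intro Q hQ φ hφ
    rw [hres Q]
    have hQ1 : IsFiniteMeasure (Q.restrict {w | (w : E n) ≠ (s₁ : E n)}) := inferInstance
    have h1 := int_off hQ s₁ hφ
    have h2 := int_off hQ1 s₂ hφ
    have h3 : (Q.restrict {w | (w : E n) ≠ (s₁ : E n)}) {s₂} = Q {s₂} := by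
      rw [Measure.restrict_apply (measurableSet_singleton s₂)]
      congr 1
      ext w
      constructor
      · exact fun h => h.1
      · intro h
        refine ⟨h, ?_⟩
        rw [mem_singleton_iff] at h
        rw [h]
        show (s₂ : E n) ≠ (s₁ : E n)
        exact fun h' => hne (Subtype.ext h')
    rw [h3, h1] at h2
    exact h2
  have z2 : ∀ Q : Measure (sphere (0 : E n) 1), IsFiniteMeasure Q → Zon e Q →
      Zon e (Q.restrict {w | (w : E n) ≠ e ∧ (w : E n) ≠ -e}) := by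
    intro Q hQ zQ
    rw [hres Q]
    have hQ1 : IsFiniteMeasure (Q.restrict {w | (w : E n) ≠ (s₁ : E n)}) := inferInstance
    exact zon_off hQ1 (zon_off hQ zQ s₁ e₁) s₂ e₂
  -- `L φ ≥ 0` at the poles
  have hpole : ∀ (s : sphere (0 : E n) 1) (σ : ℝ), (s : E n) = σ • e → ∀ φ : E n → ℝ, S1 φ →
      Sublinear φ → 0 ≤ Lop e v φ (s : E n) := by
    intro s σ hs φ hφ hφs
    have zd : Zon e (Measure.dirac s) := by
      intro θ hθ hθe ψ hψ
      rw [integral_dirac, integral_dirac, hs, map_smul, hθe]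
    have h1 := hNF n e v (Measure.dirac s) hn hv inferInstance zd φ hφ hφs
    rwa [integral_dirac] at h1
  refine gen_of_ineq hA hD hE hF hG hXA hXB hXC hXD hXE hXK hXM hn hv hP hN zP zN ?_
  intro φ hφ hφs
  have h0 := hNZ n e v _ _ T' hn hv inferInstance inferInstance (z2 P hP zP) (z2 N hN zN) hg' φ hφ hφs
  have hLc : ∀ Q : Measure (sphere (0 : E n) 1), IsFiniteMeasure Q →
      ∫ w : sphere (0 : E n) 1 in {w | (w : E n) ≠ e ∧ (w : E n) ≠ -e}, Lop e v φ (w : E n) ∂Q =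
      ∫ w : sphere (0 : E n) 1, Lop e v φ (w : E n) ∂Q - (Q {s₁}).toReal * Lop e v φ (s₁ : E n) -
        (Q {s₂}).toReal * Lop e v φ (s₂ : E n) := by
    intro Q hQ
    exact hatom Q hQ _ ((hD n).2.2.2.2 _ ((hXC n e v φ hv hφ).1)).1
  rw [hLc P hP, hLc N hN] at h0
  have h3 := mul_le_mul_of_nonneg_right a₁ (hpole s₁ 1 e₁ φ hφ hφs)
  have h4 := mul_le_mul_of_nonneg_right a₂ (hpole s₂ (-1) e₂ φ hφ hφs)
  linarith

end Pool.Agent.Helper62.PM
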