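import Pool.Agent.Helper62.PM.Fin5
import Pool.Agent.Helper62.Mink.Final3

/-!
# Project PM: densities in high dimension
-/

set_option autoImplicit false

open MeasureTheory Metric Set Filter Topology
open scoped RealInnerProductSpace ContDiff

namespace Pool.Agent.Helper62.PM

open Pool.Agent.Helper62.Mink

/-- surface measure -/
noncomputable abbrev sig (n : ℕ) : Measure (sphere (0 : E n) 1) := (volume : Measure (E n)).toSphere

/-- `∫ φ(w) f(⟨e,w⟩) dσ(w)` -/
noncomputable def mf {n : ℕ} (e : E n) (f : ℝ → ℝ) (φ : E n → ℝ) : ℝ :=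
  ∫ w : sphere (0 : E n) 1, φ (w : E n) * f (inner ℝ e (w : E n)) ∂(sig n)

lemma sig_fin {n : ℕ} (_hn : 1 ≤ n) : IsFiniteMeasure (sig n) := inferInstance

/-- the density is continuous on the sphere -/
lemma cont_dens {n : ℕ} {e : E n} (he : ‖e‖ = 1) {f : ℝ → ℝ} (hf : ContinuousOn f (Icc (-1) 1)) :
    Continuous fun w : sphere (0 : E n) 1 => f (inner ℝ e (w : E n)) := by
  have h1 : Continuous fun w : sphere (0 : E n) 1 => (inner ℝ e (w : E n) : ℝ) := by fun_prop
  refine hf.comp_continuous h1 fun w => ?_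
  have h2 := abs_real_inner_le_norm e (w : E n)
  rw [he] at h2
  have h3 : |(inner ℝ e (w : E n) : ℝ)| ≤ 1 := by simpa using h2
  exact abs_le.1 h3

lemma int_dens {n : ℕ} {e : E n} (he : ‖e‖ = 1) {f : ℝ → ℝ} (hf : ContinuousOn f (Icc (-1) 1))
    {φ : E n → ℝ} (hφ : Continuous φ) :
    Integrable (fun w : sphere (0 : E n) 1 => φ (w : E n) * f (inner ℝ e (w : E n))) (sig n) := by
  have hc : Continuous fun w : sphere (0 : E n) 1 => φ (w : E n) * f (inner ℝ e (w : E n)) :=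
    (hφ.comp continuous_subtype_val).mul (cont_dens he hf)
  obtain ⟨M, hM⟩ := (isCompact_univ (X := sphere (0 : E n) 1)).exists_bound_of_continuousOn
    hc.continuousOn
  exact Integrable.of_bound hc.aestronglyMeasurable M (Eventually.of_forall fun w => hM w (mem_univ w))

lemma mf_zdist (hD : StD) {n : ℕ} {e : E n} (he : ‖e‖ = 1) {f : ℝ → ℝ}
    (hf : ContinuousOn f (Icc (-1) 1)) : ZDist e (mf e f) := by
  have hc : ∀ φ : E n → ℝ, S1 φ → Continuous φ := fun φ hφ => ((hD n).2.2.2.2 φ hφ).1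
  refine ⟨fun φ ψ hφ hψ => ?_, fun c φ hφ => ?_, ?_, fun θ hθ hθe φ hφ => ?_⟩
  · unfold mf
    rw [← integral_add (int_dens he hf (hc φ hφ)) (int_dens he hf (hc ψ hψ))]
    refine integral_congr_ae (Eventually.of_forall fun w => ?_)
    show (φ (w : E n) + ψ (w : E n)) * _ = _
    ring
  · unfold mf
    rw [← integral_const_mul]
    refine integral_congr_ae (Eventually.of_forall fun w => ?_)
    show (c * φ (w : E n)) * _ = c * (φ (w : E n) * _)
    ring
  · obtain ⟨M, hM⟩ := (isCompact_univ (X := sphere (0 : E n) 1)).exists_bound_of_continuousOn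
      (cont_dens he hf).continuousOn
    refine ⟨0, |M| * (sig n univ).toReal, fun φ hφ B hB => ?_⟩
    have h0 : ∀ w : sphere (0 : E n) 1, ‖φ (w : E n) * f (inner ℝ e (w : E n))‖ ≤ B * |M| := fun w => by
      have h1 := hB 0 le_rfl (w : E n) (by simp)
      rw [norm_iteratedFDeriv_zero] at h1
      rw [norm_mul]
      exact mul_le_mul h1 ((hM w (mem_univ w)).trans (le_abs_self M)) (norm_nonneg _)
        ((norm_nonneg _).trans h1)
    have h1 := norm_integral_le_of_norm_le_const (μ := sig n) (Eventually.of_forall h0)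
    rw [Real.norm_eq_abs] at h1
    have e1 : (sig n).real univ = (sig n univ).toReal := rfl
    rw [e1] at h1
    calc |mf e f φ| ≤ B * |M| * (sig n univ).toReal := h1
      _ = |M| * (sig n univ).toReal * B := by ring
  · unfold mf
    have h1 := sphere_integral_comp θ (fun z => φ z * f (inner ℝ e z))
    rw [← h1]
    refine integral_congr_ae (Eventually.of_forall fun w => ?_)
    show φ (θ (w : E n)) * f (inner ℝ e (w : E n)) = φ (θ (w : E n)) * f (inner ℝ e (θ (w : E n)))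
    have h2 : (inner ℝ e (θ (w : E n)) : ℝ) = inner ℝ e (w : E n) := by
      conv_lhs => rw [← hθe]
      exact θ.inner_map_map _ _
    rw [h2]

/-- nonnegative densities -/
lemma mf_nonneg (hNF : StNF) {n : ℕ} (hn : 3 ≤ n) {e v : E n} (hev : ON (e, v)) {f : ℝ → ℝ}
    (hf : ContinuousOn f (Icc (-1) 1)) (h0 : ∀ t ∈ Icc (-1 : ℝ) 1, 0 ≤ f t) {φ : E n → ℝ}
    (hφ : S1 φ) (hs : Sublinear φ) : 0 ≤ mf e f (Lop e v φ) := by
  have he : ‖e‖ = 1 := hev.1
  have hc := cont_dens he hf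
  have hpos : ∀ w : sphere (0 : E n) 1, 0 ≤ f (inner ℝ e (w : E n)) := fun w => by
    have h2 := abs_real_inner_le_norm e (w : E n)
    rw [he] at h2
    have h3 : |(inner ℝ e (w : E n) : ℝ)| ≤ 1 := by simpa using h2
    exact h0 _ (abs_le.1 h3)
  have hfin : IsFiniteMeasure ((sig n).withDensity fun w : sphere (0 : E n) 1 =>
      ENNReal.ofReal (f (inner ℝ e (w : E n)))) := by
    refine isFiniteMeasure_withDensity_ofReal ?_
    have h1 : Integrable (fun w : sphere (0 : E n) 1 => f (inner ℝ e (w : E n))) (sig n) := by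
      have := int_dens he hf (φ := fun _ => (1 : ℝ)) continuous_const
      simpa using this
    exact h1.2
  have hint : ∀ ψ : E n → ℝ, ∫ w : sphere (0 : E n) 1, ψ (w : E n)
      ∂((sig n).withDensity fun w : sphere (0 : E n) 1 => ENNReal.ofReal (f (inner ℝ e (w : E n)))) =
      mf e f ψ := by
    intro ψ
    have hm : Measurable fun w : sphere (0 : E n) 1 => (f (inner ℝ e (w : E n))).toNNReal :=
      hc.measurable.real_toNNReal
    have h1 := integral_withDensity_eq_integral_smul (μ := sig n) hm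
      (fun w : sphere (0 : E n) 1 => ψ (w : E n))
    have h2 : (fun w : sphere (0 : E n) 1 => ENNReal.ofReal (f (inner ℝ e (w : E n)))) =
        fun w : sphere (0 : E n) 1 => (((f (inner ℝ e (w : E n))).toNNReal : NNReal) : ENNReal) := rfl
    rw [h2, h1]
    unfold mf
    refine integral_congr_ae (Eventually.of_forall fun w => ?_)
    show (f (inner ℝ e (w : E n))).toNNReal • ψ (w : E n) = _
    rw [NNReal.smul_def, Real.coe_toNNReal _ (hpos w), smul_eq_mul, mul_comm]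
  have hz : Zon e ((sig n).withDensity fun w : sphere (0 : E n) 1 =>
      ENNReal.ofReal (f (inner ℝ e (w : E n)))) := by
    intro θ hθ hθe ψ hψ
    rw [hint ψ, hint (fun z => ψ (θ z))]
    unfold mf
    have h1 := sphere_integral_comp θ (fun z => ψ z * f (inner ℝ e z))
    rw [← h1]
    refine integral_congr_ae (Eventually.of_forall fun w => ?_)
    show ψ (θ (w : E n)) * f (inner ℝ e (w : E n)) = ψ (θ (w : E n)) * f (inner ℝ e (θ (w : E n)))
    have h2 : (inner ℝ e (θ (w : E n)) : ℝ) = inner ℝ e (w : E n) := by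
      conv_lhs => rw [← hθe]
      exact θ.inner_map_map _ _
    rw [h2]
  have h3 := hNF n e v _ hn hev hfin hz φ hφ hs
  rwa [hint] at h3

/-- a density above an admissible one is admissible -/
lemma dens_mono (hA : StA) (hD : StD) (hE : StE) (hF : StF) (hG : StG) (hXA : StXA) (hXB : StXB)
    (hXC : StXC) (hXD : StXD) (hXE : StXE) (hXK : StXK) (hXM : StXM) (hNF : StNF) {n : ℕ}
    (hn : 3 ≤ n) {e : E n} (he : ‖e‖ = 1) {f g : ℝ → ℝ} (hf : ContinuousOn f (Icc (-1) 1))
    (hg : ContinuousOn g (Icc (-1) 1)) (hfg : ∀ t ∈ Icc (-1 : ℝ) 1, g t ≤ f t)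
    (h : ∃ T : ConvexBody (E n) → ConvexBody (E n), Admissible T ∧ Generates e g T) :
    ∃ T : ConvexBody (E n) → ConvexBody (E n), Admissible T ∧ Generates e f T := by
  obtain ⟨v, hv⟩ := exists_v (by omega) he
  obtain ⟨T₀, -, hT₀⟩ := h
  have hzf := mf_zdist hD he hf
  have hzg := mf_zdist hD he hg
  have hL : ∀ φ : E n → ℝ, S1 φ → Continuous (Lop e v φ) := fun φ hφ =>
    ((hD n).2.2.2.2 _ ((hXC n e v φ hv hφ).1)).1
  obtain ⟨m, hm, h0, hc⟩ := crit_c hA hD hE hF hG hXA hXB hXC (by omega) hv hzf (fun K hK => by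
    have h1 := crit_b hA hD hXA hXB hXC hv hzg (T := T₀) (fun K hK θ hθ => hT₀ K hK θ hθ) K hK
    have h2 := mf_nonneg hNF hn hv (f := fun t => f t - g t) (hf.sub hg)
      (fun t ht => sub_nonneg.2 (hfg t ht)) (S1_supp hK) (supp_sublinear K)
    have h3 : mf e (fun t => f t - g t) (Lop e v (supp K)) =
        mf e f (Lop e v (supp K)) - mf e g (Lop e v (supp K)) := by
      unfold mf
      rw [← integral_sub (int_dens he hf (hL _ (S1_supp hK))) (int_dens he hg (hL _ (S1_supp hK)))]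
      refine integral_congr_ae (Eventually.of_forall fun w => ?_)
      show _ * (_ - _) = _
      ring
    rw [h3] at h2
    linarith)
  obtain ⟨T, hT, hgT⟩ := crit_a hXD hXE hXK hXM hn hv hzf hm h0 hc
  exact ⟨T, hT, fun K hK θ hθ => hgT K hK θ hθ⟩

/-- the ratio of the integrals -/
lemma int_ratio (m : ℕ) : ((m : ℝ) + 4) * ∫ θ in (0 : ℝ)..Real.pi, Real.cos θ ^ 4 * Real.sin θ ^ m =
    3 * ∫ θ in (0 : ℝ)..Real.pi, Real.cos θ ^ 2 * Real.sin θ ^ m := by
  have hd : ∀ θ : ℝ, HasDerivAt (fun θ : ℝ => Real.cos θ ^ 3 * Real.sin θ ^ (m + 1))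
      (((m : ℝ) + 4) * (Real.cos θ ^ 4 * Real.sin θ ^ m) - 3 * (Real.cos θ ^ 2 * Real.sin θ ^ m)) θ := by
    intro θ
    have h1 := ((Real.hasDerivAt_cos θ).pow 3).mul ((Real.hasDerivAt_sin θ).pow (m + 1))
    refine h1.congr_deriv ?_
    have h2 : Real.sin θ ^ 2 = 1 - Real.cos θ ^ 2 := by
      have := Real.sin_sq_add_cos_sq θ
      linarith
    simp only [Nat.add_sub_cancel, Pi.pow_apply]
    push_cast
    norm_num
    linear_combination (-3 * Real.cos θ ^ 2 * Real.sin θ ^ m) * h2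
  have hi : IntervalIntegrable (fun θ : ℝ =>
      ((m : ℝ) + 4) * (Real.cos θ ^ 4 * Real.sin θ ^ m) - 3 * (Real.cos θ ^ 2 * Real.sin θ ^ m))
      volume 0 Real.pi := by
    apply Continuous.intervalIntegrable
    fun_prop
  have h := intervalIntegral.integral_eq_sub_of_hasDerivAt (fun θ _ => hd θ) hi
  have hi1 : IntervalIntegrable (fun θ : ℝ => ((m : ℝ) + 4) * (Real.cos θ ^ 4 * Real.sin θ ^ m))
      volume 0 Real.pi := by
    apply Continuous.intervalIntegrable
    fun_prop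
  have hi2 : IntervalIntegrable (fun θ : ℝ => 3 * (Real.cos θ ^ 2 * Real.sin θ ^ m))
      volume 0 Real.pi := by
    apply Continuous.intervalIntegrable
    fun_prop
  rw [intervalIntegral.integral_sub hi1 hi2, intervalIntegral.integral_const_mul,
    intervalIntegral.integral_const_mul] at h
  simp only [Real.sin_pi, Real.sin_zero, ne_eq, Nat.add_eq_zero_iff, one_ne_zero, and_false,
    not_false_eq_true, zero_pow, mul_zero, sub_self] at h
  linarith

/-- parabolas -/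
lemma seg_parabola {n : ℕ} (hn : 3 ≤ n) {a b : ℝ} (hab : b ≤ a * ((n : ℝ) + 1) / 3) :
    0 ≤ ∫ θ in (0 : ℝ)..Real.pi, (a - b * Real.cos θ ^ 2) * Real.cos θ ^ 2 * Real.sin θ ^ (n - 3) := by
  obtain ⟨m, rfl⟩ : ∃ m, n = m + 3 := ⟨n - 3, by omega⟩
  rw [Nat.add_sub_cancel]
  have h1 : ∫ θ in (0 : ℝ)..Real.pi, (a - b * Real.cos θ ^ 2) * Real.cos θ ^ 2 * Real.sin θ ^ m =
      a * (∫ θ in (0 : ℝ)..Real.pi, Real.cos θ ^ 2 * Real.sin θ ^ m) -
        b * ∫ θ in (0 : ℝ)..Real.pi, Real.cos θ ^ 4 * Real.sin θ ^ m := by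
    rw [← intervalIntegral.integral_const_mul, ← intervalIntegral.integral_const_mul,
      ← intervalIntegral.integral_sub]
    · congr 1
      funext θ
      ring
    · apply Continuous.intervalIntegrable
      fun_prop
    · apply Continuous.intervalIntegrable
      fun_prop
  have h2 := int_ratio m
  have h3 : 0 ≤ ∫ θ in (0 : ℝ)..Real.pi, Real.cos θ ^ 4 * Real.sin θ ^ m := by
    apply intervalIntegral.integral_nonneg Real.pi_pos.le
    intro θ hθ
    exact mul_nonneg (by positivity) (pow_nonneg (Real.sin_nonneg_of_nonneg_of_le_pi hθ.1 hθ.2) m)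
  rw [h1]
  have h4 : ∫ θ in (0 : ℝ)..Real.pi, Real.cos θ ^ 2 * Real.sin θ ^ m =
      ((m : ℝ) + 4) / 3 * ∫ θ in (0 : ℝ)..Real.pi, Real.cos θ ^ 4 * Real.sin θ ^ m := by
    linarith
  rw [h4]
  have h5 : b ≤ a * ((m : ℝ) + 4) / 3 := by
    push_cast at hab
    have : a * ((m : ℝ) + 3 + 1) / 3 = a * ((m : ℝ) + 4) / 3 := by ring
    rw [← this]
    exact hab
  nlinarith

/-- odd moment -/
lemma int_cube (m : ℕ) : ∫ θ in (0 : ℝ)..Real.pi, Real.cos θ ^ 3 * Real.sin θ ^ m = 0 := by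
  have h := intervalIntegral.integral_comp_sub_left (a := 0) (b := Real.pi)
    (fun θ : ℝ => Real.cos θ ^ 3 * Real.sin θ ^ m) Real.pi
  simp only [Real.cos_pi_sub, Real.sin_pi_sub, sub_self, sub_zero] at h
  have h2 : ∫ θ in (0 : ℝ)..Real.pi, (-Real.cos θ) ^ 3 * Real.sin θ ^ m =
      -∫ θ in (0 : ℝ)..Real.pi, Real.cos θ ^ 3 * Real.sin θ ^ m := by
    rw [← intervalIntegral.integral_neg]
    congr 1
    funext θ
    ring
  rw [h2] at h
  linarith

/-- parabolas with a linear term -/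
lemma seg_parabola' {n : ℕ} (hn : 3 ≤ n) {a b c : ℝ} (hab : b ≤ a * ((n : ℝ) + 1) / 3) :
    0 ≤ ∫ θ in (0 : ℝ)..Real.pi, (a - b * Real.cos θ ^ 2 + c * Real.cos θ) * Real.cos θ ^ 2 *
      Real.sin θ ^ (n - 3) := by
  have h1 : ∫ θ in (0 : ℝ)..Real.pi, (a - b * Real.cos θ ^ 2 + c * Real.cos θ) * Real.cos θ ^ 2 *
      Real.sin θ ^ (n - 3) =
      (∫ θ in (0 : ℝ)..Real.pi, (a - b * Real.cos θ ^ 2) * Real.cos θ ^ 2 * Real.sin θ ^ (n - 3)) +
        c * ∫ θ in (0 : ℝ)..Real.pi, Real.cos θ ^ 3 * Real.sin θ ^ (n - 3) := by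
    rw [← intervalIntegral.integral_const_mul, ← intervalIntegral.integral_add]
    · congr 1
      funext θ
      ring
    · apply Continuous.intervalIntegrable
      fun_prop
    · apply Continuous.intervalIntegrable
      fun_prop
  rw [h1, int_cube, mul_zero, add_zero]
  exact seg_parabola hn hab

/-- a supporting line at the origin -/
lemma subgrad {f : ℝ → ℝ} (hf : ConvexOn ℝ (Icc (-1 : ℝ) 1) f) :
    ∃ b : ℝ, ∀ t ∈ Icc (-1 : ℝ) 1, f 0 + b * t ≤ f t := by
  have h0 : (0 : ℝ) ∈ Icc (-1 : ℝ) 1 := ⟨by norm_num, by norm_num⟩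
  have hsl : ∀ s ∈ Ico (-1 : ℝ) 0, ∀ t ∈ Ioc (0 : ℝ) 1, (f s - f 0) / s ≤ (f t - f 0) / t := by
    intro s hs t ht
    have h1 := hf.slope_mono_adjacent (x := s) (y := 0) (z := t) ⟨hs.1, by linarith [hs.2]⟩
      ⟨by linarith [ht.1], ht.2⟩ hs.2 ht.1
    have h2 : (f 0 - f s) / (0 - s) = (f s - f 0) / s := by
      rw [zero_sub, div_neg, ← neg_div, neg_sub]
    rw [h2, sub_zero] at h1
    exact h1
  set A : Set ℝ := (fun s : ℝ => (f s - f 0) / s) '' Ico (-1 : ℝ) 0 with hA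
  have hne : A.Nonempty := ⟨_, ⟨-1, ⟨le_rfl, by norm_num⟩, rfl⟩⟩
  have hbd : ∀ t ∈ Ioc (0 : ℝ) 1, ∀ x ∈ A, x ≤ (f t - f 0) / t := by
    rintro t ht x ⟨s, hs, rfl⟩
    exact hsl s hs t ht
  have hba : BddAbove A := ⟨_, fun x hx => hbd 1 ⟨zero_lt_one, le_rfl⟩ x hx⟩
  refine ⟨sSup A, fun t ht => ?_⟩
  rcases lt_trichotomy t 0 with h | h | h
  · have h1 : (f t - f 0) / t ≤ sSup A := le_csSup hba ⟨t, ⟨ht.1, h⟩, rfl⟩
    rw [div_le_iff_of_neg h] at h1
    linarith
  · subst h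
    simp
  · have h1 : sSup A ≤ (f t - f 0) / t := csSup_le hne fun x hx => hbd t ⟨h, ht.2⟩ x hx
    rw [le_div_iff₀ h] at h1
    linarith

/-- a continuous function which is positive at the origin is above a parabola -/
lemma parabola {f : ℝ → ℝ} (hf : ContinuousOn f (Icc (-1) 1)) (h0 : 0 < f 0) :
    ∃ b : ℝ, 0 ≤ b ∧ ∀ t ∈ Icc (-1 : ℝ) 1, f 0 / 2 - b * t ^ 2 ≤ f t := by
  obtain ⟨M, hM⟩ := isCompact_Icc.exists_bound_of_continuousOn hf
  have hmem : (0 : ℝ) ∈ Icc (-1 : ℝ) 1 := ⟨by norm_num, by norm_num⟩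
  obtain ⟨δ, hδ, hd⟩ := Metric.continuousWithinAt_iff.1 (hf 0 hmem) (f 0 / 2) (by linarith)
  have hM0 : 0 ≤ M := (norm_nonneg _).trans (hM 0 hmem)
  refine ⟨(M + f 0 / 2) / δ ^ 2, by positivity, fun t ht => ?_⟩
  by_cases h : |t| < δ
  · have h1 := hd ht (by rw [Real.dist_eq, sub_zero]; exact h)
    rw [Real.dist_eq] at h1
    have h2 := (abs_lt.1 h1).1
    have h3 : 0 ≤ (M + f 0 / 2) / δ ^ 2 * t ^ 2 := by positivity
    linarith
  · rw [not_lt] at h
    have h1 : δ ^ 2 ≤ t ^ 2 := by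
      rw [← sq_abs t]
      exact pow_le_pow_left₀ hδ.le h 2
    have h2 : M + f 0 / 2 ≤ (M + f 0 / 2) / δ ^ 2 * t ^ 2 := by
      rw [div_mul_eq_mul_div, le_div_iff₀ (by positivity)]
      exact mul_le_mul_of_nonneg_left h1 (by positivity)
    have h3 := hM t ht
    rw [Real.norm_eq_abs] at h3
    have h4 := (abs_le.1 h3).1
    linarith

end Pool.Agent.Helper62.PM
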