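import Pool.Agent.Helper62.PM.St6

/-!
# Project PM part 6: the densities `t^k - c t^(k+2)`
-/

set_option autoImplicit false

open MeasureTheory Metric Set Filter Topology Polynomial
open scoped RealInnerProductSpace ContDiff

namespace Pool.Agent.Helper62.PM6

open Pool.Agent.Helper62.Mink

lemma SI_congr {n : ℕ} {φ ψ : E n → ℝ} (h : ∀ x : E n, ‖x‖ = 1 → φ x = ψ x) : SI φ = SI ψ := by
  unfold SI
  refine integral_congr_ae (Eventually.of_forall fun w => ?_)
  exact h w (by simp)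

lemma SI_add {n : ℕ} {φ ψ : E n → ℝ} (hφ : ContinuousOn φ (sphere 0 1))
    (hψ : ContinuousOn ψ (sphere 0 1)) : SI (fun x => φ x + ψ x) = SI φ + SI ψ := by
  unfold SI
  exact integral_add (sphere_integrable hφ) (sphere_integrable hψ)

lemma SI_mul {n : ℕ} (c : ℝ) (φ : E n → ℝ) : SI (fun x => c * φ x) = c * SI φ := by
  unfold SI
  exact integral_const_mul c _

lemma SI_lin4 {n : ℕ} (a b c d : ℝ) {φ₁ φ₂ φ₃ φ₄ : E n → ℝ} (h1 : ContinuousOn φ₁ (sphere 0 1))
    (h2 : ContinuousOn φ₂ (sphere 0 1)) (h3 : ContinuousOn φ₃ (sphere 0 1))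
    (h4 : ContinuousOn φ₄ (sphere 0 1)) :
    SI (fun x => a * φ₁ x + b * φ₂ x + (c * φ₃ x + d * φ₄ x)) =
      a * SI φ₁ + b * SI φ₂ + (c * SI φ₃ + d * SI φ₄) := by
  rw [← SI_mul a, ← SI_mul b, ← SI_mul c, ← SI_mul d,
    ← SI_add (φ := fun x => a * φ₁ x) (ψ := fun x => b * φ₂ x) (continuousOn_const.mul h1)
      (continuousOn_const.mul h2),
    ← SI_add (φ := fun x => c * φ₃ x) (ψ := fun x => d * φ₄ x) (continuousOn_const.mul h3)
      (continuousOn_const.mul h4),
    ← SI_add (φ := fun x => a * φ₁ x + b * φ₂ x) (ψ := fun x => c * φ₃ x + d * φ₄ x)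
      ((continuousOn_const.mul h1).add (continuousOn_const.mul h2))
      ((continuousOn_const.mul h3).add (continuousOn_const.mul h4))]

lemma ne_zero_of_norm {n : ℕ} {x : E n} (hx : ‖x‖ = 1) : x ≠ 0 := by
  rintro rfl
  simp at hx

lemma cont_fd {n : ℕ} {h : E n → ℝ} (hC : ContDiffOn ℝ ∞ h {0}ᶜ) (v : E n) :
    ContinuousOn (fun x => fderiv ℝ h x v) (sphere 0 1) := fun x hx =>
  (cda1 hC v (ne_zero_of_norm (by simpa using hx))).continuousAt.continuousWithinAt

lemma cont_Bf {n : ℕ} {h : E n → ℝ} (hC : ContDiffOn ℝ ∞ h {0}ᶜ) (u v : E n) :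
    ContinuousOn (fun x => Bf h x u v) (sphere 0 1) := by
  intro x hx
  have hx0 : x ≠ 0 := ne_zero_of_norm (by simpa using hx)
  have h1 : ContDiffAt ℝ ∞ (fderiv ℝ (fderiv ℝ h)) x :=
    (cdaF hC hx0).fderiv_right (m := ∞) (by simp)
  exact ((h1.clm_apply contDiffAt_const).clm_apply contDiffAt_const).continuousAt.continuousWithinAt

lemma fd_mono {n : ℕ} (u v : E n) (i j : ℕ) (x a : E n) :
    fderiv ℝ (mono u v i j) x a =
      (i * (inner ℝ v x) ^ (i - 1) * inner ℝ v a) * (inner ℝ u x) ^ j +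
        (inner ℝ v x) ^ i * (j * (inner ℝ u x) ^ (j - 1) * inner ℝ u a) := by
  refine lineD ((mono_smooth u v i j).differentiable (by simp) x) ?_
  have hv := (hasDerivAt_inner_line v x a).fun_pow i
  have hu := (hasDerivAt_inner_line u x a).fun_pow j
  have := hv.fun_mul hu
  unfold mono
  refine this.congr_deriv ?_
  simp

lemma fd_mul {n : ℕ} {g : E n → ℝ} {x : E n} (hg : DifferentiableAt ℝ g x) (u v : E n) (i j : ℕ)
    (a : E n) : fderiv ℝ (fun y => g y * mono u v i j y) x a =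
      fderiv ℝ g x a * mono u v i j x + g x * fderiv ℝ (mono u v i j) x a := by
  rw [fderiv_fun_mul hg ((mono_smooth u v i j).differentiable (by simp) x)]
  simp
  ring

section

variable {n : ℕ} {h : E n → ℝ}

lemma smooth_mul {g : E n → ℝ} (hg : ∀ x : E n, x ≠ 0 → ContDiffAt ℝ ∞ g x) (u v : E n) (i j : ℕ) :
    ContDiffOn ℝ ∞ (fun y => g y * mono u v i j y) {0}ᶜ := fun x hx =>
  ((hg x hx).mul (mono_smooth u v i j).contDiffAt).contDiffWithinAt

lemma A1 (hI : StIBS) (hn : 1 ≤ n) (hh : Sublinear h) (hC : ContDiffOn ℝ ∞ h {0}ᶜ) {u v : E n}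
    (hv : (inner ℝ v v : ℝ) = 1) (huv : (inner ℝ u v : ℝ) = 0) (j : ℕ) :
    SI (fun x => fderiv ℝ h x v * mono u v 1 j x) =
      ((j : ℝ) + 1 + n) * SI (fun x => h x * mono u v 2 j x) - SI (fun x => h x * mono u v 0 j x) := by
  have h1 := hI n hn (fun x => h x * mono u v 1 j x) (j + 1) (smooth_mul (fun x hx => cda hC hx) u v 1 j)
    (fun c hc x _ => by
      show h (c • x) * mono u v 1 j (c • x) = c ^ (j + 1 + 1) * (h x * mono u v 1 j x)
      rw [hh.pos_hom c hc.le, mono_hom]; ring) v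
  have h2 : SI (fun x => fderiv ℝ (fun y => h y * mono u v 1 j y) x v) =
      SI (fun x => fderiv ℝ h x v * mono u v 1 j x) + SI (fun x => h x * mono u v 0 j x) := by
    refine (SI_congr fun x hx => ?_).trans
      (SI_add (φ := fun x => fderiv ℝ h x v * mono u v 1 j x) (ψ := fun x => h x * mono u v 0 j x)
        ((cont_fd hC v).mul (mono_cont u v 1 j).continuousOn)
        ((cont_h hC).mul (mono_cont u v 0 j).continuousOn))
    rw [fd_mul ((cda hC (ne_zero_of_norm hx)).differentiableAt (by simp)), fd_mono, hv, huv]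
    unfold mono
    simp
  have h3 : SI (fun x => inner ℝ v x * (h x * mono u v 1 j x)) = SI (fun x => h x * mono u v 2 j x) := by
    refine SI_congr fun x _ => ?_
    unfold mono
    ring
  rw [h2, h3] at h1
  push_cast at h1
  linarith

lemma A2 (hI : StIBS) (hn : 1 ≤ n) (hh : Sublinear h) (hC : ContDiffOn ℝ ∞ h {0}ᶜ) {u v : E n}
    (huv : (inner ℝ u v : ℝ) = 0) (j : ℕ) :
    SI (fun x => D2 h v x * mono u v 0 (j + 1) x) =
      ((j : ℝ) + n) * SI (fun x => fderiv ℝ h x v * mono u v 1 (j + 1) x) := by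
  have h1 := hI n hn (fun x => fderiv ℝ h x v * mono u v 0 (j + 1) x) j
    (smooth_mul (fun x hx => cda1 hC v hx) u v 0 (j + 1))
    (fun c hc x _ => by
      show fderiv ℝ h (c • x) v * mono u v 0 (j + 1) (c • x) =
        c ^ (j + 1) * (fderiv ℝ h x v * mono u v 0 (j + 1) x)
      rw [fderiv_hom hh hc, mono_hom]; ring) v
  have h2 : SI (fun x => fderiv ℝ (fun y => fderiv ℝ h y v * mono u v 0 (j + 1) y) x v) =
      SI (fun x => D2 h v x * mono u v 0 (j + 1) x) := by
    refine SI_congr fun x hx => ?_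
    rw [fd_mul ((cda1 hC v (ne_zero_of_norm hx)).differentiableAt (by simp)), fd_mono, huv]
    unfold D2
    simp
  have h3 : SI (fun x => inner ℝ v x * (fderiv ℝ h x v * mono u v 0 (j + 1) x)) =
      SI (fun x => fderiv ℝ h x v * mono u v 1 (j + 1) x) := by
    refine SI_congr fun x _ => ?_
    unfold mono
    ring
  rw [h2, h3] at h1
  exact h1

lemma A3 (hI : StIBS) (hn : 1 ≤ n) (hh : Sublinear h) (hC : ContDiffOn ℝ ∞ h {0}ᶜ) {u v : E n}
    (hu : (inner ℝ u u : ℝ) = 1) (huv : (inner ℝ u v : ℝ) = 0) (j : ℕ) :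
    SI (fun x => Bf h x u v * mono u v 1 j x) =
      ((j : ℝ) + n) * SI (fun x => fderiv ℝ h x v * mono u v 1 (j + 1) x) -
        j * SI (fun x => fderiv ℝ h x v * mono u v 1 (j - 1) x) := by
  have h1 := hI n hn (fun x => fderiv ℝ h x v * mono u v 1 j x) j
    (smooth_mul (fun x hx => cda1 hC v hx) u v 1 j)
    (fun c hc x _ => by
      show fderiv ℝ h (c • x) v * mono u v 1 j (c • x) =
        c ^ (j + 1) * (fderiv ℝ h x v * mono u v 1 j x)
      rw [fderiv_hom hh hc, mono_hom]; ring) u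
  have hvu : (inner ℝ v u : ℝ) = 0 := by rw [real_inner_comm]; exact huv
  have h2 : SI (fun x => fderiv ℝ (fun y => fderiv ℝ h y v * mono u v 1 j y) x u) =
      SI (fun x => Bf h x u v * mono u v 1 j x) +
        j * SI (fun x => fderiv ℝ h x v * mono u v 1 (j - 1) x) := by
    rw [← SI_mul]
    refine (SI_congr fun x hx => ?_).trans
      (SI_add (φ := fun x => Bf h x u v * mono u v 1 j x)
        (ψ := fun x => (j : ℝ) * (fderiv ℝ h x v * mono u v 1 (j - 1) x))
        ((cont_Bf hC u v).mul (mono_cont u v 1 j).continuousOn)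
        (continuousOn_const.mul ((cont_fd hC v).mul (mono_cont u v 1 (j - 1)).continuousOn)))
    have hx0 := ne_zero_of_norm hx
    rw [fd_mul ((cda1 hC v hx0).differentiableAt (by simp)), fd_mono, hvu, hu]
    have h4 : fderiv ℝ (fun y => fderiv ℝ h y v) x u = Bf h x u v := by
      unfold Bf
      rw [fderiv_clm_apply ((cdaF hC hx0).differentiableAt (by simp)) (differentiableAt_const v)]
      simp
    rw [h4]
    unfold mono
    ring
  have h3 : SI (fun x => inner ℝ u x * (fderiv ℝ h x v * mono u v 1 j x)) =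
      SI (fun x => fderiv ℝ h x v * mono u v 1 (j + 1) x) := by
    refine SI_congr fun x _ => ?_
    unfold mono
    ring
  rw [h2, h3] at h1
  linarith

end

/-- the coefficient -/
noncomputable def gam (n k : ℕ) : ℝ := ((k : ℝ) + n + 1) / (2 * ((k : ℝ) + 1))

/-- the polynomial `t^k - γ t^(k+2)` -/
noncomputable def pk (n k : ℕ) : ℝ[X] := X ^ k - C (gam n k) * X ^ (k + 2)

lemma pk_eval (n k : ℕ) (t : ℝ) : (pk n k).eval t = t ^ k - gam n k * t ^ (k + 2) := by
  unfold pk
  simp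

lemma pk_der (n k : ℕ) (hk : 1 ≤ k) (t : ℝ) : (pk n k).eval t - t * (pk n k).derivative.eval t =
    (1 - k) * t ^ k + gam n k * (k + 1) * t ^ (k + 2) := by
  obtain ⟨j, rfl⟩ : ∃ j, k = j + 1 := ⟨k - 1, by omega⟩
  unfold pk
  simp only [derivative_sub, derivative_X_pow, derivative_mul, derivative_C, eval_sub, eval_mul,
    eval_pow, eval_X, eval_C, zero_mul, zero_add, Nat.add_sub_cancel]
  push_cast
  ring

lemma pk_der2 (n k : ℕ) (hk : 2 ≤ k) (t : ℝ) : (pk n k).derivative.derivative.eval t =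
    k * (k - 1) * t ^ (k - 2) - gam n k * (k + 2) * (k + 1) * t ^ k := by
  obtain ⟨j, rfl⟩ : ∃ j, k = j + 2 := ⟨k - 2, by omega⟩
  unfold pk
  have e1 : j + 2 + 2 - 1 = j + 3 := by omega
  have e2 : j + 2 - 1 = j + 1 := by omega
  have e3 : j + 1 - 1 = j := by omega
  have e4 : j + 3 - 1 = j + 2 := by omega
  simp only [derivative_sub, derivative_X_pow, derivative_mul, derivative_C, eval_sub, eval_mul,
    eval_pow, eval_X, eval_C, zero_mul, zero_add, Nat.add_sub_cancel, e1, e2, e3, e4]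
  push_cast
  ring

lemma le_add_of_sq {x y z : ℝ} (hy : 0 ≤ y) (hz : 0 ≤ z) (h : x ^ 2 ≤ 4 * y * z) : x ≤ y + z := by
  have h1 : x ^ 2 ≤ (y + z) ^ 2 := by nlinarith [sq_nonneg (y - z)]
  exact (le_abs_self x).trans (abs_le_of_sq_le_sq h1 (by positivity))

lemma point {κ s t a b c L : ℝ} (h1 : 2 / 3 ≤ κ) (h2 : κ ≤ 1) (ha : 0 ≤ a) (hb : 0 ≤ b)
    (hc : c ^ 2 ≤ a * b) (hL : a + b ≤ L) :
    0 ≤ s ^ 2 / 2 * L + s ^ 2 / 2 * a + (κ - 1 / 2) * t ^ 2 * b - κ * (t * s) * c := by
  have e1 : κ ^ 2 ≤ 4 * κ - 2 := by nlinarith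
  have e2 : κ * (t * s) * c ≤ s ^ 2 * a + (s ^ 2 / 2 + (κ - 1 / 2) * t ^ 2) * b := by
    refine le_add_of_sq (by positivity) (mul_nonneg ?_ hb) ?_
    · have : 0 ≤ (κ - 1 / 2) * t ^ 2 := mul_nonneg (by linarith) (by positivity)
      positivity
    · have e3 : (κ * (t * s) * c) ^ 2 = κ ^ 2 * (t ^ 2 * s ^ 2) * c ^ 2 := by ring
      have e4 : κ ^ 2 * (t ^ 2 * s ^ 2) * c ^ 2 ≤ (4 * κ - 2) * (t ^ 2 * s ^ 2) * (a * b) := by
        have h5 : κ ^ 2 * (t ^ 2 * s ^ 2) ≤ (4 * κ - 2) * (t ^ 2 * s ^ 2) :=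
          mul_le_mul_of_nonneg_right e1 (by positivity)
        have h6 : 0 ≤ (4 * κ - 2) * (t ^ 2 * s ^ 2) := mul_nonneg (by linarith) (by positivity)
        exact mul_le_mul h5 hc (by positivity) h6
      rw [e3]
      refine e4.trans ?_
      have e5 : 4 * (s ^ 2 * a) * ((s ^ 2 / 2 + (κ - 1 / 2) * t ^ 2) * b) =
          (4 * κ - 2) * (t ^ 2 * s ^ 2) * (a * b) + 2 * s ^ 4 * (a * b) := by ring
      rw [e5]
      have : 0 ≤ 2 * s ^ 4 * (a * b) := by positivity
      linarith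
  have e6 : s ^ 2 / 2 * (a + b) ≤ s ^ 2 / 2 * L := mul_le_mul_of_nonneg_left hL (by positivity)
  nlinarith

/-- the key inequality -/
theorem key_pk (hT : StTR2) (hI : StIBS) {n : ℕ} (hn : 1 ≤ n) {h : E n → ℝ} (hh : Sublinear h)
    (hC : ContDiffOn ℝ ∞ h {0}ᶜ) {k : ℕ} (hk : 2 ≤ k) (hev : Even k) (u v : E n) (hu : ‖u‖ = 1)
    (hv : ‖v‖ = 1) (huv : (inner ℝ u v : ℝ) = 0) :
      0 ≤ ∫ w : sphere (0 : E n) 1, h w *
        (((pk n k).eval (inner ℝ u (w : E n)) -
            inner ℝ u (w : E n) * (pk n k).derivative.eval (inner ℝ u (w : E n)))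
          + (pk n k).derivative.derivative.eval (inner ℝ u (w : E n)) * (inner ℝ v (w : E n)) ^ 2)
        ∂(volume : Measure (E n)).toSphere := by
  have huu : (inner ℝ u u : ℝ) = 1 := by rw [real_inner_self_eq_norm_sq, hu]; norm_num
  have hvv : (inner ℝ v v : ℝ) = 1 := by rw [real_inner_self_eq_norm_sq, hv]; norm_num
  have hch := cont_h hC
  set κ : ℝ := (k : ℝ) / (k + 1) with hκ
  have hk2 : (2 : ℝ) ≤ k := by exact_mod_cast hk
  have m0 : ∀ i j : ℕ, ContinuousOn (fun x : E n => h x * mono u v i j x) (sphere 0 1) := fun i j =>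
    hch.mul (mono_cont u v i j).continuousOn
  have e1 : ∫ w : sphere (0 : E n) 1, h w *
        (((pk n k).eval (inner ℝ u (w : E n)) -
            inner ℝ u (w : E n) * (pk n k).derivative.eval (inner ℝ u (w : E n)))
          + (pk n k).derivative.derivative.eval (inner ℝ u (w : E n)) * (inner ℝ v (w : E n)) ^ 2)
        ∂(volume : Measure (E n)).toSphere =
      (1 - k) * SI (fun x => h x * mono u v 0 k x) +
        gam n k * (k + 1) * SI (fun x => h x * mono u v 0 (k + 2) x) +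
        (k * (k - 1) * SI (fun x => h x * mono u v 2 (k - 2) x) +
          (-(gam n k * (k + 2) * (k + 1))) * SI (fun x => h x * mono u v 2 k x)) := by
    rw [← SI_lin4 _ _ _ _ (m0 0 k) (m0 0 (k + 2)) (m0 2 (k - 2)) (m0 2 k)]
    unfold SI
    refine integral_congr_ae (Eventually.of_forall fun w => ?_)
    show h w * _ = (1 - (k : ℝ)) * (h w * mono u v 0 k w) +
      gam n k * (k + 1) * (h w * mono u v 0 (k + 2) w) +
      (k * (k - 1) * (h w * mono u v 2 (k - 2) w) +
        (-(gam n k * (k + 2) * (k + 1))) * (h w * mono u v 2 k w))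
    rw [pk_der n k (by omega), pk_der2 n k hk]
    unfold mono
    ring
  have iA := identA hn hh hC huu hvv huv k
  have iB := identB hn hh hC huu huv k
  have a1 := A1 hI hn hh hC hvv huv k
  have a1' := A1 hI hn hh hC hvv huv (k + 2)
  have a2 := A2 hI hn hh hC huv (k + 1)
  have a3 := A3 hI hn hh hC huu huv (k + 1)
  rw [Nat.add_sub_cancel] at a3
  have e2 : 0 ≤ 1 / 2 * SI (fun x => Lap h x * mono u v 2 k x) +
      1 / 2 * SI (fun x => D2 h u x * mono u v 2 k x) +
      ((κ - 1 / 2) * SI (fun x => D2 h v x * mono u v 0 (k + 2) x) +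
        (-κ) * SI (fun x => Bf h x u v * mono u v 1 (k + 1) x)) := by
    have c1 : ContinuousOn (fun x : E n => Lap h x * mono u v 2 k x) (sphere 0 1) :=
      (cont_Lap hC).mul (mono_cont u v 2 k).continuousOn
    have c2 : ContinuousOn (fun x : E n => D2 h u x * mono u v 2 k x) (sphere 0 1) :=
      (cont_D2 hC u).mul (mono_cont u v 2 k).continuousOn
    have c3 : ContinuousOn (fun x : E n => D2 h v x * mono u v 0 (k + 2) x) (sphere 0 1) :=
      (cont_D2 hC v).mul (mono_cont u v 0 (k + 2)).continuousOn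
    have c4 : ContinuousOn (fun x : E n => Bf h x u v * mono u v 1 (k + 1) x) (sphere 0 1) :=
      (cont_Bf hC u v).mul (mono_cont u v 1 (k + 1)).continuousOn
    rw [← SI_lin4 _ _ _ _ c1 c2 c3 c4]
    unfold SI
    refine integral_nonneg fun w => ?_
    have hw : ‖(w : E n)‖ = 1 := by simp
    have hw0 := ne_zero_of_norm hw
    have b1 := D2_nonneg hh hC u hw0
    have b2 := D2_nonneg hh hC v hw0
    have b3 := Bf_cs hh hC hw0 u v
    have b4 := hT n h hh hC w hw0 u v hu hv huv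
    rw [← D2_eq_Bf hC hw0, ← D2_eq_Bf hC hw0] at b3 b4
    have hκ1 : 2 / 3 ≤ κ := by
      rw [hκ, div_le_div_iff₀ (by norm_num) (by linarith)]
      linarith
    have hκ2 : κ ≤ 1 := by
      rw [hκ, div_le_one (by linarith)]
      linarith
    have b5 := point (s := inner ℝ v (w : E n)) (t := inner ℝ u (w : E n)) hκ1 hκ2 b1 b2 b3 b4
    have b6 : (0 : ℝ) ≤ (inner ℝ u (w : E n) : ℝ) ^ k := hev.pow_nonneg _
    have b7 := mul_nonneg b6 b5
    show (0 : ℝ) ≤ 1 / 2 * (Lap h w * mono u v 2 k w) + 1 / 2 * (D2 h u w * mono u v 2 k w) +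
      ((κ - 1 / 2) * (D2 h v w * mono u v 0 (k + 2) w) +
        (-κ) * (Bf h w u v * mono u v 1 (k + 1) w))
    refine b7.trans (le_of_eq ?_)
    unfold mono
    ring
  rw [e1]
  refine e2.trans (le_of_eq ?_)
  have a2' : SI (fun x => D2 h v x * mono u v 0 (k + 2) x) =
      ((k : ℝ) + 1 + n) * SI (fun x => fderiv ℝ h x v * mono u v 1 (k + 2) x) := by
    have := a2
    push_cast at this
    exact this
  have a3' : SI (fun x => Bf h x u v * mono u v 1 (k + 1) x) =
      ((k : ℝ) + 1 + n) * SI (fun x => fderiv ℝ h x v * mono u v 1 (k + 2) x) -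
        ((k : ℝ) + 1) * SI (fun x => fderiv ℝ h x v * mono u v 1 k x) := by
    have := a3
    push_cast at this
    exact this
  rw [iA, iB, a2', a3', a1', a1]
  have hk1 : (k : ℝ) + 1 ≠ 0 := by positivity
  have hγ : gam n k * ((k : ℝ) + 1) = ((k : ℝ) + n + 1) / 2 := by
    unfold gam
    field_simp
  have hκk : κ * ((k : ℝ) + 1) = k := by
    rw [hκ]
    field_simp
  push_cast
  generalize SI (fun x => h x * mono u v 0 k x) = P1
  generalize SI (fun x => h x * mono u v 0 (k + 2) x) = P2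
  generalize SI (fun x => h x * mono u v 2 (k - 2) x) = P3
  generalize SI (fun x => h x * mono u v 2 k x) = P4
  generalize SI (fun x => h x * mono u v 2 (k + 2) x) = P5
  linear_combination (-P2) * hγ + ((k : ℝ) + 2) * P4 * hγ + (((k : ℝ) + 1 + n) * P4 - P1) * hκk

end Pool.Agent.Helper62.PM6
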