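import Pool.Agent.Helper62.PM.HK
import Pool.Agent.Helper62.PM.HD

/-!
# Project PM part 6: the cone of admissible densities generated by `t^k - c t^(k+2)`
-/

set_option autoImplicit false

open MeasureTheory Metric Set Filter Topology
open scoped RealInnerProductSpace ContDiff

namespace Pool.Agent.Helper62.PM6

open Pool.Agent.Helper62.Mink

/-- the convolution with `f` preserves sublinear functions -/
def Sub (n : ℕ) (f : ℝ → ℝ) : Prop :=
  ∀ h : E n → ℝ, Sublinear h → ∀ x y : E n, conv h f (x + y) ≤ conv h f x + conv h f y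

lemma Sub.congr {n : ℕ} {f g : ℝ → ℝ} (hf : Sub n f) (h : ∀ t, f t = g t) : Sub n g := by
  have : f = g := funext h
  rwa [← this]

lemma Sub.add {n : ℕ} {f g : ℝ → ℝ} (hf : Sub n f) (hg : Sub n g) (cf : ContinuousOn f (Icc (-1) 1))
    (cg : ContinuousOn g (Icc (-1) 1)) : Sub n fun t => f t + g t := by
  intro h hh x y
  rw [conv_add_f hh.continuous cf cg, conv_add_f hh.continuous cf cg,
    conv_add_f hh.continuous cf cg]
  have h1 := hf h hh x y
  have h2 := hg h hh x y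
  linarith

lemma Sub.smul {n : ℕ} {f : ℝ → ℝ} (hf : Sub n f) {c : ℝ} (hc : 0 ≤ c) : Sub n fun t => c * f t := by
  intro h hh x y
  rw [conv_smul_f, conv_smul_f, conv_smul_f]
  have h1 := mul_le_mul_of_nonneg_left (hf h hh x y) hc
  linarith

lemma Sub_lin (n : ℕ) (b : ℝ) : Sub n fun t => b * t := by
  intro h hh x y
  have e1 : ∀ z : E n, conv h (fun t => b * t) z = ∫ w : sphere (0 : E n) 1,
      h w * (b * inner ℝ z (w : E n)) ∂(volume : Measure (E n)).toSphere := by
    intro z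
    unfold conv
    refine integral_congr_ae (Eventually.of_forall fun w => ?_)
    show h w * (‖z‖ * (b * (inner ℝ z (w : E n) / ‖z‖))) = h w * (b * inner ℝ z (w : E n))
    rcases eq_or_ne z 0 with rfl | hz
    · simp
    · have : ‖z‖ ≠ 0 := norm_ne_zero_iff.2 hz
      field_simp
  have hi : ∀ z : E n, Integrable (fun w : sphere (0 : E n) 1 =>
      h w * (b * inner ℝ z (w : E n))) (volume : Measure (E n)).toSphere := fun z =>
    sphere_integrable (φ := fun w => h w * (b * inner ℝ z w))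
      (hh.continuous.mul (by fun_prop)).continuousOn
  rw [e1, e1, e1, ← integral_add (hi x) (hi y)]
  refine le_of_eq (integral_congr_ae (Eventually.of_forall fun w => ?_))
  show h w * (b * inner ℝ (x + y) (w : E n)) = _
  rw [inner_add_left]
  ring

lemma Sub_pk (hT : StTR2) (hI : StIBS) {n : ℕ} (hn : 2 ≤ n) {k : ℕ} (hk : 2 ≤ k) (hev : Even k) :
    Sub n fun t => t ^ k - gam n k * t ^ (k + 2) := by
  refine Sub.congr (f := fun t => (pk n k).eval t) ?_ (fun t => pk_eval n k t)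
  intro h hh x y
  have hpc : ContinuousOn (fun t => (pk n k).eval t) (Icc (-1 : ℝ) 1) :=
    (pk n k).continuous.continuousOn
  obtain ⟨M, hM0, hM⟩ := exists_bdd hpc
  refine subadd_lim hh.continuous hpc hM0 (fun ε hε => ?_) x y
  obtain ⟨h', hs, hC, hclose⟩ := exists_smooth hh hε
  refine ⟨h', fun t => (pk n k).eval t, hs.continuous, hpc, ?_, ?_⟩
  · intro w hw t ht
    have h1 := hclose w
    rw [hw, mul_one] at h1
    rw [← sub_mul, abs_mul]
    have h2 : |h w - h' w| ≤ ε := by rw [abs_sub_comm]; exact h1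
    exact mul_le_mul h2 (hM t ht) (abs_nonneg _) hε.le
  · exact conv_add_le_of_key hn hs (pk n k)
      (fun u v hu hv huv => key_pk hT hI (by omega) hs hC hk hev u v hu hv huv)

lemma Sub_par {n : ℕ} (hn : 3 ≤ n) : Sub n fun t => 1 - ((n : ℝ) + 1) / 3 * t ^ 2 := by
  intro h hh x y
  have hg : ContinuousOn (fun t : ℝ => 1 - ((n : ℝ) + 1) / 3 * t ^ 2) (Icc (-1) 1) := by fun_prop
  have hconc : ConcaveOn ℝ (Icc (-1 : ℝ) 1) fun t : ℝ => 1 - ((n : ℝ) + 1) / 3 * t ^ 2 := by
    have h1 : ConvexOn ℝ (Icc (-1 : ℝ) 1) fun t : ℝ => ((n : ℝ) + 1) / 3 * t ^ 2 := by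
      have h2 : ConvexOn ℝ univ fun t : ℝ => t ^ 2 := Even.convexOn_pow (by decide)
      exact (h2.subset (subset_univ _) (convex_Icc _ _)).smul (by positivity)
    exact (concaveOn_const 1 (convex_Icc _ _)).sub h1
  have h0 : 0 ≤ seg n fun t : ℝ => 1 - ((n : ℝ) + 1) / 3 * t ^ 2 :=
    Pool.Agent.Helper62.PM.seg_parabola (a := 1) hn (by linarith)
  exact subadd_main hn hh hg (concave_star hconc (concave_zero hg hconc h0)) h0 x y

/-- the sum -/
noncomputable def csum (n : ℕ) (b a₀ : ℝ) (a : ℕ → ℝ) (N : ℕ) (t : ℝ) : ℝ :=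
  b * t + a₀ * (1 - ((n : ℝ) + 1) / 3 * t ^ 2) + ∑ j ∈ Finset.range N, a j *
    (t ^ (2 * j + 2) - (2 * (j : ℝ) + n + 3) / (4 * (j : ℝ) + 6) * t ^ (2 * j + 4))

lemma csum_cont (n : ℕ) (b a₀ : ℝ) (a : ℕ → ℝ) (N : ℕ) : Continuous (csum n b a₀ a N) := by
  unfold csum
  fun_prop

lemma Sub_csum (hT : StTR2) (hI : StIBS) {n : ℕ} (hn : 3 ≤ n) (b : ℝ) {a₀ : ℝ} (ha₀ : 0 ≤ a₀)
    {a : ℕ → ℝ} (ha : ∀ j, 0 ≤ a j) (N : ℕ) : Sub n (csum n b a₀ a N) := by
  induction N with
  | zero =>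
    refine Sub.congr (f := fun t => b * t + a₀ * (1 - ((n : ℝ) + 1) / 3 * t ^ 2)) ?_
      (fun t => by unfold csum; simp)
    exact (Sub_lin n b).add ((Sub_par hn).smul ha₀) (by fun_prop) (by fun_prop)
  | succ N ih =>
    have h1 : Sub n fun t => a N * (t ^ (2 * N + 2) - gam n (2 * N + 2) * t ^ (2 * N + 2 + 2)) :=
      (Sub_pk hT hI (by omega) (by omega) ⟨N + 1, by ring⟩).smul (ha N)
    refine Sub.congr (ih.add h1 (csum_cont n b a₀ a N).continuousOn (by fun_prop)) fun t => ?_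
    have e1 : gam n (2 * N + 2) = (2 * (N : ℝ) + n + 3) / (4 * (N : ℝ) + 6) := by
      unfold gam
      push_cast
      congr 1 <;> ring
    unfold csum
    rw [Finset.sum_range_succ, e1]
    ring

end Pool.Agent.Helper62.PM6
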