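import Pool.Agent.Helper62.PM.St6

/-!
# Project PM part 7 (MP_ae3a4d_gt): the 0-1 law for densities which do not oscillate at the equator

THEOREM.  `f` continuous on `[-1,1]`.  (1) If for some `b` the difference `f(t) - b t` is, on each side of `0`, either `≥ 0` up to `±1` or `≥ 0` up to a
point where it is `> 0`, then `f` is admissible in every dimension `n ≥ n₀(f)`.  (2) If `(f(t) - b t)/t → 0` and on one side `f(t) - b t ≤ 0` up to a
point where it is `< 0` (or if `f(0) < 0`), then `f` is admissible in no dimension `n ≥ 3`.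
-/

set_option autoImplicit false

open MeasureTheory Metric Set Filter Topology Polynomial
open scoped RealInnerProductSpace ContDiff

namespace Pool.Agent.Helper62.PM6

open Pool.Agent.Helper62.Mink

/-- `g ≥ 0` on `[0,1]`, or `g ≥ 0` on `[0,r]` and `g(r) > 0` for some `r` in `(0,1)` -/
def PosFirst (g : ℝ → ℝ) : Prop :=
  (∀ t ∈ Icc (0 : ℝ) 1, 0 ≤ g t) ∨ ∃ r ∈ Ioo (0 : ℝ) 1, (∀ t ∈ Icc 0 r, 0 ≤ g t) ∧ 0 < g r

/-- `g ≤ 0` on `[0,r]` and `g(r) < 0` for some `r` in `(0,1)` -/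
def NegFirst (g : ℝ → ℝ) : Prop :=
  ∃ r ∈ Ioo (0 : ℝ) 1, (∀ t ∈ Icc 0 r, g t ≤ 0) ∧ g r < 0

/-- `ψ = (t - r)₊² + (-t - r')₊²` -/
noncomputable def psi (r r' t : ℝ) : ℝ := max (t - r) 0 ^ 2 + max (-t - r') 0 ^ 2

/-- `Ψ = (t - r)₊³/3 - (-t - r')₊³/3`, the primitive of `ψ` which vanishes at `0` (`r, r' > 0`) -/
noncomputable def Psi (r r' t : ℝ) : ℝ := max (t - r) 0 ^ 3 / 3 - max (-t - r') 0 ^ 3 / 3

/-- the admissible density `(1 - t²/2) ψ - (n/2) t Ψ` -/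
noncomputable def pr (n : ℕ) (r r' t : ℝ) : ℝ :=
  (1 - t ^ 2 / 2) * psi r r' t - (n : ℝ) / 2 * t * Psi r r' t

/-- NEC2 (90 lines).  The double cones exclude the other cases (a statement about one real function).
PROOF.  `g t = f t - b t`.  `dco n (b ·) β α = 0`: `(sin^(n-2))' = (n-2) sin^(n-3) cos`.  So `0 ≤ dco n g β α` for all `β < π/2 < α`.
Right side (`g ≤ 0` on `[0,r]`, `g(r) < 0`): fix `β = arccos r` in `(0, π/2)` and let `α → π/2` from the right: `- g(cos α) sin^(n-2) α / cos α → 0`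
(`|sin| ≤ 1`, `cos α → 0`, `cos α ≠ 0`), the integral tends to `∫_β^(π/2)` (continuity of the integral in the end point), so
`0 ≤ g(r) sin^(n-2) β / r + (n-2) ∫_β^(π/2) g(cos θ) sin^(n-3) θ`; the first term is `< 0` and the second `≤ 0` (`cos θ` in `[0,r]`).
Left side (`g(-t) ≤ 0` on `[0,r]`, `g(-r) < 0`; note `f(-t) + b t = g(-t)`): the same with `α = arccos (-r)` fixed and `β → π/2` from the left.  Hypotheses: . -/
def StNEC2 : Prop :=
  ∀ (n : ℕ), 3 ≤ n → ∀ (f : ℝ → ℝ) (b : ℝ), ContinuousOn f (Icc (-1) 1) →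
    Tendsto (fun t : ℝ => (f t - b * t) / t) (𝓝[≠] 0) (𝓝 0) →
    (NegFirst (fun t => f t - b * t) ∨ NegFirst (fun t => f (-t) + b * t)) →
    (∀ β α : ℝ, 0 ≤ β → β < Real.pi / 2 → Real.pi / 2 < α → α ≤ Real.pi → 0 ≤ dco n f β α) → False

/-- APX (110 lines).  Approximation of `ψ`, `Ψ` by polynomials with the same inequality.
PROOF.  `χ t = psi r r' t / t^4` is continuous on `ℝ` (zero for `|t| < min r r'`).  With `δ = min ε 1 / 2` Weierstrass (`exists_polynomial_near_of_continuousOn`) gives a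
polynomial `η` with `|η - (χ + δ)| ≤ δ/10` on `[-1,1]`.  `θ = X^2 η`.  So `t^4 η` lies between `psi + 0.9 δ t^4` and `psi + 1.1 δ t^4`: nonnegative and within
`1.1 δ ≤ ε` of `psi`.  `Q` = the primitive of `X^4 η` with `Q 0 = 0` (`Mink.exists_antideriv` minus a constant).  `Psi` has derivative `psi` and `Psi 0 = 0`.  For `t ≥ 0`
(monotone comparison, or integrals) `Psi + 0.18 δ t^5 ≤ Q t ≤ Psi + 0.22 δ t^5`; as `0 ≤ Psi ≤ t psi / 3` (`(t-r)₊³ ≤ t (t-r)₊²`), `Q t ≤ t psi/3 + 0.22 δ t^5 ≤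
t (psi + 0.9 δ t^4)/3 ≤ t (t^4 η)/3`.  For `t ≤ 0` the same with signs (replace `t` by `-t`, exchange `r, r'`).  Hypotheses: . -/
def StAPX : Prop :=
  ∀ r r' : ℝ, 0 < r → 0 < r' → ∀ ε : ℝ, 0 < ε → ∃ θ Q : ℝ[X], derivative Q = X ^ 2 * θ ∧ Q.eval 0 = 0 ∧
    ∀ t ∈ Icc (-1 : ℝ) 1, 0 ≤ t ^ 2 * θ.eval t ∧ |Q.eval t| ≤ |t| * (t ^ 2 * θ.eval t) / 3 ∧
      |t ^ 2 * θ.eval t - psi r r' t| ≤ ε ∧ |Q.eval t - Psi r r' t| ≤ ε

/-- CMP (100 lines).  For large `n` the density `b t + pr n r r'` is below `f`.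
PROOF.  Right side, first alternative: take `r = 1` (`max (t - 1) 0 = 0` on `[-1,1]`).  Second alternative with the point `ρ`: by continuity `g = f - b t > 0` on `[r, ρ]` for some
`0 < r < ρ`, let `m > 0` be the minimum of `g` on `[r,ρ]`.  Left side the same (`r'`, `ρ'`, `m'`).  For `t ≥ 0` only the first bracket counts (`r' > 0`):
`pr n r r' t = (t-r)₊² (1 - t²/2) - (n/6) t (t-r)₊³`.  `t < r`: it is `0 ≤ g`.  `r ≤ t ≤ ρ`: with `x = t - r ≥ 0`, `pr ≤ x² - (n/6) r x³ ≤ (6/(n r))²` (if `n r x/6 ≤ 1` then `x² ≤ (6/(n r))²`,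
otherwise the left side is `≤ 0`), which is `≤ m` for large `n`.  `t ≥ ρ`: `pr ≤ x² (1 - (n/6) r (ρ - r)) ≤ - (ρ - r)² ((n/6) r (ρ - r) - 1) ≤ -B` for large `n`, where `|f - b t| ≤ B` on `[-1,1]`.
(If `r = 1` nothing is to be shown except `0 ≤ g`.)  `t < 0`: the same with `-t`.  Hypotheses: . -/
def StCMP : Prop :=
  ∀ (f : ℝ → ℝ) (b : ℝ), ContinuousOn f (Icc (-1) 1) → PosFirst (fun t => f t - b * t) →
    PosFirst (fun t => f (-t) + b * t) → ∃ r r' : ℝ, 0 < r ∧ 0 < r' ∧ ∃ n₀ : ℕ, ∀ n : ℕ, n₀ ≤ n →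
      ∀ t ∈ Icc (-1 : ℝ) 1, b * t + pr n r r' t ≤ f t

/-- LAW (80 lines).  Densities with an expansion at `0`.
PROOF.  `q t = (f t - b t)/t^k`, `f t - b t = t^k q t` for `t ≠ 0`.  If `k` is even and `c > 0` then `f t - b t > 0` for `0 < |t| < δ`, `δ ≤ 1`; by continuity `f 0 ≥ 0`; take `r = δ/2` on both
sides.  Otherwise: if `k = 0` then `c < 0` and `f 0 = c < 0` (continuity).  If `k ≥ 2`: `(f t - b t)/t = t^(k-1) q t → 0`; by continuity `f 0 = 0`; if `k` is even, `c < 0`, or `k` odd and `c < 0`: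
`f t - b t < 0` on `(0,δ)`, `NegFirst` on the right with `r = δ/2`; if `k` is odd and `c > 0`: `f(-t) + b t = (-t)^k q(-t) < 0` on `(0,δ)`, `NegFirst` on the left.  Hypotheses: . -/
def StLAW : Prop :=
  ∀ (f : ℝ → ℝ) (b c : ℝ) (k : ℕ), ContinuousOn f (Icc (-1) 1) → k ≠ 1 → c ≠ 0 →
    Tendsto (fun t : ℝ => (f t - b * t) / t ^ k) (𝓝[≠] 0) (𝓝 c) →
    ((Even k ∧ 0 < c) → PosFirst (fun t => f t - b * t) ∧ PosFirst (fun t => f (-t) + b * t)) ∧
    (¬(Even k ∧ 0 < c) → f 0 < 0 ∨ (Tendsto (fun t : ℝ => (f t - b * t) / t) (𝓝[≠] 0) (𝓝 0) ∧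
      (NegFirst (fun t => f t - b * t) ∨ NegFirst (fun t => f (-t) + b * t))))

end Pool.Agent.Helper62.PM6
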