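import Pool.Agent.Helper62.PM.HO
import Pool.Agent.Helper62.PM.St7

/-!
# Project PM part 7: the densities `(1 - t²/2) ψ - (n/2) t Ψ`
-/

set_option autoImplicit false

open MeasureTheory Metric Set Filter Topology Polynomial
open scoped RealInnerProductSpace ContDiff

namespace Pool.Agent.Helper62.PM6

open Pool.Agent.Helper62.Mink

/-- the identity for one monomial -/
lemma ident_mono (hI : StIBS) {n : ℕ} (hn : 1 ≤ n) {h : E n → ℝ} (hh : Sublinear h)
    (hC : ContDiffOn ℝ ∞ h {0}ᶜ) {k : ℕ} (hk : 2 ≤ k) {u v : E n} (huu : (inner ℝ u u : ℝ) = 1)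
    (hvv : (inner ℝ v v : ℝ) = 1) (huv : (inner ℝ u v : ℝ) = 0) :
    (1 - k) * SI (fun x => h x * mono u v 0 k x) +
        gam n k * (k + 1) * SI (fun x => h x * mono u v 0 (k + 2) x) +
        (k * (k - 1) * SI (fun x => h x * mono u v 2 (k - 2) x) +
          (-(gam n k * (k + 2) * (k + 1))) * SI (fun x => h x * mono u v 2 k x)) =
      1 / 2 * SI (fun x => Lap h x * mono u v 2 k x) +
      1 / 2 * SI (fun x => D2 h u x * mono u v 2 k x) +
      (((k : ℝ) / (k + 1) - 1 / 2) * SI (fun x => D2 h v x * mono u v 0 (k + 2) x) +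
        (-((k : ℝ) / (k + 1))) * SI (fun x => Bf h x u v * mono u v 1 (k + 1) x)) := by
  have hk2 : (2 : ℝ) ≤ k := by exact_mod_cast hk
  set κ : ℝ := (k : ℝ) / (k + 1) with hκ
  have iA := identA hn hh hC huu hvv huv k
  have iB := identB hn hh hC huu huv k
  have a1 := A1 hI hn hh hC hvv huv k
  have a1' := A1 hI hn hh hC hvv huv (k + 2)
  have a2 := A2 hI hn hh hC huv (k + 1)
  have a3 := A3 hI hn hh hC huu huv (k + 1)
  rw [Nat.add_sub_cancel] at a3
  have a2' : SI (fun x => D2 h v x * mono u v 0 (k + 2) x) =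
      ((k : ℝ) + 1 + n) * SI (fun x => fderiv ℝ h x v * mono u v 1 (k + 2) x) := by
    have := a2
    push_cast at this
    exact this
  have a3' : SI (fun x => Bf h x u v * mono u v 1 (k + 1) x) =
      ((k : ℝ) + 1 + n) * SI (fun x => fderiv ℝ h x v * mono u v 1 (k + 2) x) -
        ((k : ℝ) + 1) * SI (fun x => fderiv ℝ h x v * mono u v 1 k x) := by
    have := a3
    push_cast at this
    exact this
  rw [iA, iB, a2', a3', a1', a1]
  have hk1 : (k : ℝ) + 1 ≠ 0 := by positivity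
  have hγ : gam n k * ((k : ℝ) + 1) = ((k : ℝ) + n + 1) / 2 := by
    unfold gam
    field_simp
  have hκk : κ * ((k : ℝ) + 1) = k := by
    rw [hκ]
    field_simp
  push_cast
  generalize SI (fun x => h x * mono u v 0 k x) = P1
  generalize SI (fun x => h x * mono u v 0 (k + 2) x) = P2
  generalize SI (fun x => h x * mono u v 2 (k - 2) x) = P3
  generalize SI (fun x => h x * mono u v 2 k x) = P4
  generalize SI (fun x => h x * mono u v 2 (k + 2) x) = P5
  linear_combination P2 * hγ - ((k : ℝ) + 2) * P4 * hγ - (((k : ℝ) + 1 + n) * P4 - P1) * hκk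

/-- the density attached to `ψ = X² θ` and its primitive -/
noncomputable def PP (n : ℕ) (θ Q : ℝ[X]) : ℝ[X] :=
  (1 - C (1 / 2) * X ^ 2) * (X ^ 2 * θ) - C ((n : ℝ) / 2) * X * Q

structure RepP (n : ℕ) (θ Q : ℝ[X]) : Prop where
  hd : derivative Q = X ^ 2 * θ
  h0 : Q.eval 0 = 0
  hop : ∀ (h : E n → ℝ) (_ : Sublinear h) (hC : ContDiffOn ℝ ∞ h {0}ᶜ) (u v : E n),
    (inner ℝ u u : ℝ) = 1 → (inner ℝ v v : ℝ) = 1 → (inner ℝ u v : ℝ) = 0 →
    SL h (cont_h hC) u v 0 (PP n θ Q - X * derivative (PP n θ Q))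
      + SL h (cont_h hC) u v 2 (derivative (derivative (PP n θ Q)))
    = SL (Lap h) (cont_Lap hC) u v 2 (C (1 / 2) * (X ^ 2 * θ))
      + SL (D2 h u) (cont_D2 hC u) u v 2 (C (1 / 2) * (X ^ 2 * θ))
      + (SL (D2 h v) (cont_D2 hC v) u v 0 (C (1 / 2) * (X ^ 4 * θ) - X * Q)
        - SL (fun x => Bf h x u v) (cont_Bf hC u v) u v 1 (X ^ 3 * θ - Q))

lemma RepP.lin {n : ℕ} {θ₁ Q₁ θ₂ Q₂ : ℝ[X]} (h1 : RepP n θ₁ Q₁) (h2 : RepP n θ₂ Q₂) (a b : ℝ) :
    RepP n (C a * θ₁ + C b * θ₂) (C a * Q₁ + C b * Q₂) := by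
  have hP : PP n (C a * θ₁ + C b * θ₂) (C a * Q₁ + C b * Q₂) =
      C a * PP n θ₁ Q₁ + C b * PP n θ₂ Q₂ := by
    unfold PP
    ring
  refine ⟨?_, ?_, ?_⟩
  · simp only [derivative_add, derivative_C_mul]
    rw [h1.hd, h2.hd]
    ring
  · simp only [eval_add, eval_mul, eval_C, h1.h0, h2.h0]
    ring
  · intro h hh hC u v hu hv huv
    have e1 := h1.hop h hh hC u v hu hv huv
    have e2 := h2.hop h hh hC u v hu hv huv
    rw [hP]
    have r1 : C a * PP n θ₁ Q₁ + C b * PP n θ₂ Q₂ -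
        X * derivative (C a * PP n θ₁ Q₁ + C b * PP n θ₂ Q₂)
        = a • (PP n θ₁ Q₁ - X * derivative (PP n θ₁ Q₁)) +
          b • (PP n θ₂ Q₂ - X * derivative (PP n θ₂ Q₂)) := by
      simp only [derivative_add, derivative_C_mul, smul_eq_C_mul]; ring
    have r2 : derivative (derivative (C a * PP n θ₁ Q₁ + C b * PP n θ₂ Q₂))
        = a • derivative (derivative (PP n θ₁ Q₁)) + b • derivative (derivative (PP n θ₂ Q₂)) := by
      simp only [derivative_add, derivative_C_mul, smul_eq_C_mul]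
    have r3 : C (1 / 2) * (X ^ 2 * (C a * θ₁ + C b * θ₂))
        = a • (C (1 / 2) * (X ^ 2 * θ₁)) + b • (C (1 / 2) * (X ^ 2 * θ₂)) := by
      simp only [smul_eq_C_mul]; ring
    have r4 : C (1 / 2) * (X ^ 4 * (C a * θ₁ + C b * θ₂)) - X * (C a * Q₁ + C b * Q₂)
        = a • (C (1 / 2) * (X ^ 4 * θ₁) - X * Q₁) + b • (C (1 / 2) * (X ^ 4 * θ₂) - X * Q₂) := by
      simp only [smul_eq_C_mul]; ring
    have r5 : X ^ 3 * (C a * θ₁ + C b * θ₂) - (C a * Q₁ + C b * Q₂)
        = a • (X ^ 3 * θ₁ - Q₁) + b • (X ^ 3 * θ₂ - Q₂) := by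
      simp only [smul_eq_C_mul]; ring
    rw [r3, r4, r5, r1, r2]
    simp only [map_add, map_smul, smul_eq_mul]
    linear_combination a * e1 + b * e2

lemma RepP.mono (hI : StIBS) {n : ℕ} (hn : 1 ≤ n) (j : ℕ) :
    RepP n (X ^ j) (C (1 / ((j : ℝ) + 3)) * X ^ (j + 3)) := by
  have hj : (j : ℝ) + 3 ≠ 0 := by positivity
  have hP : PP n (X ^ j) (C (1 / ((j : ℝ) + 3)) * X ^ (j + 3)) = pk n (j + 2) := by
    refine Polynomial.funext fun t => ?_
    rw [pk_eval]
    unfold PP gam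
    simp only [eval_sub, eval_mul, eval_pow, eval_X, eval_C, eval_one]
    push_cast
    field_simp
    ring
  refine ⟨?_, by simp, ?_⟩
  · rw [derivative_C_mul, derivative_X_pow]
    refine Polynomial.funext fun t => ?_
    simp only [eval_mul, eval_pow, eval_X, eval_C]
    have e1 : j + 3 - 1 = j + 2 := by omega
    rw [e1]
    push_cast
    field_simp
    ring
  · intro h hh hC u v hu hv huv
    have key := ident_mono hI hn hh hC (k := j + 2) (by omega) hu hv huv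
    have r1 : pk n (j + 2) - X * derivative (pk n (j + 2)) =
        (1 - ((j + 2 : ℕ) : ℝ)) • X ^ (j + 2) +
          (gam n (j + 2) * (((j + 2 : ℕ) : ℝ) + 1)) • X ^ (j + 2 + 2) := by
      refine Polynomial.funext fun t => ?_
      have := pk_der n (j + 2) (by omega) t
      simp only [eval_sub, eval_mul, eval_X, eval_add, eval_smul, eval_pow, smul_eq_mul]
      exact this
    have r2 : derivative (derivative (pk n (j + 2))) =
        (((j + 2 : ℕ) : ℝ) * (((j + 2 : ℕ) : ℝ) - 1)) • X ^ (j + 2 - 2) +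
          (-(gam n (j + 2) * (((j + 2 : ℕ) : ℝ) + 2) * (((j + 2 : ℕ) : ℝ) + 1))) • X ^ (j + 2) := by
      refine Polynomial.funext fun t => ?_
      have := pk_der2 n (j + 2) (by omega) t
      simp only [eval_add, eval_smul, eval_pow, eval_X, smul_eq_mul]
      rw [this]
      ring
    have r3 : C (1 / 2) * (X ^ 2 * X ^ j) = (1 / 2 : ℝ) • (X ^ (j + 2) : ℝ[X]) := by
      simp only [smul_eq_C_mul]; ring
    have r4 : C (1 / 2) * (X ^ 4 * X ^ j) - X * (C (1 / ((j : ℝ) + 3)) * X ^ (j + 3)) =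
        (((j + 2 : ℕ) : ℝ) / (((j + 2 : ℕ) : ℝ) + 1) - 1 / 2) • (X ^ (j + 2 + 2) : ℝ[X]) := by
      refine Polynomial.funext fun t => ?_
      simp only [eval_sub, eval_mul, eval_pow, eval_X, eval_C, eval_smul, smul_eq_mul]
      push_cast
      field_simp
      ring
    have r5 : X ^ 3 * X ^ j - C (1 / ((j : ℝ) + 3)) * X ^ (j + 3) =
        (((j + 2 : ℕ) : ℝ) / (((j + 2 : ℕ) : ℝ) + 1)) • (X ^ (j + 2 + 1) : ℝ[X]) := by
      refine Polynomial.funext fun t => ?_
      simp only [eval_sub, eval_mul, eval_pow, eval_X, eval_C, eval_smul, smul_eq_mul]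
      push_cast
      field_simp
      ring
    rw [hP, r1, r2, r3, r4, r5]
    simp only [map_add, map_smul, smul_eq_mul, SL_X_pow]
    linear_combination key

lemma RepP.zero (n : ℕ) : RepP n 0 0 := by
  refine ⟨by simp, by simp, ?_⟩
  intro h hh hC u v hu hv huv
  have : PP n 0 0 = 0 := by unfold PP; simp
  rw [this]
  simp

lemma exists_RepP (hI : StIBS) {n : ℕ} (hn : 1 ≤ n) (θ : ℝ[X]) : ∃ Q, RepP n θ Q := by
  induction θ using Polynomial.induction_on' with
  | add p q hp hq =>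
    obtain ⟨Q₁, h1⟩ := hp
    obtain ⟨Q₂, h2⟩ := hq
    have := h1.lin h2 1 1
    simp only [C_1, one_mul] at this
    exact ⟨_, this⟩
  | monomial j a =>
    have := (RepP.mono hI hn j).lin (RepP.zero n) a 0
    rw [← C_mul_X_pow_eq_monomial]
    simp only [mul_zero, add_zero] at this
    exact ⟨_, this⟩

lemma repP_of (hI : StIBS) {n : ℕ} (hn : 1 ≤ n) {θ Q : ℝ[X]} (hd : derivative Q = X ^ 2 * θ)
    (h0 : Q.eval 0 = 0) : RepP n θ Q := by
  obtain ⟨Q', h'⟩ := exists_RepP hI hn θ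
  have h1 : derivative (Q - Q') = 0 := by
    rw [derivative_sub, hd, h'.hd, sub_self]
  have h2 := Polynomial.eq_C_of_derivative_eq_zero h1
  have h3 : (Q - Q').eval 0 = 0 := by rw [eval_sub, h0, h'.h0, sub_self]
  rw [h2, eval_C] at h3
  rw [h3, C_0, sub_eq_zero] at h2
  rw [h2]
  exact h'

lemma point2 {ψ Ψ s t a b c L : ℝ} (hψ : 0 ≤ ψ) (hΨ : |Ψ| ≤ |t| * ψ / 3) (hs : 0 ≤ t * Ψ)
    (ha : 0 ≤ a) (hb : 0 ≤ b) (hc : c ^ 2 ≤ a * b) (hL : a + b ≤ L) :
    0 ≤ s ^ 2 * (ψ / 2) * L + s ^ 2 * (ψ / 2) * a + (t ^ 2 * ψ / 2 - t * Ψ) * b -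
      s * (t * ψ - Ψ) * c := by
  rcases hψ.eq_or_lt with h0 | h0
  · have h1 : Ψ = 0 := by
      rw [← h0, mul_zero, zero_div] at hΨ
      exact abs_nonpos_iff.1 hΨ
    rw [h1, ← h0]
    simp
  rcases eq_or_ne t 0 with ht | ht
  · have h1 : Ψ = 0 := by
      rw [ht, abs_zero, zero_mul, zero_div] at hΨ
      exact abs_nonpos_iff.1 hΨ
    rw [h1, ht]
    have : 0 ≤ s ^ 2 * (ψ / 2) * L := by
      have : 0 ≤ L := by linarith
      positivity
    have : 0 ≤ s ^ 2 * (ψ / 2) * a := by positivity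
    simp only [mul_zero, zero_mul, sub_zero, zero_div, ne_eq, OfNat.ofNat_ne_zero,
      not_false_eq_true, zero_pow, add_zero]
    linarith
  · have h1 : 2 / 3 ≤ 1 - Ψ / (t * ψ) := by
      have h2 : |Ψ / (t * ψ)| ≤ 1 / 3 := by
        rw [abs_div, abs_mul, abs_of_pos h0, div_le_iff₀ (by positivity)]
        linarith
      have := (abs_le.1 h2).2
      linarith
    have h2 : 1 - Ψ / (t * ψ) ≤ 1 := by
      have h3 : 0 ≤ Ψ / (t * ψ) := by
        have h4 : Ψ / (t * ψ) = (t * Ψ) / (t ^ 2 * ψ) := by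
          field_simp
        rw [h4]
        positivity
      linarith
    have h3 := point (s := s) (t := t) h1 h2 ha hb hc hL
    have h4 := mul_nonneg hψ h3
    refine h4.trans (le_of_eq ?_)
    field_simp
    ring

/-- the key inequality -/
theorem key_PP (hT : StTR2) (hI : StIBS) {n : ℕ} (hn : 1 ≤ n) {h : E n → ℝ} (hh : Sublinear h)
    (hC : ContDiffOn ℝ ∞ h {0}ᶜ) {θ Q : ℝ[X]} (hd : derivative Q = X ^ 2 * θ) (h0 : Q.eval 0 = 0)
    (hp : ∀ t ∈ Icc (-1 : ℝ) 1, 0 ≤ t ^ 2 * θ.eval t)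
    (hq : ∀ t ∈ Icc (-1 : ℝ) 1, |Q.eval t| ≤ |t| * (t ^ 2 * θ.eval t) / 3)
    (hs : ∀ t ∈ Icc (-1 : ℝ) 1, 0 ≤ t * Q.eval t) (u v : E n) (hu : ‖u‖ = 1)
    (hv : ‖v‖ = 1) (huv : (inner ℝ u v : ℝ) = 0) :
      0 ≤ ∫ w : sphere (0 : E n) 1, h w *
        (((PP n θ Q).eval (inner ℝ u (w : E n)) -
            inner ℝ u (w : E n) * (PP n θ Q).derivative.eval (inner ℝ u (w : E n)))
          + (PP n θ Q).derivative.derivative.eval (inner ℝ u (w : E n)) *
            (inner ℝ v (w : E n)) ^ 2)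
        ∂(volume : Measure (E n)).toSphere := by
  have huu : (inner ℝ u u : ℝ) = 1 := by rw [real_inner_self_eq_norm_sq, hu]; norm_num
  have hvv : (inner ℝ v v : ℝ) = 1 := by rw [real_inner_self_eq_norm_sq, hv]; norm_num
  have hop := (repP_of hI hn hd h0).hop h hh hC u v huu hvv huv
  have hch := cont_h hC
  have e1 : ∫ w : sphere (0 : E n) 1, h w *
        (((PP n θ Q).eval (inner ℝ u (w : E n)) -
            inner ℝ u (w : E n) * (PP n θ Q).derivative.eval (inner ℝ u (w : E n)))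
          + (PP n θ Q).derivative.derivative.eval (inner ℝ u (w : E n)) *
            (inner ℝ v (w : E n)) ^ 2)
        ∂(volume : Measure (E n)).toSphere
      = SL h (cont_h hC) u v 0 (PP n θ Q - X * derivative (PP n θ Q))
      + SL h (cont_h hC) u v 2 (derivative (derivative (PP n θ Q))) := by
    rw [SL_apply, SL_apply]
    unfold SI
    rw [← integral_add]
    · refine integral_congr_ae (Eventually.of_forall fun w => ?_)
      simp only [eval_sub, eval_mul, eval_X, pow_zero, one_mul]; ring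
    · exact sphere_integrable (φ := fun x => h x * ((inner ℝ v x) ^ 0
        * (PP n θ Q - X * derivative (PP n θ Q)).eval (inner ℝ u x))) (hch.mul (by fun_prop))
    · exact sphere_integrable (φ := fun x => h x * ((inner ℝ v x) ^ 2
        * (derivative (derivative (PP n θ Q))).eval (inner ℝ u x))) (hch.mul (by fun_prop))
  rw [e1, hop, SL_apply, SL_apply, SL_apply, SL_apply]
  set ψ : ℝ[X] := C (1 / 2) * (X ^ 2 * θ) with hψ
  set A : ℝ[X] := C (1 / 2) * (X ^ 4 * θ) - X * Q with hA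
  set B : ℝ[X] := X ^ 3 * θ - Q with hB
  have c1 : ContinuousOn (fun x : E n => Lap h x * ((inner ℝ v x) ^ 2 * ψ.eval (inner ℝ u x)))
      (sphere 0 1) := (cont_Lap hC).mul (by fun_prop)
  have c2 : ContinuousOn (fun x : E n => D2 h u x * ((inner ℝ v x) ^ 2 * ψ.eval (inner ℝ u x)))
      (sphere 0 1) := (cont_D2 hC u).mul (by fun_prop)
  have c3 : ContinuousOn (fun x : E n => D2 h v x * ((inner ℝ v x) ^ 0 * A.eval (inner ℝ u x)))
      (sphere 0 1) := (cont_D2 hC v).mul (by fun_prop)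
  have c4 : ContinuousOn (fun x : E n => Bf h x u v * ((inner ℝ v x) ^ 1 * B.eval (inner ℝ u x)))
      (sphere 0 1) := (cont_Bf hC u v).mul (by fun_prop)
  have e2 := SI_lin4 1 1 1 (-1) c1 c2 c3 c4
  have e3 : SI (fun x => Lap h x * ((inner ℝ v x) ^ 2 * ψ.eval (inner ℝ u x))) +
      SI (fun x => D2 h u x * ((inner ℝ v x) ^ 2 * ψ.eval (inner ℝ u x))) +
      (SI (fun x => D2 h v x * ((inner ℝ v x) ^ 0 * A.eval (inner ℝ u x))) -
        SI (fun x => Bf h x u v * ((inner ℝ v x) ^ 1 * B.eval (inner ℝ u x)))) =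
      SI (fun x : E n => 1 * (Lap h x * ((inner ℝ v x) ^ 2 * ψ.eval (inner ℝ u x))) +
        1 * (D2 h u x * ((inner ℝ v x) ^ 2 * ψ.eval (inner ℝ u x))) +
        (1 * (D2 h v x * ((inner ℝ v x) ^ 0 * A.eval (inner ℝ u x))) +
          (-1) * (Bf h x u v * ((inner ℝ v x) ^ 1 * B.eval (inner ℝ u x))))) := by
    rw [e2]
    ring
  rw [e3]
  unfold SI
  refine integral_nonneg fun w => ?_
  have hw : ‖(w : E n)‖ = 1 := by simp
  have hw0 := ne_zero_of_norm hw
  have b1 := D2_nonneg hh hC u hw0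
  have b2 := D2_nonneg hh hC v hw0
  have b3 := Bf_cs hh hC hw0 u v
  have b4 := hT n h hh hC w hw0 u v hu hv huv
  rw [← D2_eq_Bf hC hw0, ← D2_eq_Bf hC hw0] at b3 b4
  have htabs : |(inner ℝ u (w : E n) : ℝ)| ≤ 1 := by
    have := abs_real_inner_le_norm u (w : E n)
    rwa [hu, hw, one_mul] at this
  have ht' := abs_le.1 htabs
  have htm : (inner ℝ u (w : E n) : ℝ) ∈ Icc (-1 : ℝ) 1 := ⟨ht'.1, ht'.2⟩
  have b5 := point2 (s := inner ℝ v (w : E n)) (hp _ htm) (hq _ htm) (hs _ htm) b1 b2 b3 b4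
  show (0 : ℝ) ≤ 1 * (Lap h w * ((inner ℝ v (w : E n)) ^ 2 * ψ.eval (inner ℝ u (w : E n)))) +
        1 * (D2 h u w * ((inner ℝ v (w : E n)) ^ 2 * ψ.eval (inner ℝ u (w : E n)))) +
        (1 * (D2 h v w * ((inner ℝ v (w : E n)) ^ 0 * A.eval (inner ℝ u (w : E n)))) +
          (-1) * (Bf h w u v * ((inner ℝ v (w : E n)) ^ 1 * B.eval (inner ℝ u (w : E n)))))
  refine b5.trans (le_of_eq ?_)
  rw [hψ, hA, hB]
  simp only [eval_sub, eval_mul, eval_pow, eval_X, eval_C]
  ring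

end Pool.Agent.Helper62.PM6
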