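import Pool.Agent.Helper62.PM.HP

/-!
# Project PM part 7: the density `pr n r r'` is admissible
-/

set_option autoImplicit false

open MeasureTheory Metric Set Filter Topology Polynomial
open scoped RealInnerProductSpace ContDiff

namespace Pool.Agent.Helper62.PM6

open Pool.Agent.Helper62.Mink

lemma sign_Q {θ Q : ℝ[X]} (hd : derivative Q = X ^ 2 * θ) (h0 : Q.eval 0 = 0)
    (hp : ∀ t ∈ Icc (-1 : ℝ) 1, 0 ≤ t ^ 2 * θ.eval t) :
    ∀ t ∈ Icc (-1 : ℝ) 1, 0 ≤ t * Q.eval t := by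
  have hm : MonotoneOn (fun t => Q.eval t) (Icc (-1 : ℝ) 1) := by
    refine monotoneOn_of_deriv_nonneg (convex_Icc _ _) Q.continuous.continuousOn
      Q.differentiable.differentiableOn fun t ht => ?_
    rw [interior_Icc] at ht
    rw [Polynomial.deriv, hd]
    simp only [eval_mul, eval_pow, eval_X]
    exact hp t ⟨ht.1.le, ht.2.le⟩
  have hmem : (0 : ℝ) ∈ Icc (-1 : ℝ) 1 := ⟨by norm_num, by norm_num⟩
  intro t ht
  rcases le_total 0 t with h | h
  · have h1 := hm hmem ht h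
    simp only [h0] at h1
    positivity
  · have h1 := hm ht hmem h
    simp only [h0] at h1
    exact mul_nonneg_of_nonpos_of_nonpos h h1

lemma PP_eval (n : ℕ) (θ Q : ℝ[X]) (t : ℝ) : (PP n θ Q).eval t =
    (1 - t ^ 2 / 2) * (t ^ 2 * θ.eval t) - (n : ℝ) / 2 * t * Q.eval t := by
  unfold PP
  simp only [eval_sub, eval_mul, eval_pow, eval_X, eval_C, eval_one]
  ring

lemma Sub_PP (hT : StTR2) (hI : StIBS) {n : ℕ} (hn : 2 ≤ n) {θ Q : ℝ[X]}
    (hd : derivative Q = X ^ 2 * θ) (h0 : Q.eval 0 = 0)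
    (hp : ∀ t ∈ Icc (-1 : ℝ) 1, 0 ≤ t ^ 2 * θ.eval t)
    (hq : ∀ t ∈ Icc (-1 : ℝ) 1, |Q.eval t| ≤ |t| * (t ^ 2 * θ.eval t) / 3) :
    Sub n fun t => (PP n θ Q).eval t := by
  intro h hh x y
  have hpc : ContinuousOn (fun t => (PP n θ Q).eval t) (Icc (-1 : ℝ) 1) :=
    (PP n θ Q).continuous.continuousOn
  obtain ⟨M, hM0, hM⟩ := exists_bdd hpc
  refine subadd_lim hh.continuous hpc hM0 (fun ε hε => ?_) x y
  obtain ⟨h', hs, hC, hclose⟩ := exists_smooth hh hε
  refine ⟨h', fun t => (PP n θ Q).eval t, hs.continuous, hpc, ?_, ?_⟩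
  · intro w hw t ht
    have h1 := hclose w
    rw [hw, mul_one] at h1
    rw [← sub_mul, abs_mul]
    have h2 : |h w - h' w| ≤ ε := by rw [abs_sub_comm]; exact h1
    exact mul_le_mul h2 (hM t ht) (abs_nonneg _) hε.le
  · exact conv_add_le_of_key hn hs (PP n θ Q)
      (fun u v hu hv huv => key_PP hT hI (by omega) hs hC hd h0 hp hq (sign_Q hd h0 hp) u v hu hv huv)

lemma psi_cont (r r' : ℝ) : Continuous (psi r r') := by
  unfold psi
  fun_prop

lemma Psi_cont (r r' : ℝ) : Continuous (Psi r r') := by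
  unfold Psi
  fun_prop

lemma pr_cont (n : ℕ) (r r' : ℝ) : Continuous (pr n r r') := by
  unfold pr
  have h1 := psi_cont r r'
  have h2 := Psi_cont r r'
  fun_prop

lemma Sub_pr (hT : StTR2) (hI : StIBS) (hX : StAPX) {n : ℕ} (hn : 2 ≤ n) {r r' : ℝ} (hr : 0 < r)
    (hr' : 0 < r') : Sub n (pr n r r') := by
  intro h hh x y
  obtain ⟨M, hM0, hM⟩ := exists_bdd_h hh.continuous
  refine subadd_lim hh.continuous (pr_cont n r r').continuousOn
    (D := M * (1 + (n : ℝ) / 2)) (by positivity) (fun ε hε => ?_) x y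
  obtain ⟨θ, Q, hd, h0, hθ⟩ := hX r r' hr hr' ε hε
  refine ⟨h, fun t => (PP n θ Q).eval t, hh.continuous, (PP n θ Q).continuous.continuousOn, ?_, ?_⟩
  · intro w hw t ht
    obtain ⟨-, -, h3, h4⟩ := hθ t ht
    rw [← mul_sub, abs_mul]
    have ht1 : |t| ≤ 1 := abs_le.2 ht
    have e1 : pr n r r' t - (PP n θ Q).eval t =
        -((1 - t ^ 2 / 2) * (t ^ 2 * θ.eval t - psi r r' t)) +
          (n : ℝ) / 2 * t * (Q.eval t - Psi r r' t) := by
      rw [PP_eval]
      unfold pr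
      ring
    have e2 : |pr n r r' t - (PP n θ Q).eval t| ≤ ε * (1 + (n : ℝ) / 2) := by
      rw [e1]
      refine (abs_add_le _ _).trans ?_
      rw [abs_neg, abs_mul, abs_mul, abs_mul]
      have k1 : |1 - t ^ 2 / 2| ≤ 1 := by
        rw [abs_le]
        have : t ^ 2 ≤ 1 := by rw [← sq_abs]; nlinarith [abs_nonneg t]
        constructor <;> nlinarith [sq_nonneg t]
      have k2 : |(n : ℝ) / 2| = (n : ℝ) / 2 := abs_of_nonneg (by positivity)
      rw [k2]
      have k3 : |1 - t ^ 2 / 2| * |t ^ 2 * θ.eval t - psi r r' t| ≤ 1 * ε :=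
        mul_le_mul k1 h3 (abs_nonneg _) zero_le_one
      have k4 : (n : ℝ) / 2 * |t| * |Q.eval t - Psi r r' t| ≤ (n : ℝ) / 2 * 1 * ε :=
        mul_le_mul (mul_le_mul_of_nonneg_left ht1 (by positivity)) h4 (abs_nonneg _)
          (by positivity)
      linarith
    calc |h w| * |pr n r r' t - (PP n θ Q).eval t| ≤ M * (ε * (1 + (n : ℝ) / 2)) :=
          mul_le_mul (hM w hw) e2 (abs_nonneg _) hM0
      _ = ε * (M * (1 + (n : ℝ) / 2)) := by ring
  · exact Sub_PP hT hI hn hd h0 (fun t ht => (hθ t ht).1) (fun t ht => (hθ t ht).2.1) h hh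

end Pool.Agent.Helper62.PM6
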