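import Pool.Agent.Helper62.PM.St3

set_option autoImplicit false

open MeasureTheory Metric Set Filter Topology Polynomial
open scoped RealInnerProductSpace ContDiff

namespace Pool.Agent.Helper62.PM

open Pool.Agent.Helper62.Mink

/-- module SC -/
theorem hSC : StXA → StSB → StSC := by
  intro hXA hSB n e μ A N C hn hC hDop φ hφ
  have key : ∀ k : ℕ, ∀ φ : E n → ℝ, S1 φ → ContDiffOn ℝ k (A φ) {0}ᶜ := by
    intro k
    induction k with
    | zero =>
      intro φ hφ
      exact contDiffOn_zero.2 (hDop.cont φ hφ).continuousOn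
    | succ k ih =>
      intro φ hφ
      have hd := hSB n e μ A N C hn hC hDop φ hφ
      have h1 : ContDiffOn ℝ ((k : WithTop ℕ∞) + 1) (A φ) {0}ᶜ := by
        rw [contDiffOn_succ_iff_fderiv_of_isOpen isOpen_compl_singleton]
        refine ⟨fun x hx => (hd x hx).differentiableAt.differentiableWithinAt, by simp, ?_⟩
        have hcoord : ∀ i : Fin n, ContDiffOn ℝ k (fun x : E n => x i) {0}ᶜ := fun i =>
          (EuclideanSpace.proj i : E n →L[ℝ] ℝ).contDiff.contDiffOn
        have hn2 : ContDiffOn ℝ k (fun x : E n => ‖x‖ ^ 2) {0}ᶜ :=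
          (contDiff_norm_sq (E := E n) ℝ).contDiffOn
        have hc : ∀ j : Fin n, ContDiffOn ℝ k (fun x : E n => ((∑ i : Fin n, x i * A (Xd
          (EuclideanSpace.single i (1 : ℝ)) (EuclideanSpace.single j (1 : ℝ)) φ) x + x j * A φ x) /
            ‖x‖ ^ 2)) {0}ᶜ := by
          intro j
          refine ContDiffOn.div ?_ hn2 (fun x hx => by
            have : ‖x‖ ≠ 0 := norm_ne_zero_iff.2 hx
            positivity)
          refine ContDiffOn.add (ContDiffOn.sum fun i _ => ?_) ((hcoord j).mul (ih φ hφ))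
          exact (hcoord i).mul (ih _ ((hXA n).1 _ _ φ hφ))
        have hs : ContDiffOn ℝ k (fun x : E n => ∑ j : Fin n, ((∑ i : Fin n, x i * A (Xd
          (EuclideanSpace.single i (1 : ℝ)) (EuclideanSpace.single j (1 : ℝ)) φ) x + x j * A φ x) /
            ‖x‖ ^ 2) • (EuclideanSpace.proj j : E n →L[ℝ] ℝ)) {0}ᶜ := by
          apply ContDiffOn.sum
          intro j _
          have hk : ContDiffOn ℝ k (fun _ : E n => (EuclideanSpace.proj j : E n →L[ℝ] ℝ)) {0}ᶜ :=
            contDiffOn_const
          exact (hc j).smul hk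
        exact hs.congr fun x hx => (hd x hx).fderiv
      exact_mod_cast h1
  refine ⟨hDop.hom φ hφ, ?_⟩
  exact contDiffOn_infty.2 fun k => key k φ hφ

end Pool.Agent.Helper62.PM
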