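import Pool.Agent.Helper62.PM.St7

/-!
# Project PM part 7: the double cone inequality with the best linear function
-/

set_option autoImplicit false

open MeasureTheory Metric Set Filter Topology
open scoped RealInnerProductSpace ContDiff

namespace Pool.Agent.Helper62.PM6

open Pool.Agent.Helper62.Mink

private theorem cont_comp {f : ℝ → ℝ} (hf : ContinuousOn f (Icc (-1) 1)) :
    Continuous fun θ : ℝ => f (Real.cos θ) :=
  hf.comp_continuous Real.continuous_cos fun x => ⟨Real.neg_one_le_cos x, Real.cos_le_one x⟩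

private theorem int_cos (m : ℕ) (β α : ℝ) :
    ((m : ℝ) + 1) * ∫ θ in β..α, Real.cos θ * Real.sin θ ^ m =
      Real.sin α ^ (m + 1) - Real.sin β ^ (m + 1) := by
  rw [← intervalIntegral.integral_const_mul]
  apply intervalIntegral.integral_eq_sub_of_hasDerivAt
  · intro x _
    have h : HasDerivAt (fun y : ℝ => Real.sin y ^ (m + 1))
        (((m + 1 : ℕ) : ℝ) * Real.sin x ^ (m + 1 - 1) * Real.cos x) x :=
      (Real.hasDerivAt_sin x).pow (m + 1)
    rw [Nat.add_sub_cancel] at h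
    have e : ((m : ℝ) + 1) * (Real.cos x * Real.sin x ^ m) =
        ((m + 1 : ℕ) : ℝ) * Real.sin x ^ m * Real.cos x := by
      push_cast
      ring
    rw [e]
    exact h
  · apply Continuous.intervalIntegrable
    fun_prop

/-- the right half of the double cone functional -/
noncomputable def Ar (m : ℕ) (f : ℝ → ℝ) (β : ℝ) : ℝ :=
  f (Real.cos β) * Real.sin β ^ (m + 1) / Real.cos β +
    ((m : ℝ) + 1) * ∫ θ in β..(Real.pi / 2), f (Real.cos θ) * Real.sin θ ^ m

/-- the left half of the double cone functional -/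
noncomputable def Bl (m : ℕ) (f : ℝ → ℝ) (α : ℝ) : ℝ :=
  -(f (Real.cos α) * Real.sin α ^ (m + 1) / Real.cos α) +
    ((m : ℝ) + 1) * ∫ θ in (Real.pi / 2)..α, f (Real.cos θ) * Real.sin θ ^ m

private theorem dco_split (m : ℕ) {f : ℝ → ℝ} (hf : ContinuousOn f (Icc (-1) 1)) (β α : ℝ) :
    dco (m + 3) f β α = Ar m f β + Bl m f α := by
  have hc := cont_comp hf
  have e1 : m + 3 - 2 = m + 1 := by omega
  have e2 : m + 3 - 3 = m := by omega
  have e3 : (((m + 3 : ℕ) : ℝ) - 2) = (m : ℝ) + 1 := by push_cast; ring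
  have hi : ∀ a b : ℝ, IntervalIntegrable (fun θ => f (Real.cos θ) * Real.sin θ ^ m) volume a b :=
    fun a b => (hc.mul (Real.continuous_sin.pow m)).intervalIntegrable _ _
  unfold dco Ar Bl
  rw [e1, e2, e3, ← intervalIntegral.integral_add_adjacent_intervals (hi β (Real.pi / 2))
    (hi (Real.pi / 2) α)]
  ring

private theorem int_sub (m : ℕ) {f : ℝ → ℝ} (hf : ContinuousOn f (Icc (-1) 1)) (b β α : ℝ) :
    ((m : ℝ) + 1) * (∫ θ in β..α, (f (Real.cos θ) - b * Real.cos θ) * Real.sin θ ^ m) =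
      ((m : ℝ) + 1) * (∫ θ in β..α, f (Real.cos θ) * Real.sin θ ^ m) -
        b * (Real.sin α ^ (m + 1) - Real.sin β ^ (m + 1)) := by
  have hc := cont_comp hf
  have h1 : (∫ θ in β..α, (f (Real.cos θ) - b * Real.cos θ) * Real.sin θ ^ m) =
      (∫ θ in β..α, f (Real.cos θ) * Real.sin θ ^ m) -
        b * ∫ θ in β..α, Real.cos θ * Real.sin θ ^ m := by
    rw [← intervalIntegral.integral_const_mul, ← intervalIntegral.integral_sub]
    · congr 1
      funext θ
      ring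
    · exact (hc.mul (Real.continuous_sin.pow m)).intervalIntegrable _ _
    · apply Continuous.intervalIntegrable
      fun_prop
  have h2 := int_cos m β α
  rw [h1]
  linear_combination (-b) * h2

private theorem Ar_sub (m : ℕ) {f : ℝ → ℝ} (hf : ContinuousOn f (Icc (-1) 1)) (b β : ℝ)
    (hβ : Real.cos β ≠ 0) : Ar m (fun t => f t - b * t) β = Ar m f β - b := by
  have h1 := int_sub m hf b β (Real.pi / 2)
  have h3 : (f (Real.cos β) - b * Real.cos β) * Real.sin β ^ (m + 1) / Real.cos β =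
      f (Real.cos β) * Real.sin β ^ (m + 1) / Real.cos β - b * Real.sin β ^ (m + 1) := by
    field_simp
  rw [Real.sin_pi_div_two, one_pow] at h1
  unfold Ar
  rw [h3, h1]
  ring

private theorem Bl_sub (m : ℕ) {f : ℝ → ℝ} (hf : ContinuousOn f (Icc (-1) 1)) (b α : ℝ)
    (hα : Real.cos α ≠ 0) : Bl m (fun t => f t - b * t) α = Bl m f α + b := by
  have h1 := int_sub m hf b (Real.pi / 2) α
  have h3 : (f (Real.cos α) - b * Real.cos α) * Real.sin α ^ (m + 1) / Real.cos α =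
      f (Real.cos α) * Real.sin α ^ (m + 1) / Real.cos α - b * Real.sin α ^ (m + 1) := by
    field_simp
  rw [Real.sin_pi_div_two, one_pow] at h1
  unfold Bl
  rw [h3, h1]
  ring

private theorem Ar_neg (m : ℕ) (g : ℝ → ℝ) (hn : NegFirst g) :
    ∃ β : ℝ, 0 ≤ β ∧ β < Real.pi / 2 ∧ Ar m g β < 0 := by
  have hpi := Real.pi_pos
  obtain ⟨t0, ⟨ht0, ht1⟩, hsub, hgt⟩ := hn
  obtain ⟨β, hβ⟩ : ∃ β : ℝ, β = Real.arccos t0 := ⟨_, rfl⟩
  have hcβ : Real.cos β = t0 := by rw [hβ]; exact Real.cos_arccos (by linarith) ht1.le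
  have hβ0 : 0 < β := by rw [hβ]; exact Real.arccos_pos.2 ht1
  have hβ1 : β < Real.pi / 2 := by rw [hβ]; exact Real.arccos_lt_pi_div_two.2 ht0
  have hsβ : 0 < Real.sin β := Real.sin_pos_of_pos_of_lt_pi hβ0 (by linarith)
  refine ⟨β, hβ0.le, hβ1, ?_⟩
  have hneg : g t0 * Real.sin β ^ (m + 1) / t0 < 0 := by
    apply div_neg_of_neg_of_pos _ ht0
    exact mul_neg_of_neg_of_pos hgt (by positivity)
  have hnp : (∫ θ in β..(Real.pi / 2), g (Real.cos θ) * Real.sin θ ^ m) ≤ 0 := by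
    rw [intervalIntegral.integral_of_le hβ1.le, integral_Ioc_eq_integral_Ioo]
    apply setIntegral_nonpos measurableSet_Ioo
    intro θ hθ
    have h1 : 0 < Real.cos θ := Real.cos_pos_of_mem_Ioo ⟨by linarith [hθ.1], hθ.2⟩
    have h2 : Real.cos θ < Real.cos β :=
      Real.cos_lt_cos_of_nonneg_of_le_pi_div_two hβ0.le hθ.2.le hθ.1
    have h3 : g (Real.cos θ) ≤ 0 := hsub _ ⟨h1.le, by rw [hcβ] at h2; linarith⟩
    have h4 : 0 ≤ Real.sin θ :=
      Real.sin_nonneg_of_nonneg_of_le_pi (by linarith [hθ.1]) (by linarith [hθ.2])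
    exact mul_nonpos_of_nonpos_of_nonneg h3 (by positivity)
  have h5 : ((m : ℝ) + 1) * (∫ θ in β..(Real.pi / 2), g (Real.cos θ) * Real.sin θ ^ m) ≤ 0 :=
    mul_nonpos_of_nonneg_of_nonpos (by positivity) hnp
  unfold Ar
  rw [hcβ]
  linarith

private theorem Bl_refl (m : ℕ) (g : ℝ → ℝ) (β : ℝ) :
    Bl m g (Real.pi - β) = Ar m (fun t => g (-t)) β := by
  unfold Ar Bl
  have h1 : (∫ θ in (Real.pi / 2)..(Real.pi - β), g (Real.cos θ) * Real.sin θ ^ m) =
      ∫ θ in β..(Real.pi / 2), g (-Real.cos θ) * Real.sin θ ^ m := by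
    have h := intervalIntegral.integral_comp_sub_left
      (fun θ => g (Real.cos θ) * Real.sin θ ^ m) Real.pi (a := β) (b := Real.pi / 2)
    have e : Real.pi - Real.pi / 2 = Real.pi / 2 := by ring
    rw [e] at h
    rw [← h]
    congr 1
    funext θ
    rw [Real.cos_pi_sub, Real.sin_pi_sub]
  rw [h1, Real.cos_pi_sub, Real.sin_pi_sub, div_neg, neg_neg]

/-- if for every `b` one of the two sides of `f(t) - b t` is negative first, the double cone
inequality fails -/
theorem nec3 (n : ℕ) (hn : 3 ≤ n) (f : ℝ → ℝ) (hf : ContinuousOn f (Icc (-1) 1))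
    (hs : ∀ b : ℝ, NegFirst (fun t => f t - b * t) ∨ NegFirst (fun t => f (-t) + b * t))
    (h : ∀ β α : ℝ, 0 ≤ β → β < Real.pi / 2 → Real.pi / 2 < α → α ≤ Real.pi → 0 ≤ dco n f β α) :
    False := by
  have hpi := Real.pi_pos
  obtain ⟨m, rfl⟩ : ∃ m : ℕ, n = m + 3 := ⟨n - 3, by omega⟩
  have h' : ∀ β ∈ Ico 0 (Real.pi / 2), ∀ α ∈ Ioc (Real.pi / 2) Real.pi, -Bl m f α ≤ Ar m f β := by
    intro β hβ α hα
    have := h β α hβ.1 hβ.2 hα.1 hα.2
    rw [dco_split m hf] at this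
    linarith
  have h0 : (0 : ℝ) ∈ Ico 0 (Real.pi / 2) := ⟨le_rfl, by positivity⟩
  have hp : Real.pi ∈ Ioc (Real.pi / 2) Real.pi := ⟨by linarith, le_rfl⟩
  set S : Set ℝ := (fun β => Ar m f β) '' Ico 0 (Real.pi / 2) with hS
  have hne : S.Nonempty := ⟨_, 0, h0, rfl⟩
  have hbd : BddBelow S := by
    refine ⟨-Bl m f Real.pi, ?_⟩
    rintro x ⟨β, hβ, rfl⟩
    exact h' β hβ _ hp
  rcases hs (sInf S) with hs | hs
  · obtain ⟨β, hβ0, hβ1, hβ⟩ := Ar_neg m _ hs
    rw [Ar_sub m hf _ _ (Real.cos_pos_of_mem_Ioo ⟨by linarith, hβ1⟩).ne'] at hβ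
    have := csInf_le hbd ⟨β, ⟨hβ0, hβ1⟩, rfl⟩
    simp only at this
    linarith
  · obtain ⟨β, hβ0, hβ1, hβ⟩ := Ar_neg m _ hs
    have e : (fun t : ℝ => f (-t) + sInf S * t) = fun t => (fun s : ℝ => f s - sInf S * s) (-t) := by
      funext t
      show f (-t) + sInf S * t = f (-t) - sInf S * (-t)
      ring
    rw [e, ← Bl_refl m (fun s : ℝ => f s - sInf S * s) β, Bl_sub m hf _ _ (by
      rw [Real.cos_pi_sub]
      exact (neg_neg_of_pos (Real.cos_pos_of_mem_Ioo ⟨by linarith, hβ1⟩)).ne)] at hβ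
    have h1 : -Bl m f (Real.pi - β) ≤ sInf S := by
      refine le_csInf hne ?_
      rintro x ⟨β', hβ', rfl⟩
      exact h' β' hβ' _ ⟨by linarith, by linarith⟩
    linarith

end Pool.Agent.Helper62.PM6
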