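import Pool.Agent.Helper62.Mink.Final3

/-!
# Project PM (MP_ae3a4d_gt): admissible maps average the directional radii of curvature

THEOREM.  Let `n ≥ 3` and `e, v` orthonormal.  (A) For every admissible `T` there is a finite POSITIVE measure `m` on the
orthonormal pairs with `r_{TK}(θe,θv) = ∫ r_K(θx,θy) dm(x,y)` for all rotations `θ` and all `K` with `C^∞` support function,
`r_K(x,y) = D²h_K(x)(y,y)` (left side: limit of second difference quotients along the great circle).  (B) A zonal signed measure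
`P - N` on the sphere generates an admissible map if and only if there is a finite positive `m` on the orthonormal pairs with
`∫ Lop φ d(P-N) = ∫ D²φ(x)(y,y) dm(x,y)` for all `φ` homogeneous of degree one and `C^∞` off `0`, `Lop φ = (∂_t² + 1) φ(R_t x)` at `t = 0`.

Known lemmas (landed, imported here): `Mink.D2`, `Mink.cda`, `Mink.cda1`, `Mink.cda2`, `Mink.D2_nonneg`, `Mink.lineD`,
`Mink.hasDerivAt_line`, `Mink.D2_eq_Bf`, `Mink.Bf_symm`, `Mink.Bf_w` (Hessian form), `Mink.exists_smooth` (smoothing of sublinear functions),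
`Mink.exists_body`, `Mink.supp_sublinear`, `Mink.supp_add`, `Mink.supp_rot`, `Mink.supp_inj`, `Mink.dist_le_of_supp`, `Mink.abs_supp_sub_le`,
`Mink.Sublinear.continuous`, `Mink.exists_rot`.
-/

set_option autoImplicit false

open MeasureTheory Metric Set Filter Topology
open scoped RealInnerProductSpace ContDiff

namespace Pool.Agent.Helper62.PM

open Pool.Agent.Helper62.Mink

/-! ## Definitions -/

/-- `φ` is positively homogeneous of degree one and `C^∞` off the origin -/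
structure S1 {n : ℕ} (φ : E n → ℝ) : Prop where
  hom : ∀ c : ℝ, 0 ≤ c → ∀ x, φ (c • x) = c * φ x
  smooth : ContDiffOn ℝ ∞ φ {0}ᶜ

/-- orthonormal pairs -/
def ON {n : ℕ} (p : E n × E n) : Prop :=
  ‖p.1‖ = 1 ∧ ‖p.2‖ = 1 ∧ (inner ℝ p.1 p.2 : ℝ) = 0

/-- the rotation by the angle `t` in the plane of `e` and `v` -/
noncomputable def rp {n : ℕ} (e v : E n) (t : ℝ) (x : E n) : E n :=
  x + ((Real.cos t - 1) * inner ℝ e x - Real.sin t * inner ℝ v x) • e +
    (Real.sin t * inner ℝ e x + (Real.cos t - 1) * inner ℝ v x) • v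

/-- the second difference quotient along the rotations `rp` -/
noncomputable def quo {n : ℕ} (e v : E n) (F : E n → ℝ) (s : ℝ) (x : E n) : ℝ :=
  (F (rp e v s x) + F (rp e v (-s) x) - 2 * Real.cos s * F x) / s ^ 2

/-- `(∂_t² + 1) φ(R_t x)` at `t = 0` -/
noncomputable def Lop {n : ℕ} (e v : E n) (φ : E n → ℝ) (x : E n) : ℝ :=
  deriv (deriv fun t => φ (rp e v t x)) 0 + φ x

/-- the second difference quotient of the function `(x,y) ↦ D²φ(x)(y,y)` -/
noncomputable def quo2 {n : ℕ} (e v : E n) (φ : E n → ℝ) (s : ℝ) (p : E n × E n) : ℝ :=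
  (D2 φ (rp e v s p.2) (rp e v s p.1) + D2 φ (rp e v (-s) p.2) (rp e v (-s) p.1) -
    2 * Real.cos s * D2 φ p.2 p.1) / s ^ 2

/-- invariance of a measure on the sphere under the rotations which fix `e` -/
def Zon {n : ℕ} (e : E n) (P : Measure (sphere (0 : E n) 1)) : Prop :=
  ∀ θ : E n ≃ₗᵢ[ℝ] E n, IsRot θ → θ e = e → ∀ φ : E n → ℝ, Continuous φ →
    ∫ w : sphere (0 : E n) 1, φ (θ (w : E n)) ∂P = ∫ w : sphere (0 : E n) 1, φ (w : E n) ∂P

/-- the zonal signed measure `P - N` generates `T` -/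
def Gen {n : ℕ} (e : E n) (P N : Measure (sphere (0 : E n) 1))
    (T : ConvexBody (E n) → ConvexBody (E n)) : Prop :=
  ∀ K : ConvexBody (E n), ContDiffOn ℝ ∞ (supp K) {0}ᶜ → ∀ θ : E n ≃ₗᵢ[ℝ] E n, IsRot θ →
    supp (T K) (θ e) = ∫ w : sphere (0 : E n) 1, supp K (θ (w : E n)) ∂P -
      ∫ w : sphere (0 : E n) 1, supp K (θ (w : E n)) ∂N

/-- the properties of the linear extension of an admissible map to `S1` -/
structure Ext {n : ℕ} (T : ConvexBody (E n) → ConvexBody (E n)) (A : (E n → ℝ) → E n → ℝ) (C : ℝ) :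
    Prop where
  add : ∀ φ ψ : E n → ℝ, S1 φ → S1 ψ → ∀ x, A (fun z => φ z + ψ z) x = A φ x + A ψ x
  smul : ∀ (c : ℝ) (φ : E n → ℝ), S1 φ → ∀ x, A (fun z => c * φ z) x = c * A φ x
  body : ∀ K : ConvexBody (E n), ContDiffOn ℝ ∞ (supp K) {0}ᶜ → ∀ x, A (supp K) x = supp (T K) x
  rot : ∀ θ : E n ≃ₗᵢ[ℝ] E n, IsRot θ → ∀ φ : E n → ℝ, S1 φ →
    ∀ x, A (fun z => φ (θ z)) x = A φ (θ x)
  bound : ∀ φ : E n → ℝ, S1 φ → ∀ a b : ℝ, (∀ x, ‖x‖ = 1 → |φ x| ≤ a) →
    (∀ p : E n × E n, ON p → |D2 φ p.2 p.1| ≤ b) → ∀ x, ‖x‖ = 1 → |A φ x| ≤ C * (a + b)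
  pos : ∀ φ : E n → ℝ, S1 φ → Sublinear φ → Sublinear (A φ)

/-- the linear operator `h ↦ h * (P - N)` -/
structure Cv {n : ℕ} (e : E n) (P N : Measure (sphere (0 : E n) 1)) (F : (E n → ℝ) → E n → ℝ) (M : ℝ) :
    Prop where
  hom : ∀ h : E n → ℝ, ∀ c : ℝ, 0 ≤ c → ∀ x, F h (c • x) = c * F h x
  pole : ∀ h : E n → ℝ, Continuous h → ∀ θ : E n ≃ₗᵢ[ℝ] E n, IsRot θ →
    F h (θ e) = ∫ w : sphere (0 : E n) 1, h (θ (w : E n)) ∂P - ∫ w : sphere (0 : E n) 1, h (θ (w : E n)) ∂N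
  close : ∀ h k : E n → ℝ, Continuous h → Continuous k → ∀ δ : ℝ,
    (∀ x, ‖x‖ = 1 → |h x - k x| ≤ δ) → ∀ x, |F h x - F k x| ≤ M * δ * ‖x‖
  cont : ∀ h : E n → ℝ, Continuous h → Continuous (F h)
  add : ∀ h k : E n → ℝ, Continuous h → Continuous k → ∀ x, F (fun z => h z + k z) x = F h x + F k x
  rot : ∀ θ : E n ≃ₗᵢ[ℝ] E n, IsRot θ → ∀ h : E n → ℝ, Continuous h → ∀ x, F (fun z => h (θ z)) x = F h (θ x)

/-! ## Modules -/

/-- A (90 lines).  The maps `rp` are rotations.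
PROOF.  `rp e v t` is linear; with `c = cos t`, `s = sin t`, `⟨e,e⟩ = ⟨v,v⟩ = 1`, `⟨e,v⟩ = 0` all identities are computations (`module`,
`inner_add_left`, `inner_smul_left`, `nlinarith`/`linear_combination` with `sin² + cos² = 1`; `Real.cos_add`, `Real.sin_add`).  Linear isometry
equivalence: norm preserving linear map with inverse `rp e v (-t)`.  `det = 1`: `θ_t = θ_(t/2) ∘ θ_(t/2)`, so `det θ_t = (det θ_(t/2))²`, and
the determinant of a linear isometry is `±1` (`LinearIsometryEquiv` / `LinearMap.det` and the adjoint, or `‖det‖ = 1`).  Hypotheses: . -/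
def StA : Prop :=
  ∀ (n : ℕ) (e v : E n), ON (e, v) →
    (∀ t : ℝ, ∃ θ : E n ≃ₗᵢ[ℝ] E n, IsRot θ ∧ ∀ x, θ x = rp e v t x) ∧
    (∀ (s t : ℝ) (x : E n), rp e v s (rp e v t x) = rp e v (s + t) x) ∧
    (∀ x : E n, rp e v 0 x = x) ∧
    (∀ t : ℝ, rp e v t e = Real.cos t • e + Real.sin t • v)

/-- B (90 lines).  Uniform second difference quotients with a parameter in a compact space.
PROOF.  Taylor with the mean value theorem: `u s x + u (-s) x - 2 u 0 x = s²/2 (u2 a x + u2 b x)`-type bound: for `|t| ≤ |s|`,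
`|u1 t x - u1 0 x - t u2 0 x| ≤ |t| ω(s)` and `|u s x + u (-s) x - 2 u 0 x - s² u2 0 x| ≤ s² ω(s)`, `ω(s) = sup_{|t|≤s, x} |u2 t x - u2 0 x| → 0`
(uniform continuity of `u2` on the compact set `[-1,1] × X`; `CompactSpace`, `IsCompact.uniformContinuousOn_of_continuous` or the tube lemma
`generalized_tube_lemma`: only needs: for `ε > 0` there is `δ` with `|u2 t x - u2 0 x| ≤ ε` for `|t| ≤ δ` and all `x`).  And
`|2 (1 - cos s)/s² - 1| ≤ s²/12`-type bound (`Real.one_sub_sq_div_two_le_cos`, `Real.cos_bound` or `Real.cos_le_one_sub_...`; any bound which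
tends to `0` is fine), times `|u 0 x| ≤ M`.  Hypotheses: . -/
def StB : Prop :=
  ∀ (X : Type) [TopologicalSpace X] [CompactSpace X] (u u1 u2 : ℝ → X → ℝ),
    (∀ t x, HasDerivAt (fun t => u t x) (u1 t x) t) → (∀ t x, HasDerivAt (fun t => u1 t x) (u2 t x) t) →
    Continuous (fun q : ℝ × X => u2 q.1 q.2) → Continuous (fun x => u 0 x) →
    ∀ ε : ℝ, 0 < ε → ∃ δ : ℝ, 0 < δ ∧ ∀ s : ℝ, 0 < s → s < δ → ∀ x : X,
      |(u s x + u (-s) x - 2 * Real.cos s * u 0 x) / s ^ 2 - (u2 0 x + u 0 x)| ≤ ε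

/-- C (150 lines).  The quotients converge uniformly.
PROOF.  Let `G : E n × E n → ℝ` be `C^∞` on `U = {p | p.1 ≠ 0}` (open), `γ(t,p) = (rp e v t p.1, rp e v t p.2)`, `C^∞` in `(t,p)`, with values in `U`
for `p ∈ U` (StA: `rp e v t` is injective).  For `X` the subtype of the orthonormal pairs (compact: closed and bounded in a proper space) let
`u t p = G (γ (t,p))`, `u1 t p = fderiv ℝ (fun q : ℝ × (E n × E n) => G (γ q)) (t,p) (1,0)`, `u2` the same once more: jointly continuous (`ContDiffOn` on the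
open set `univ ×ˢ U`), so StB applies.  (1) `G p = φ p.1` (for `n ≥ 2` every unit vector is the first vector of an orthonormal pair; or use
StB with `X = sphere`): the limit is `u2 0 x + u 0 x = Lop e v φ x` (`deriv` of `HasDerivAt`).  (2) `G p = D2 φ p.2 p.1`, which is `C^∞` on `U`
(`D2 φ y x = fderiv ℝ (fderiv ℝ φ) x y y`, see `Mink.D2_eq_Bf`).  (3) `Lop e v φ` is continuous on the sphere (it is `u2 0 x + φ x`).
Hypotheses: StA StB. -/
def StC : Prop :=
  ∀ (n : ℕ) (e v : E n) (φ : E n → ℝ), ON (e, v) → S1 φ →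
    (∀ ε : ℝ, 0 < ε → ∃ δ : ℝ, 0 < δ ∧ ∀ s : ℝ, 0 < s → s < δ → ∀ x : E n, ‖x‖ = 1 →
      |quo e v φ s x - Lop e v φ x| ≤ ε) ∧
    (∃ ρ : E n × E n → ℝ, ∀ ε : ℝ, 0 < ε → ∃ δ : ℝ, 0 < δ ∧ ∀ s : ℝ, 0 < s → s < δ →
      ∀ p : E n × E n, ON p → |quo2 e v φ s p - ρ p| ≤ ε) ∧
    ContinuousOn (Lop e v φ) (sphere 0 1)

/-- D (130 lines).  The class `S1` and the radii `D2 φ y x`.
PROOF.  `S1` is closed under sums, multiples and composition with isometries (`θ x = 0` iff `x = 0`), contains the norm (`contDiffAt_norm`); `D2` is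
linear in `φ` at `x ≠ 0` (`fderiv_add` for `C^∞` functions, eventually near `x`), `D2 (φ ∘ θ) y x = D2 φ (θ y) (θ x)` (chain rule, `fderiv_comp`),
`D2 ‖·‖ y x = 1` for orthonormal `(x,y)` (`fderiv ‖·‖ x y = ⟨x,y⟩/‖x‖` near `x`, or with `Mink.lineD`/`Mink.hasDerivAt_line`: `‖x + τ y‖ = √(1+τ²)`), `(x,y) ↦ D2 φ y x` is
continuous on the set of orthonormal pairs (`Mink.D2_eq_Bf`).  Continuity of `φ`: off `0` smooth, at `0`: `|φ x| ≤ M ‖x‖`.  Hypotheses: . -/
def StD : Prop :=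
  ∀ n : ℕ, (∀ φ ψ : E n → ℝ, S1 φ → S1 ψ → S1 (fun z => φ z + ψ z) ∧
      ∀ p : E n × E n, ON p → D2 (fun z => φ z + ψ z) p.2 p.1 = D2 φ p.2 p.1 + D2 ψ p.2 p.1) ∧
    (∀ (c : ℝ) (φ : E n → ℝ), S1 φ → S1 (fun z => c * φ z) ∧
      ∀ p : E n × E n, ON p → D2 (fun z => c * φ z) p.2 p.1 = c * D2 φ p.2 p.1) ∧
    (∀ (θ : E n ≃ₗᵢ[ℝ] E n) (φ : E n → ℝ), S1 φ → S1 (fun z => φ (θ z)) ∧
      ∀ p : E n × E n, ON p → D2 (fun z => φ (θ z)) p.2 p.1 = D2 φ (θ p.2) (θ p.1)) ∧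
    (S1 (fun z : E n => ‖z‖) ∧ ∀ p : E n × E n, ON p → D2 (fun z : E n => ‖z‖) p.2 p.1 = 1) ∧
    (∀ φ : E n → ℝ, S1 φ → Continuous φ ∧ ContinuousOn (fun p : E n × E n => D2 φ p.2 p.1) {p | ON p})

/-- E (170 lines).  Sublinearity from second differences along great circles.
PROOF.  (i) Plane: let `a, b` be orthonormal, `g t = F (cos t • a + sin t • b)`, continuous.  By the hypothesis for the pair
`(cos t • a + sin t • b, -sin t • a + cos t • b)`: `(g (t+s) + g (t-s) - 2 cos s g t)/s² → c ≥ 0` as `s → 0+`, for every `t`.  CLAIM: for `α, β > 0`,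
`α + β < π`: `sin(α+β) g 0 ≤ sin β g(-α) + sin α g β`.  Subtract from `g` the combination `A cos t + B sin t` which has the same values at
`-α, β` (this changes no quotient: `cos(t+s) + cos(t-s) = 2 cos s cos t`): `G(-α) = G(β) = 0`, `G` continuous, quotients tend to numbers `≥ 0`;
to show `G 0 ≤ 0`.  Otherwise let `k t = cos(ω (t - (β-α)/2))` with `1 < ω`, `ω (α+β)/2 < π/2`: positive on `[-α,β]`; let `M > 0` be the maximum of `G/k` on
`[-α,β]`, attained at an interior `t*`.  Then `H = G - M k ≤ 0` on `[-α,β]`, `H t* = 0`, so `(H(t*+s) + H(t*-s) - 2 cos s H t*)/s² ≤ 0`; but its limit is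
`≥ 0 - M (k'' + k)(t*) = M (ω²-1) k(t*) > 0`.  (ii) Space: `x, y` linearly independent, `z = x + y ≠ 0`, `a = z/‖z‖`, `b` the unit vector of the plane
orthogonal to `a` with `⟨y,b⟩ > 0`; `x = ‖x‖ (cos α a - sin α b)`, `y = ‖y‖ (cos β a + sin β b)` with `‖x‖ sin α = ‖y‖ sin β`, `‖z‖ = ‖x‖ cos α + ‖y‖ cos β`,
`α, β > 0`, `α + β < π`: multiply the claim by `‖x‖ sin α/(sin α sin β) ..` to get `F z ≤ F x + F y`.  (iii) dependent `x, y`: approximate `y` by
`y + ε w`, `w` not in the line (`n ≥ 2`), continuity (or homogeneity if they point the same way).  Hypotheses: . -/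
def StE : Prop :=
  ∀ (n : ℕ) (F : E n → ℝ), 2 ≤ n → Continuous F → (∀ c : ℝ, 0 ≤ c → ∀ x, F (c • x) = c * F x) →
    (∀ a b : E n, ON (a, b) → ∃ c : ℝ, 0 ≤ c ∧ Tendsto (fun s : ℝ =>
      (F (Real.cos s • a + Real.sin s • b) + F (Real.cos s • a - Real.sin s • b) -
        2 * Real.cos s * F a) / s ^ 2) (𝓝[>] 0) (𝓝 c)) →
    ∀ x y, F (x + y) ≤ F x + F y

/-- F (90 lines).  The limit for a smooth function.
PROOF.  `g s = φ (cos s • a + sin s • b)`; `g' = Dφ(γ)(γ')`, `g'' = D²φ(γ)(γ',γ') + Dφ(γ)(γ'')`, at `s = 0`: `γ = a`, `γ' = b`, `γ'' = -a`, Euler `Dφ(a) a = φ a`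
(derivative of `φ((1+τ) a) = (1+τ) φ a`), so `g''(0) + g(0) = D2 φ b a`.  `g` is `C²` near `0`, so `(g s + g (-s) - 2 g 0)/s² → g''(0)` (l'Hopital twice, or
Taylor, or StB with `X = Unit` after a change of `g` off a neighbourhood of `0`: `γ s ≠ 0` for all `s`, so `g` is `C^∞` on all of `ℝ` and StB applies
directly), `2 (1 - cos s)/s² → 1`.  Hypotheses: StB. -/
def StF : Prop :=
  ∀ (n : ℕ) (φ : E n → ℝ) (a b : E n), ON (a, b) → S1 φ → Tendsto (fun s : ℝ =>
      (φ (Real.cos s • a + Real.sin s • b) + φ (Real.cos s • a - Real.sin s • b) -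
        2 * Real.cos s * φ a) / s ^ 2) (𝓝[>] 0) (𝓝 (D2 φ b a))

/-- G (110 lines).  Positive functionals on a space of continuous functions which contains `1` are integrals.
PROOF.  On the range of `r` (a submodule of `C(X,ℝ)`) let `f (r φ) = Λ φ`: well defined and linear, since `r φ = r ψ` gives `0 ≤ r (φ-ψ)` and
`0 ≤ r (ψ-φ)`, so `Λ φ = Λ ψ`.  `riesz_extension` (M. Riesz) for the cone of the nonnegative functions: `y + ‖y‖ • 1 ≥ 0`.  The extension is
a positive linear functional on `C(X,ℝ)`, `X` compact: Riesz-Markov-Kakutani (`RealRMK.rieszMeasure`, `RealRMK.integral_rieszMeasure`, for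
`C_c(X,ℝ)`: compose with the map `C_c(X,ℝ) → C(X,ℝ)`), the measure is finite on compacts, hence finite.  Hypotheses: . -/
def StG : Prop :=
  ∀ (X : Type) [TopologicalSpace X] [CompactSpace X] [T2Space X] [MeasurableSpace X] [BorelSpace X]
    (V : Type) [AddCommGroup V] [Module ℝ V] (r : V →ₗ[ℝ] C(X, ℝ)) (Λ : V →ₗ[ℝ] ℝ) (u : V),
    (∀ x, r u x = 1) → (∀ φ, (∀ x, 0 ≤ r φ x) → 0 ≤ Λ φ) →
    ∃ m : Measure X, IsFiniteMeasure m ∧ ∀ φ, Λ φ = ∫ x, r φ x ∂m

/-- H (120 lines).  Admissible maps are bounded and homogeneous.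
PROOF.  `supp` of `T {0}` is `0` (`{0} + {0} = {0}`).  `supp (T (k K)) = k supp (T K)` for natural `k` (`k K` is a sum of `k` copies, compare support
functions, `Mink.supp_inj`).  By continuity at `{0}` there is `δ > 0` with `|supp K x| ≤ δ ‖x‖ for all x` implies `|supp (T K) x| ≤ ‖x‖` (`Mink.dist_le_of_supp`,
`Mink.abs_supp_sub_le`).  If `|supp K| ≤ ρ ‖·‖`, `ρ > 0`: take naturals `j, k ≥ 1` with `j ρ / k ≤ δ` and `k/j ≤ 2ρ/δ`, `K' = (j/k) K` (`Mink.exists_body`);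
`supp (T K) = (k/j) supp (T K')`.  So `|supp (T K) x| ≤ (2ρ/δ) ‖x‖`; `ρ = 0` is `K = {0}`.  Real homogeneity: rational factors as before,
`supp (T (c K)) - supp (T (q K)) = supp (T ((c - q) K))` for rational `q ≤ c`, which is `O(c - q)`.  Hypotheses: . -/
def StH : Prop :=
  ∀ (n : ℕ) (T : ConvexBody (E n) → ConvexBody (E n)), Admissible T →
    (∃ C : ℝ, 0 ≤ C ∧ ∀ (K : ConvexBody (E n)) (ρ : ℝ), 0 ≤ ρ → (∀ x, |supp K x| ≤ ρ * ‖x‖) →
      ∀ x, |supp (T K) x| ≤ C * ρ * ‖x‖) ∧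
    (∀ (K L : ConvexBody (E n)) (c : ℝ), 0 ≤ c → (∀ x, supp L x = c * supp K x) →
      ∀ x, supp (T L) x = c * supp (T K) x)

/-- I (170 lines).  The linear extension of an admissible map.
PROOF.  Let `φ ∈ S1`.  `|D2 φ y x| ≤ b` on the orthonormal pairs for some `b` (compact, StD).  If `c ≥ b`, `φ + c ‖·‖` is sublinear: StE with
StF and StD.  So there is a body `K` with `supp K = φ + c ‖·‖` (`Mink.exists_body`); `B` the body with `supp B = ‖·‖`;
`A φ x = supp (T K) x - c supp (T B) x`.  Independence of `c`: `φ + c‖·‖ + c'‖·‖` in two ways, additivity (`Mink.supp_add`, `Mink.supp_inj`) and StH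
(`supp (T (c B)) = c supp (T B)`).  In general: if `supp K₁ - supp K₂ = φ` then `A φ = supp (T K₁) - supp (T K₂)`.  `add`, `smul` (negative `c`:
`-φ = supp K₂ - supp K₁`), `body` (`c = 0` not needed: `K₁ = K`, `K₂ = {0}`), `rot` (`supp (Mink.rot θ K) x = supp K (θ⁻¹ x)`, `Mink.supp_rot`), `pos` (`φ` sublinear is
`supp K`, then `A φ = supp (T K)`) follow.  `bound`: take `c = b` (may assume `b ≥ 0`: there is an orthonormal pair if `n ≥ 2`), `|supp K x| ≤ (a + b) ‖x‖`, so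
`|A φ x| ≤ C (a+b) + b C`; replace `C` by `2C`.  Hypotheses: StD StE StF StH. -/
def StI : Prop :=
  ∀ (n : ℕ) (T : ConvexBody (E n) → ConvexBody (E n)), 2 ≤ n → Admissible T →
    ∃ (A : (E n → ℝ) → E n → ℝ) (C : ℝ), 0 ≤ C ∧ Ext T A C

/-- L (120 lines).  Rotations act transitively on orthonormal pairs if `n ≥ 3`.
PROOF.  Extend `(e,v)` and `(a,b)` to orthonormal bases with index type `Fin n` (`Orthonormal.exists_orthonormalBasis_extension_of_card_eq`), the isometry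
which maps one to the other has determinant `±1`; if it is `-1` compose with the reflection which changes the sign of the third vector of the
second basis (`n ≥ 3`).  See the proof of `Mink.exists_rot` (reflections).  Alternative: `Mink.exists_rot` for the first vector, then a product of two
reflections in hyperplanes containing `a` (for `v' ≠ b` orthogonal to `a` the reflection exchanging them, and the reflection in the hyperplane
orthogonal to a unit vector orthogonal to `a` and `b`).  Hypotheses: . -/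
def StL : Prop :=
  ∀ (n : ℕ) (e v a b : E n), 3 ≤ n → ON (e, v) → ON (a, b) →
    ∃ θ : E n ≃ₗᵢ[ℝ] E n, IsRot θ ∧ θ e = a ∧ θ v = b

/-- M (170 lines).  The operator `h ↦ h * (P - N)`.
PROOF.  For `u ≠ 0` choose a rotation `θ_u` with `θ_u e = u/‖u‖` (`Mink.exists_rot`), depending only on `u/‖u‖`; `F h u = ‖u‖ (∫ h (θ_u w) dP - ∫ h (θ_u w) dN)`,
`F h 0 = 0`.  `pole`: `θ⁻¹ θ_u` fixes `e` for `u = θ e`: `Zon` with the function `h ∘ θ`.  `close`: the integrals over finite measures, `M = P(S) + N(S)`.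
`add`, `hom`, `rot` (`F (h ∘ θ) (η e) = F h (θ η e)`; every `x ≠ 0` is `‖x‖ η e`) follow.  `cont`: at `x₀ ≠ 0`, for `x` near `x₀` there is a rotation `R` with
`R x₀/‖x₀‖ = x/‖x‖` and `sup_w ‖R w - w‖ → 0` as `x → x₀` (product of two reflections, or `rp`); with `θ = θ_{x₀}`: `F h x = ‖x‖ (∫ h (R θ w) dP - ..)`, uniform continuity of
`h` on the sphere.  A cheaper way: `h` Lipschitz on the sphere first is not needed.  At `0`: `|F h x| ≤ M sup|h| ‖x‖`.  Hypotheses: StA. -/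
def StM : Prop :=
  ∀ (n : ℕ) (e : E n) (P N : Measure (sphere (0 : E n) 1)), 2 ≤ n → ‖e‖ = 1 →
    IsFiniteMeasure P → IsFiniteMeasure N → Zon e P → Zon e N →
    ∃ (F : (E n → ℝ) → E n → ℝ) (M : ℝ), 0 ≤ M ∧ Cv e P N F M

/-- N (130 lines).  Subadditivity of `h * (P - N)` for smooth sublinear `h`.
PROOF.  `h ∈ S1`.  StE for `F h` (continuous by `Cv.cont`, homogeneous).  Let `(a,b)` be orthonormal, `θ` a rotation with `θ e = a`, `θ v = b` (StL).
`cos s • a ± sin s • b = θ (rp e v (±s) e) = (θ ∘ R_±s) e` (StA), so by `Cv.pole` the quotient is `∫ quo e v (h ∘ θ) s w dP - ∫ .. dN`, which tends to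
`∫ Lop e v (h ∘ θ) dP - ∫ .. dN` (StC: uniform convergence on the sphere, finite measures, integrability by continuity), which by the hypothesis for
`φ = h ∘ θ ∈ S1` (StD) is `∫ D2 (h ∘ θ) p.2 p.1 dm = ∫ D2 h (θ p.2) (θ p.1) dm ≥ 0` (`Mink.D2_nonneg`; almost every `p` is orthonormal).
Hypotheses: StA StC StD StE StL. -/
def StN : Prop :=
  ∀ (n : ℕ) (e v : E n) (P N : Measure (sphere (0 : E n) 1)) (F : (E n → ℝ) → E n → ℝ) (M : ℝ)
    (m : Measure (E n × E n)), 3 ≤ n → ON (e, v) → IsFiniteMeasure P → IsFiniteMeasure N →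
    IsFiniteMeasure m → m {p | ¬ ON p} = 0 → Cv e P N F M →
    (∀ φ : E n → ℝ, S1 φ → ∫ w : sphere (0 : E n) 1, Lop e v φ (w : E n) ∂P -
      ∫ w : sphere (0 : E n) 1, Lop e v φ (w : E n) ∂N = ∫ p, D2 φ p.2 p.1 ∂m) →
    ∀ h : E n → ℝ, S1 h → Sublinear h → ∀ x y, F h (x + y) ≤ F h x + F h y

end Pool.Agent.Helper62.PM
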