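import Pool.Agent.Helper62.PM.St

/-!
# Project PM, part 2: zonal distributions

The criterion for a general zonal distribution `μ` (a linear functional on the functions of class `S1`, continuous for the `C^∞` topology,
invariant under the rotations which fix the pole).  `Xd a b` is the derivative along the rotations in the plane of `a`, `b`; the maxima of the
iterated derivatives `Xw w φ` over the sphere, `w` a word of length `≤ N`, define the `C^N` topology on the sphere.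
-/

set_option autoImplicit false

open MeasureTheory Metric Set Filter Topology Polynomial
open scoped RealInnerProductSpace ContDiff

namespace Pool.Agent.Helper62.PM

open Pool.Agent.Helper62.Mink

/-! ## Definitions -/

/-- a zonal distribution (functions on the sphere are extended to be homogeneous of degree one) -/
structure ZDist {n : ℕ} (e : E n) (μ : (E n → ℝ) → ℝ) : Prop where
  add : ∀ φ ψ : E n → ℝ, S1 φ → S1 ψ → μ (fun z => φ z + ψ z) = μ φ + μ ψ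
  smul : ∀ (c : ℝ) (φ : E n → ℝ), S1 φ → μ (fun z => c * φ z) = c * μ φ
  cont : ∃ (N : ℕ) (C : ℝ), ∀ φ : E n → ℝ, S1 φ → ∀ B : ℝ,
    (∀ j ≤ N, ∀ x : E n, ‖x‖ = 1 → ‖iteratedFDeriv ℝ j φ x‖ ≤ B) → |μ φ| ≤ C * B
  zonal : ∀ θ : E n ≃ₗᵢ[ℝ] E n, IsRot θ → θ e = e → ∀ φ : E n → ℝ, S1 φ →
    μ (fun z => φ (θ z)) = μ φ

/-- the zonal distribution `μ` generates `T` -/
def GenD {n : ℕ} (e : E n) (μ : (E n → ℝ) → ℝ) (T : ConvexBody (E n) → ConvexBody (E n)) : Prop :=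
  ∀ K : ConvexBody (E n), ContDiffOn ℝ ∞ (supp K) {0}ᶜ → ∀ θ : E n ≃ₗᵢ[ℝ] E n, IsRot θ →
    supp (T K) (θ e) = μ (fun z => supp K (θ z))

/-- the derivative along the rotations in the plane of `a` and `b` -/
noncomputable def Xd {n : ℕ} (a b : E n) (φ : E n → ℝ) (x : E n) : ℝ :=
  fderiv ℝ φ x ((inner ℝ a x : ℝ) • b - (inner ℝ b x : ℝ) • a)

/-- iterated derivatives along rotations in coordinate planes -/
noncomputable def Xw {n : ℕ} : List (Fin n × Fin n) → (E n → ℝ) → E n → ℝ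
  | [], φ => φ
  | q :: w, φ => Xd (EuclideanSpace.single q.1 (1 : ℝ)) (EuclideanSpace.single q.2 (1 : ℝ)) (Xw w φ)

/-- all iterated derivatives of order at most `N` are bounded by `B` on the sphere -/
def Bd {n : ℕ} (N : ℕ) (φ : E n → ℝ) (B : ℝ) : Prop :=
  ∀ w : List (Fin n × Fin n), w.length ≤ N → ∀ x : E n, ‖x‖ = 1 → |Xw w φ x| ≤ B

/-- the operator `A φ = φ * μ` -/
structure Dop {n : ℕ} (e : E n) (μ : (E n → ℝ) → ℝ) (A : (E n → ℝ) → E n → ℝ) (N : ℕ) (C : ℝ) :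
    Prop where
  hom : ∀ φ : E n → ℝ, S1 φ → ∀ c : ℝ, 0 ≤ c → ∀ x, A φ (c • x) = c * A φ x
  pole : ∀ φ : E n → ℝ, S1 φ → ∀ θ : E n ≃ₗᵢ[ℝ] E n, IsRot θ → A φ (θ e) = μ (fun z => φ (θ z))
  add : ∀ φ ψ : E n → ℝ, S1 φ → S1 ψ → ∀ x, A (fun z => φ z + ψ z) x = A φ x + A ψ x
  smul : ∀ (c : ℝ) (φ : E n → ℝ), S1 φ → ∀ x, A (fun z => c * φ z) x = c * A φ x
  rot : ∀ θ : E n ≃ₗᵢ[ℝ] E n, IsRot θ → ∀ φ : E n → ℝ, S1 φ → ∀ x, A (fun z => φ (θ z)) x = A φ (θ x)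
  bound : ∀ φ : E n → ℝ, S1 φ → ∀ B : ℝ, Bd N φ B → ∀ x, |A φ x| ≤ C * B * ‖x‖
  cont : ∀ φ : E n → ℝ, S1 φ → Continuous (A φ)

/-- surface measure on the unit sphere -/
noncomputable abbrev sg (n : ℕ) : Measure (sphere (0 : E n) 1) := (volume : Measure (E n)).toSphere

/-! ## Modules -/

/-- XA (150 lines).  Calculus of the derivatives `Xd`.
PROOF.  `Xd a b φ` is `C^∞` off `0` (`fderiv` of a `C^∞` function applied to a linear vector field) and homogeneous of degree one (`fderiv ℝ φ (c x) =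
fderiv ℝ φ x` for `c > 0`, compare `Mink.fderiv_hom`; at `0` the vector is `0`).  `Xd a b (φ ∘ θ) = (Xd (θ a) (θ b) φ) ∘ θ` (chain rule for a linear isometry; `⟨θ a, θ x⟩ = ⟨a,x⟩`), and
`Xd` is bilinear in `(a,b)`: `Xd a b = Σ a_k b_l Xd e_k e_l`, `|a_k| ≤ 1` for a unit vector.  So every `Xw w (φ ∘ θ)` is a sum of `n^(2|w|)` terms
`± coefficient (Xw w' φ) ∘ θ`, `|w'| = |w|`, coefficients of absolute value `≤ 1` (induction on `w`), and
`Xw w (Xd a b φ) = Σ a_k b_l Xw (w ++ [(k,l)]) φ`.  Linearity of `Xw w` off `0`.  Hypotheses: . -/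
def StXA : Prop :=
  ∀ n : ℕ, (∀ (a b : E n) (φ : E n → ℝ), S1 φ → S1 (Xd a b φ)) ∧
    (∀ (w : List (Fin n × Fin n)) (φ : E n → ℝ), S1 φ → S1 (Xw w φ)) ∧
    (∀ (w : List (Fin n × Fin n)) (φ ψ : E n → ℝ) (c : ℝ), S1 φ → S1 ψ → ∀ x : E n, x ≠ 0 →
      Xw w (fun z => φ z + ψ z) x = Xw w φ x + Xw w ψ x ∧ Xw w (fun z => c * φ z) x = c * Xw w φ x) ∧
    (∀ N : ℕ, ∃ C : ℝ, 0 ≤ C ∧ ∀ (θ : E n ≃ₗᵢ[ℝ] E n) (φ : E n → ℝ) (B : ℝ), S1 φ → Bd N φ B →
      Bd N (fun z => φ (θ z)) (C * B)) ∧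
    (∀ N : ℕ, ∃ C : ℝ, 0 ≤ C ∧ ∀ (a b : E n) (φ : E n → ℝ) (B : ℝ), ‖a‖ = 1 → ‖b‖ = 1 → S1 φ →
      Bd (N + 1) φ B → Bd N (Xd a b φ) (C * B))

/-- XB (150 lines).  The usual derivatives are controlled by the derivatives along rotations.
PROOF.  Off `0`: `∂_j φ(x) = ‖x‖⁻² (Σ_i x_i (Xd e_i e_j φ)(x) + x_j φ(x))`: indeed `Σ_i x_i Xd e_i e_j φ = ‖x‖² ∂_j φ - x_j Dφ(x) x` and Euler `Dφ(x) x = φ(x)`.  So
`fderiv ℝ φ = Σ_j (Σ_i c_ij X_ij φ + c_j φ) • proj_j` on the open set `{0}ᶜ`, with coefficients `c_ij = x_i/‖x‖²`, `c_j = x_j/‖x‖²` that are `C^∞` off `0` and do not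
depend on `φ`.  Induction on `j`: `‖iteratedFDeriv ℝ (j+1) φ x‖ = ‖iteratedFDeriv ℝ j (fderiv ℝ φ) x‖` (`norm_iteratedFDeriv_fderiv`), Leibniz
(`norm_iteratedFDerivWithin_mul_le` / `norm_iteratedFDeriv_mul_le` after localisation, or `ContinuousLinearMap.norm_iteratedFDeriv_le_of_bilinear`), the
derivatives of the coefficients are bounded on the sphere (compact), and the statement for `j` and the functions `X_ij φ` and `φ` of `S1`
(`Bd N φ B` gives `Bd (N-1) (X_ij φ) B`).  Hypotheses: StXA. -/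
def StXB : Prop :=
  ∀ n N : ℕ, ∃ C : ℝ, 0 ≤ C ∧ ∀ (φ : E n → ℝ) (B : ℝ), S1 φ → 0 ≤ B → Bd N φ B →
    ∀ j ≤ N, ∀ x : E n, ‖x‖ = 1 → ‖iteratedFDeriv ℝ j φ x‖ ≤ C * B

/-- XC (170 lines).  The second difference quotients converge with all derivatives.
PROOF.  Let `J` be the class of the `u : ℝ → E n → ℝ` such that `(s,x) ↦ u s x` is `C^∞` on `univ ×ˢ {0}ᶜ`.  It is closed under `∂_s` and under `Xd a b` in `x`
(derivatives of a `C^∞` function in one variable are `C^∞`; `fderiv` of the joint function applied to `(1,0)` or `(0, ⟨a,x⟩ b - ⟨b,x⟩ a)`), and `∂_s (Xd a b u) = Xd a b (∂_s u)` off `0`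
(symmetry of the second derivative `second_derivative_symmetric`, the vector field does not depend on `s`).  So for every word `w`:
`Xw w` of `x ↦ (u s x + u (-s) x - 2 cos s u 0 x)/s²` is the same quotient of `Xw w u ∈ J` (linearity), which by StB (`X = sphere`) converges uniformly to
`∂_s² (Xw w u) + Xw w u = Xw w (∂_s² u + u)` at `s = 0`.  For `u s x = φ (rp e v s x)` (`rp e v s x ≠ 0` by StA) this is the claim, and
`Lop e v φ x = ∂_s² u 0 x + u 0 x` (`rp e v 0 x = x`) is of class `S1` (homogeneous: `rp e v s (c x) = c rp e v s x`).  Hypotheses: StA StB StXA. -/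
def StXC : Prop :=
  ∀ (n : ℕ) (e v : E n) (φ : E n → ℝ), ON (e, v) → S1 φ → S1 (Lop e v φ) ∧
    ∀ (w : List (Fin n × Fin n)) (ε : ℝ), 0 < ε → ∃ δ : ℝ, 0 < δ ∧ ∀ s : ℝ, 0 < s → s < δ →
      ∀ x : E n, ‖x‖ = 1 → |Xw w (quo e v φ s) x - Xw w (Lop e v φ) x| ≤ ε

/-- XL (120 lines).  Lipschitz estimate along rotations.
PROOF.  With `J` as in XC, `u s x = φ (rp a b s x)`: `∂_s u s = (Xd a b φ) ∘ rp a b s` (the derivative of `rp a b s x` is `⟨a,y⟩ b - ⟨b,y⟩ a` at `y = rp a b s x`, up to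
the sign convention: `rp a b s a = cos s a + sin s b`), so for a word `w`, `|w| ≤ N`, `∂_s (Xw w (u s)) = Xw w ((Xd a b φ) ∘ rp a b s)` is bounded on the sphere by
`C (C' B)` (StXA, parts 4 and 5, the map `rp a b s` is an isometry by StA).  Mean value inequality in `s` for fixed `x`.  Hypotheses: StA StXA. -/
def StXL : Prop :=
  ∀ n N : ℕ, ∃ C : ℝ, 0 ≤ C ∧ ∀ (a b : E n) (φ : E n → ℝ) (t B : ℝ), ON (a, b) → S1 φ →
    Bd (N + 1) φ B → Bd N (fun z => φ (rp a b t z) + (-1) * φ z) (C * |t| * B)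

/-- XD (170 lines).  The operator of a zonal distribution.
PROOF.  For `u ≠ 0` let `θ_u` be a rotation with `θ_u e = u/‖u‖` (`Mink.exists_rot`), a function of `u/‖u‖`; `A φ u = ‖u‖ μ (φ ∘ θ_u)`, `A φ 0 = 0`.  `pole`: for `u = θ e`
the rotation `θ⁻¹ θ_u` fixes `e`: `zonal` for `φ ∘ θ`.  `hom`, `add`, `smul`, `rot` (with the pole formula) are immediate; StD for the closure of `S1`.  `bound`:
`|μ ψ| ≤ C₀ C₁ B'` if `Bd N ψ B'` (cont and StXB), and `Bd N (φ ∘ θ) (C₂ B)` (StXA part 4).  `cont`: homogeneous of degree one and bounded on the sphere, so continuous at `0`, and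
it remains to see continuity on the sphere: `|A φ (cos t a + sin t b) - A φ a| ≤ C' |t|` for orthonormal `(a,b)`, `C'` independent of `a, b, t`: `a = θ e`,
`cos t a + sin t b = rp a b t a = (rp a b t ∘ θ) e` (StA), so the difference is `μ ((φ ∘ rp a b t - φ) ∘ θ)`; StXL and the bounds above with `B` such that
`Bd (N+1) φ B` (exists: the `Xw w φ` are continuous on the sphere, finitely many words).  For unit vectors `x, a`: `x = cos t a + sin t b`, `t ∈ [0,π]`,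
`t ≤ (π/2) ‖x - a‖`.  Hypotheses: StA StD StXA StXB StXL. -/
def StXD : Prop :=
  ∀ (n : ℕ) (e : E n) (μ : (E n → ℝ) → ℝ), 2 ≤ n → ‖e‖ = 1 → ZDist e μ →
    ∃ (A : (E n → ℝ) → E n → ℝ) (N : ℕ) (C : ℝ), 0 ≤ C ∧ Dop e μ A N C

/-- XE (130 lines).  The criterion gives sublinearity for smooth functions.
PROOF.  StE for `A h` (continuous, homogeneous).  `(a,b)` orthonormal, `θ` a rotation with `θ e = a`, `θ v = b` (StL).  `cos s a ± sin s b = (θ ∘ rp e v (±s)) e` (StA), so by `pole`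
and linearity of `μ` the quotient is `μ (quo e v (h ∘ θ) s)`; it tends to `μ (Lop e v (h ∘ θ))`: the difference is `A (quo .. + (-1) Lop ..) e` (`pole` with the identity), bounded by
`C ε` for small `s` by `bound` and StXC (finitely many words of length `≤ N`; linearity of `Xw` by StXA).  And
`μ (Lop e v (h ∘ θ)) = ∫ D2 (h ∘ θ) p.2 p.1 dm = ∫ D2 h (θ p.2) (θ p.1) dm ≥ 0` (StD, `Mink.D2_nonneg`, a.e. `p` is orthonormal).  Hypotheses: StA StD StE StL StXA StXC. -/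
def StXE : Prop :=
  ∀ (n : ℕ) (e v : E n) (μ : (E n → ℝ) → ℝ) (A : (E n → ℝ) → E n → ℝ) (N : ℕ) (C : ℝ)
    (m : Measure (E n × E n)), 3 ≤ n → ON (e, v) → ZDist e μ → Dop e μ A N C →
    IsFiniteMeasure m → m {p | ¬ ON p} = 0 →
    (∀ φ : E n → ℝ, S1 φ → μ (Lop e v φ) = ∫ p, D2 φ p.2 p.1 ∂m) →
    ∀ h : E n → ℝ, S1 h → Sublinear h → Sublinear (A h)

/-- XF (120 lines).  Approximate identities of zonal polynomials.
PROOF.  `p = c ((1+X)/2)^k`, `k` large, `c` normalising (the integral of `p(⟨u,w⟩)` over the sphere does not depend on the unit vector `u`: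
`Mink.sphere_integral_comp` with `Mink.exists_rot`, or `Mink.Nec` tools).  Mass of `‖w - u‖ ≥ η`: there `((1+⟨u,w⟩)/2)^k ≤ (1 - η²/4)^k`, while on `‖w - u‖ ≤ η/2` it is
`≥ (1 - η²/16)^k` and this cap has positive measure (open nonempty; `(volume).toSphere` is positive on open sets), so the quotient tends to `0`; on `‖w - u‖ ≤ η` the
integrand is `≤ η p`.  The cap measure is independent of `u` for the same reason.  Hypotheses: . -/
def StXF : Prop :=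
  ∀ n : ℕ, 2 ≤ n → ∀ ε : ℝ, 0 < ε → ∃ p : ℝ[X], (∀ t ∈ Icc (-1 : ℝ) 1, 0 ≤ p.eval t) ∧
    ∀ u : E n, ‖u‖ = 1 → ∫ w : sphere (0 : E n) 1, p.eval (inner ℝ u (w : E n)) ∂(sg n) = 1 ∧
      ∫ w : sphere (0 : E n) 1, ‖(w : E n) - u‖ * p.eval (inner ℝ u (w : E n)) ∂(sg n) ≤ ε

/-- XG (150 lines).  Convolution with a zonal polynomial.
PROOF.  (1) `conv φ p x = Σ_j p_j ‖x‖^(1-j) ∫ φ(w) ⟨x,w⟩^j dw` for `x ≠ 0`, and `x ↦ ∫ φ(w) ⟨x,w⟩^j dw = Σ_{σ : Fin j → Fin n} (∏ x_(σ i)) ∫ φ(w) ∏ w_(σ i) dw` is a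
polynomial (`Fintype.sum_pow`), so `conv φ p` is `C^∞` off `0`; homogeneous by `Mink.conv_smul`.  (2) `Xd a b (conv φ p) = conv (Xd a b φ) p` for `φ ∈ S1`: for orthonormal `a, b` (or
`a = b`: both are `0`) `conv φ p (rp a b t x) = conv (φ ∘ rp a b t) p x` (`Mink.conv_rot` or `sphere_integral_comp` with the isometry of StA); derivative at `t = 0`:
left `Xd a b (conv φ p) x`, right differentiate under the integral (`Mink.hasDerivAt_param`), `∂_t φ (rp a b t w) = (Xd a b φ)(rp a b t w)`.  Induction on the word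
(coordinate vectors are orthonormal or equal).  Hypotheses: StA StXA. -/
def StXG : Prop :=
  ∀ (n : ℕ) (p : ℝ[X]), (∀ φ : E n → ℝ, Continuous φ → S1 (conv φ (fun t => p.eval t))) ∧
    ∀ (φ : E n → ℝ) (w : List (Fin n × Fin n)) (x : E n), S1 φ → x ≠ 0 →
      Xw w (conv φ (fun t => p.eval t)) x = conv (Xw w φ) (fun t => p.eval t) x

/-- XH (170 lines).  The composition of `A` with a zonal polynomial has a continuous zonal kernel.
PROOF.  For `j`, `σ : Fin j → Fin n` let `m_σ z = ‖z‖ ∏ (z_(σ i)/‖z‖)` (class `S1`, value `0` at `0`).  `‖z‖ p(⟨z,u⟩/‖z‖) = Σ_j p_j Σ_σ (∏ u_(σ i)) m_σ z` (`Fintype.sum_pow`,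
`⟨z,u⟩ = Σ z_i u_i`).  `G u = Σ_j p_j Σ_σ (∏ u_(σ i)) μ m_σ` is continuous in `u`, and equals `μ (z ↦ ‖z‖ p(⟨z,u⟩/‖z‖))`; by `zonal` `G (η u) = G u` for rotations `η` that fix `e`.  Two unit
vectors `u, u'` with `⟨e,u⟩ = ⟨e,u'⟩` are related by such an `η` (`n ≥ 3`; StL for the pairs `(e, u - ⟨e,u⟩ e normalised)`), so with a unit vector `v` orthogonal to `e`
`G u = g ⟨e,u⟩`, `g t = G (t' e + √(1-t'²) v)`, `t' = max (-1) (min 1 t)`, continuous.  Let `x` be a unit vector, `θ` a rotation with `θ e = x` (`Mink.exists_rot`).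
`conv φ p (θ z) = ∫ φ(w) ‖z‖ p(⟨z,θ⁻¹w⟩/‖z‖) dw = Σ_j p_j Σ_σ (∫ φ(w) ∏ (θ⁻¹w)_(σ i) dw) m_σ z`; apply `μ` (finite sums; `ZDist.add`, `ZDist.smul`, StD):
`A (conv φ p) x = ∫ φ(w) G(θ⁻¹ w) dw = ∫ φ(w) g ⟨x,w⟩ dw`.  Hypotheses: StD StL StXG. -/
def StXH : Prop :=
  ∀ (n : ℕ) (e : E n) (μ : (E n → ℝ) → ℝ) (A : (E n → ℝ) → E n → ℝ) (N : ℕ) (C : ℝ), 3 ≤ n →
    ‖e‖ = 1 → ZDist e μ → Dop e μ A N C → ∀ p : ℝ[X], ∃ g : ℝ → ℝ, Continuous g ∧
      ∀ φ : E n → ℝ, Continuous φ → ∀ x : E n, ‖x‖ = 1 →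
        A (conv φ (fun t => p.eval t)) x =
          ∫ w : sphere (0 : E n) 1, φ (w : E n) * g (inner ℝ x (w : E n)) ∂(sg n)

/-- XI (150 lines).  `A` is symmetric.
PROOF.  Let `L` be a common Lipschitz constant on the sphere of the functions `Xw w φ`, `|w| ≤ N` (class `S1`: `C¹` on a neighbourhood of the sphere; for unit vectors at
distance `< 1` the segment stays in the shell `1/2 ≤ ‖x‖ ≤ 1`, otherwise use the bound of the function).  With `p` of StXF for `ε` and `Sφ = conv φ p`: `|Xw w (Sφ) u - Xw w φ u| =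
|conv (Xw w φ) p u - Xw w φ u| ≤ L ε` for unit `u` (StXG, StXF; `Mink.conv` at a unit vector is `∫ (Xw w φ)(w) p⟨u,w⟩`), so `|A (Sφ) x - A φ x| ≤ C L ε` on the sphere (`bound`, linearity).
The same for `ψ`.  By StXH `∫ A(Sφ) ψ = ∫∫ φ(w) g⟨x,w⟩ ψ(x) dw dx = ∫ φ A(Sψ)` (Fubini for continuous functions on compact spaces, `integral_integral_swap`, symmetry of
the inner product).  Let `ε → 0`.  Hypotheses: StD StXA StXF StXG StXH. -/
def StXI : Prop :=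
  ∀ (n : ℕ) (e : E n) (μ : (E n → ℝ) → ℝ) (A : (E n → ℝ) → E n → ℝ) (N : ℕ) (C : ℝ), 3 ≤ n →
    ‖e‖ = 1 → ZDist e μ → 0 ≤ C → Dop e μ A N C → ∀ φ ψ : E n → ℝ, S1 φ → S1 ψ →
      ∫ w : sphere (0 : E n) 1, A φ (w : E n) * ψ (w : E n) ∂(sg n) =
        ∫ w : sphere (0 : E n) 1, φ (w : E n) * A ψ (w : E n) ∂(sg n)

/-- XJ (140 lines).  A sublinear function is bounded by its first moments.
PROOF.  `H = supp K` (`Mink.exists_body`).  Let `p, q ∈ K` realise the diameter `D`; `H(x) + H(-x) ≥ |⟨x, p-q⟩|`, so `2 ∫ H = ∫ (H(x) + H(-x)) ≥ c D`, `c = ∫ |⟨x,u⟩| dx > 0` for a unit vector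
`u` (independent of `u`: `Mink.sphere_integral_comp`, `Mink.exists_rot`): `D ≤ 2Λ/c`.  `H(x) = ⟨p,x⟩ + r(x)`, `0 ≤ r ≤ D` on the sphere.  `∫ H(x) x_i dx = c' p_i + ∫ r(x) x_i dx`, `c' = ∫ x_i² dx > 0`
(`∫ x_i x_j dx = 0` for `i ≠ j` by the reflection in the coordinate `i`), so `|p_i| ≤ (Λ + D |S|)/c'`, `‖p‖ ≤ Σ |p_i|`, `|H(x)| ≤ ‖p‖ + D` on the sphere.
Hypotheses: . -/
def StXJ : Prop :=
  ∀ n : ℕ, 2 ≤ n → ∃ C : ℝ, 0 ≤ C ∧ ∀ (H : E n → ℝ) (Λ : ℝ), Sublinear H →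
    |∫ w : sphere (0 : E n) 1, H (w : E n) ∂(sg n)| ≤ Λ →
    (∀ i : Fin n, |∫ w : sphere (0 : E n) 1, H (w : E n) * (w : E n) i ∂(sg n)| ≤ Λ) →
    ∀ x : E n, |H x| ≤ C * Λ * ‖x‖

/-- XK (170 lines).  `A` is bounded and uniformly continuous on smooth bodies, for the uniform norm.
PROOF.  (i) By StXI with `ψ = ‖·‖` (StD) and `ψ = (z ↦ z i)` (class `S1`): `∫ A h = ∫ h A‖·‖`, `∫ (A h) w_i = ∫ h A(z ↦ z i)`, both bounded by `Λ = R Q`, `Q` a common bound of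
`∫ |A‖·‖|` and `∫ |A(z ↦ z i)|` (`A ψ` is continuous by `Dop.cont`, so integrable on the sphere); `R ≥ 0` (there are unit vectors).  StXJ for `H = A h` (sublinear) gives (i).
(ii) `A h` is `C₁ R`-Lipschitz: `A h x - A h y ≤ A h (x - y) ≤ C₁ R ‖x - y‖` (`Sublinear`).  Let `p` be as in StXF for `ε' = ε/(2 C₁ + 1)`, and `ψ_x z = ‖z‖ p(⟨x,z⟩/‖z‖)`: class `S1`
for every `x` (sum of `p_j ‖z‖ (⟨x,z⟩/‖z‖)^j`, value `0` at `0`; `z ≠ 0`: `contDiffAt_norm`), `ψ_x w = p⟨x,w⟩` on the sphere.  For unit `x`: `|A h x - ∫ (A h)(w) p⟨x,w⟩ dw| =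
|∫ (A h x - A h w) p⟨x,w⟩ dw| ≤ C₁ R ∫ ‖w - x‖ p⟨x,w⟩ dw ≤ C₁ R ε'`, the same for `h'`.  By StXI `∫ (A h - A h')(w) ψ_x(w) dw = ∫ (h - h')(w) (A ψ_x)(w) dw`, of absolute value
`≤ δ K`, `K = ∫ |A ψ_x|` independent of the unit vector `x`: for a rotation `θ` `ψ_(θx) ∘ θ = ψ_x`, so `(A ψ_(θx)) ∘ θ = A ψ_x` (`Dop.rot`), `Mink.exists_rot`, `Mink.sphere_integral_comp`.
So `|A h x - A h' x| ≤ 2 C₁ R ε' + K δ ≤ ε R + K δ`.  Hypotheses: StD StXF StXI StXJ. -/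
def StXK : Prop :=
  ∀ (n : ℕ) (e : E n) (μ : (E n → ℝ) → ℝ) (A : (E n → ℝ) → E n → ℝ) (N : ℕ) (C : ℝ), 3 ≤ n →
    ‖e‖ = 1 → ZDist e μ → 0 ≤ C → Dop e μ A N C →
    (∀ h : E n → ℝ, S1 h → Sublinear h → Sublinear (A h)) →
    (∃ C1 : ℝ, 0 ≤ C1 ∧ ∀ (h : E n → ℝ) (R : ℝ), S1 h → Sublinear h → (∀ x : E n, ‖x‖ = 1 → |h x| ≤ R) →
      ∀ x : E n, |A h x| ≤ C1 * R * ‖x‖) ∧
    ∀ ε : ℝ, 0 < ε → ∃ K : ℝ, 0 ≤ K ∧ ∀ (h h' : E n → ℝ) (R δ : ℝ), S1 h → Sublinear h → S1 h' →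
      Sublinear h' → (∀ x : E n, ‖x‖ = 1 → |h x| ≤ R) → (∀ x : E n, ‖x‖ = 1 → |h' x| ≤ R) →
      (∀ x : E n, ‖x‖ = 1 → |h x - h' x| ≤ δ) → ∀ x : E n, ‖x‖ = 1 → |A h x - A h' x| ≤ ε * R + K * δ

/-- XM (170 lines).  Extension to all bodies.
PROOF.  For a sublinear `h` take smooth sublinear `h_j → h` uniformly on the sphere (`Mink.exists_smooth`, error `1/(j+1)`), bounded by some `R`.  By the second hypothesis `(A h_j)` is
uniformly Cauchy on the sphere; let `Ā h x = lim A h_j x` (all `x`, homogeneity): sublinear, and for ALL `ε` there is `K` with `|Ā h x - A k x| ≤ ε R + K δ` on the sphere for every smooth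
sublinear `k` with `|k| ≤ R`, `|h - k| ≤ δ` there (limit), in particular `Ā h = A h` for smooth `h` and `Ā h` does not depend on the sequence; the same estimate for two sublinear
functions.  `Ā (h + h') = Ā h + Ā h'` and `Ā (h ∘ θ) = (Ā h) ∘ θ` (limits).  `T K` is the body with support function `Ā (supp K)` (`Mink.exists_body`, `Mink.supp_sublinear`).  Continuity of `T` at
`K₀`: for `dist K K₀ ≤ δ ≤ 1` all support functions are bounded by a fixed `R`, `|supp K - supp K₀| ≤ δ ‖x‖` (`Mink.abs_supp_sub_le`), so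
`dist (T K) (T K₀) ≤ ε R + K δ` (`Mink.dist_le_of_supp`).  `additive`: `Mink.supp_add`; `equivariant`: `Mink.supp_rot`, `Mink.supp_inj`.  Hypotheses: . -/
def StXM : Prop :=
  ∀ (n : ℕ) (A : (E n → ℝ) → E n → ℝ), 2 ≤ n →
    (∀ φ ψ : E n → ℝ, S1 φ → S1 ψ → ∀ x, A (fun z => φ z + ψ z) x = A φ x + A ψ x) →
    (∀ θ : E n ≃ₗᵢ[ℝ] E n, IsRot θ → ∀ φ : E n → ℝ, S1 φ → ∀ x, A (fun z => φ (θ z)) x = A φ (θ x)) →
    (∀ h : E n → ℝ, S1 h → Sublinear h → Sublinear (A h)) →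
    (∀ ε : ℝ, 0 < ε → ∃ K : ℝ, 0 ≤ K ∧ ∀ (h h' : E n → ℝ) (R δ : ℝ), S1 h → Sublinear h → S1 h' →
      Sublinear h' → (∀ x : E n, ‖x‖ = 1 → |h x| ≤ R) → (∀ x : E n, ‖x‖ = 1 → |h' x| ≤ R) →
      (∀ x : E n, ‖x‖ = 1 → |h x - h' x| ≤ δ) → ∀ x : E n, ‖x‖ = 1 → |A h x - A h' x| ≤ ε * R + K * δ) →
    ∃ T : ConvexBody (E n) → ConvexBody (E n), Admissible T ∧
      ∀ K : ConvexBody (E n), ContDiffOn ℝ ∞ (supp K) {0}ᶜ → ∀ x, supp (T K) x = A (supp K) x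

end Pool.Agent.Helper62.PM
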