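import Pool.Agent.Helper62.PM.St2

/-!
# Project PM, part 3: the operator of a zonal distribution preserves smoothness
-/

set_option autoImplicit false

open MeasureTheory Metric Set Filter Topology Polynomial
open scoped RealInnerProductSpace ContDiff

namespace Pool.Agent.Helper62.PM

open Pool.Agent.Helper62.Mink

/-- SA (120 lines).  Second order estimate along rotations.
PROOF.  As in XL: for a word `w` with `|w| ≤ N` and a fixed unit vector `x` let `g t = Xw w (φ ∘ rp a b t) x - Xw w φ x - t Xw w (Xd a b φ) x` (linearity of `Xw` off `0`: StXA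
part 3).  `(s,x) ↦ φ (rp a b s x)` is `C^∞` on `univ ×ˢ {0}ᶜ`, derivatives in `s` and `Xw w` in `x` commute and `∂_s (φ ∘ rp a b s) = (Xd a b φ) ∘ rp a b s`, so
`g' t = Xw w ((Xd a b φ) ∘ rp a b t) x - Xw w (Xd a b φ) x`, of absolute value `≤ C |t| (C' B)` by StXL for `Xd a b φ` (class `S1`, `Bd (N+1) (Xd a b φ) (C' B)` by StXA part 5).  `g 0 = 0`:
mean value inequality.  (The module M_XL.lean, once landed, contains the derivative in `s` of `Xw w (φ ∘ rp a b s) x`; copy it.)  Hypotheses: StA StXA StXL. -/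
def StSA : Prop :=
  ∀ n N : ℕ, ∃ C : ℝ, 0 ≤ C ∧ ∀ (a b : E n) (φ : E n → ℝ) (t B : ℝ), ON (a, b) → S1 φ →
    Bd (N + 2) φ B →
      Bd N (fun z => (φ (rp a b t z) + (-1) * φ z) + (-t) * Xd a b φ z) (C * t ^ 2 * B)

/-- SB (170 lines).  `A φ` is differentiable off `0`.
PROOF.  `F = A φ`, `L y = Σ_j ((Σ_i x_i A(X_ij φ) x + x_j F x)/‖x‖²) y_j`, `X_ij = Xd e_i e_j`.  Let `a = x/‖x‖`, and `b` a unit vector orthogonal to `a`.
(1) `L a = F a`: `A(X_ij φ) = -A(X_ji φ)` (`Xd b a = -Xd a b`, `Dop.smul` with `-1`), so the double sum `Σ x_i x_j A(X_ij φ) x` is `0`.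
(2) `L b = A(Xd a b φ) a`: `Xd a b φ = Σ_ij a_i b_j X_ij φ` pointwise, linearity of `A` (finite sum of functions of `S1`), homogeneity, `Σ x_j b_j = 0`.
(3) For a real `t`: `F (cos t a + sin t b) = F (rp a b t a) = A (φ ∘ rp a b t) a` (StA, `Dop.rot`), so by `Dop.bound`, StSA (`B` with `Bd (N+2) φ B`: exists, the finitely many `Xw w φ`, `|w| ≤ N+2`, are continuous on the
compact sphere), linearity: `|F (cos t a + sin t b) - F a - t L b| ≤ C C' B t²`; `C'`, `B` do not depend on `a, b, t`.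
(4) Every `y` near `x` is `ρ (cos t a + sin t b)`, `ρ = ‖y‖`, `0 ≤ t ≤ π/2`, `t ≤ (π/2) sin t ≤ (π/2) ‖y - x‖/ρ` (`sin t` is the distance from `y/ρ` to the line `ℝ a`; `Real.mul_le_sin`).
`F y - L y = ρ (F(cos t a + sin t b) - cos t F a - sin t L b) = O(ρ t²)` (`|1 - cos t| ≤ t²`, `|t - sin t| ≤ t²`) and `F x = L x`, so `|F y - F x - L (y - x)| ≤ M ‖y - x‖²` near `x`.
Hypotheses: StA StD StXA StSA. -/
def StSB : Prop :=
  ∀ (n : ℕ) (e : E n) (μ : (E n → ℝ) → ℝ) (A : (E n → ℝ) → E n → ℝ) (N : ℕ) (C : ℝ), 2 ≤ n →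
    0 ≤ C → Dop e μ A N C → ∀ φ : E n → ℝ, S1 φ → ∀ x : E n, x ≠ 0 →
      HasFDerivAt (A φ) (∑ j : Fin n, ((∑ i : Fin n, x i * A (Xd (EuclideanSpace.single i (1 : ℝ))
        (EuclideanSpace.single j (1 : ℝ)) φ) x + x j * A φ x) / ‖x‖ ^ 2) •
          (EuclideanSpace.proj j : E n →L[ℝ] ℝ)) x

/-- SC (80 lines).  `A` preserves the class `S1`.
PROOF.  By induction on `k`: for all `φ ∈ S1`, `A φ` is `C^k` on the open set `{0}ᶜ`.  `k = 0`: `Dop.cont`.  `k + 1`: `contDiffOn_succ_iff_fderiv_of_isOpen` (or the `HasFDerivWithinAt` version);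
by StSB `fderiv (A φ)` is the finite sum of StSB, with coefficients `x_i/‖x‖²` smooth off `0` and the functions `A (X_ij φ)`, `A φ` of class `C^k` (`X_ij φ ∈ S1`, StXA part 1).
`hom`: `Dop.hom`.  Hypotheses: StXA StSB. -/
def StSC : Prop :=
  ∀ (n : ℕ) (e : E n) (μ : (E n → ℝ) → ℝ) (A : (E n → ℝ) → E n → ℝ) (N : ℕ) (C : ℝ), 2 ≤ n →
    0 ≤ C → Dop e μ A N C → ∀ φ : E n → ℝ, S1 φ → S1 (A φ)

end Pool.Agent.Helper62.PM
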