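import Pool.Agent.Helper62.PM.St2

/-!
# Project PM, part 4: the negative part of a generating measure

THEOREM.  Let `P`, `N` be finite zonal measures on the unit sphere (`n ≥ 3`) such that `P - N` generates an admissible map.  Then for Borel sets `B` of the
line `N{⟨e,w⟩ ∈ B} ≤ P{⟨e,w⟩ ∈ B} + (n-1) P(S) ∫_{B ∩ (-1,1)} |t|/(1-t²) dt`; so the singular part of `P - N` is nonnegative.  Conversely `P ≥ 0` always
generates an admissible map.  So a zonal signed measure which is singular (for example a combination of averages over latitudes)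
generates an admissible map if and only if it is nonnegative.
-/

set_option autoImplicit false

open MeasureTheory Metric Set Filter Topology
open scoped RealInnerProductSpace ContDiff

namespace Pool.Agent.Helper62.PM

open Pool.Agent.Helper62.Mink

/-- zonal functions, homogeneous of degree one -/
noncomputable def zf {n : ℕ} (e : E n) (g : ℝ → ℝ) (x : E n) : ℝ := ‖x‖ * g (inner ℝ e x / ‖x‖)

/-! ## Modules -/

/-- NZ (proved by helper62 from the criterion; a hypothesis of the modules below).  The inequality behind everything. -/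
def StNZ : Prop :=
  ∀ (n : ℕ) (e v : E n) (P N : Measure (sphere (0 : E n) 1))
    (T : ConvexBody (E n) → ConvexBody (E n)), 3 ≤ n → ON (e, v) → IsFiniteMeasure P →
    IsFiniteMeasure N → Zon e P → Zon e N → Gen e P N T → ∀ φ : E n → ℝ, S1 φ → Sublinear φ →
    ∫ w : sphere (0 : E n) 1, Lop e v φ (w : E n) ∂N ≤ ∫ w : sphere (0 : E n) 1, Lop e v φ (w : E n) ∂P

/-- NA (150 lines).  Calculus of zonal functions.
PROOF.  `S1`: `⟨e,x⟩/‖x‖ ∈ [-1,1] ⊂ (-r,r)` and smooth off `0` (`contDiffAt_norm`), homogeneity: `⟨e,c x⟩/‖c x‖ = ⟨e,x⟩/‖x‖` for `c > 0`, both sides `0` for `c = 0` or `x = 0`.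
(2) `p = (x,y)`, `t = ⟨e,x⟩`, `q = ⟨e,y⟩`: `‖x + τ y‖ = √(1+τ²)`, `zf e g (x + τ y) = √(1+τ²) g((t + τ q)/√(1+τ²))`; `D2 φ y x` is the second derivative of `τ ↦ φ (x + τ y)` at `0`
(`Mink.hasDerivAt_line`, `Mink.lineD`, as in module D, `M_D.lean` of helper55, for the norm), which is `g t - t g1 t + g2 t q²` (first derivative `τ/√(1+τ²) g(u) + √(1+τ²) g1(u) u'`, `u' = (q - τ t)/(1+τ²)^(3/2)`).
(3) `‖rp e v s x‖ = 1` and `⟨e, rp e v s x⟩ = cos s t - sin s q`, `q = ⟨v,x⟩` (definition of `rp`), in `[-1,1]` (Cauchy-Schwarz), so `zf e g (rp e v s x) = g (cos s t - sin s q)`; first derivative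
`g1(..)(-sin s t - cos s q)` for all `s`, second derivative at `0`: `g2 t q² - t g1 t`.  (`‖rp e v s x‖ = 1` by StA, or by computation.)  Hypotheses: StA. -/
def StNA : Prop :=
  ∀ (n : ℕ) (e : E n) (g g1 g2 : ℝ → ℝ) (r : ℝ), ‖e‖ = 1 → 1 < r →
    ContDiffOn ℝ ∞ g (Ioo (-r) r) → (∀ t ∈ Ioo (-r) r, HasDerivAt g (g1 t) t) →
    (∀ t ∈ Ioo (-r) r, HasDerivAt g1 (g2 t) t) →
    S1 (zf e g) ∧
    (∀ p : E n × E n, ON p → D2 (zf e g) p.2 p.1 =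
      (g (inner ℝ e p.1) - inner ℝ e p.1 * g1 (inner ℝ e p.1)) +
        g2 (inner ℝ e p.1) * inner ℝ e p.2 ^ 2) ∧
    ∀ v : E n, ON (e, v) → ∀ x : E n, ‖x‖ = 1 → Lop e v (zf e g) x =
      (g (inner ℝ e x) - inner ℝ e x * g1 (inner ℝ e x)) + g2 (inner ℝ e x) * inner ℝ v x ^ 2

/-- NB (140 lines).  The test on bodies of revolution.
PROOF.  On `(-r,r)` let `g1 t = ∫_0^t ψ`, `g t = k 0 + ∫_0^t g1`; `g'' = ψ`, so `g` is `C^∞` on `(-r,r)` (`contDiffOn_succ_iff_deriv_of_isOpen`-type lemmas, or first take any `g` with these derivatives).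
`g t - t g1 t = k t`: both sides have derivative `-t ψ t` and the same value at `0`.  By StNA `φ = zf e g` is in `S1` and `D2 φ p.2 p.1 = k t + ψ t q²`, `t = ⟨e,p.1⟩`, `q = ⟨e,p.2⟩`, `t² + q² ≤ 1`
(Bessel for the orthonormal pair `p`): `≥ 0` (if `ψ t ≥ 0` it is `≥ k t`, otherwise `≥ k t + (1-t²) ψ t`).  So `φ` is sublinear: StE with StF (see `sublin` in Pool/Agent/Helper62/PM/Asm.lean, you may import this file).
Take an orthonormal basis `b` with `b i₀ = e` (`Orthonormal.exists_orthonormalBasis_extension_of_card_eq`); StNZ for `v = b i`, `i ≠ i₀`, and sum of the `n - 1` inequalities: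
`Σ_{i ≠ i₀} Lop e (b i) φ x = (n-1) k t + ψ t Σ_{i ≠ i₀} ⟨b i,x⟩² = (n-1) k t + ψ t (1 - t²)` for unit `x` (Parseval).  Integrability: continuous functions on the compact sphere
(`ψ`, `k` continuous on `[-1,1]`), finite measures.  Hypotheses: StD StE StF StNZ StNA. -/
def StNB : Prop :=
  ∀ (n : ℕ) (e : E n) (P N : Measure (sphere (0 : E n) 1))
    (T : ConvexBody (E n) → ConvexBody (E n)) (k ψ : ℝ → ℝ) (r : ℝ), 3 ≤ n → ‖e‖ = 1 →
    IsFiniteMeasure P → IsFiniteMeasure N → Zon e P → Zon e N → Gen e P N T → 1 < r →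
    ContDiffOn ℝ ∞ ψ (Ioo (-r) r) → (∀ t ∈ Ioo (-r) r, HasDerivAt k (-(t * ψ t)) t) →
    (∀ t ∈ Icc (-1 : ℝ) 1, 0 ≤ k t) → (∀ t ∈ Icc (-1 : ℝ) 1, 0 ≤ (1 - t ^ 2) * ψ t + k t) →
    ∫ w : sphere (0 : E n) 1, ((1 - (inner ℝ e (w : E n) : ℝ) ^ 2) * ψ (inner ℝ e (w : E n)) +
        ((n : ℝ) - 1) * k (inner ℝ e (w : E n))) ∂N ≤
      ∫ w : sphere (0 : E n) 1, ((1 - (inner ℝ e (w : E n) : ℝ) ^ 2) * ψ (inner ℝ e (w : E n)) +
        ((n : ℝ) - 1) * k (inner ℝ e (w : E n))) ∂P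

/-- NC (80 lines).  The test with a nonnegative `ψ`.
PROOF.  StNB with `r = 2`, `c = ∫_{-1}^1 |s| ψ s`, `k t = c - ∫_0^t s ψ s`: for `t ∈ [-1,1]`, `0 ≤ ∫_0^t s ψ s ≤ c` (for `t < 0` it is `∫_t^0 |s| ψ s`), so `0 ≤ k ≤ c`.
`-∫ k dN ≤ 0` and `∫ k dP ≤ c P(S)`.  Hypotheses: StNB. -/
def StNC : Prop :=
  ∀ (n : ℕ) (e : E n) (P N : Measure (sphere (0 : E n) 1))
    (T : ConvexBody (E n) → ConvexBody (E n)) (ψ : ℝ → ℝ), 3 ≤ n → ‖e‖ = 1 →
    IsFiniteMeasure P → IsFiniteMeasure N → Zon e P → Zon e N → Gen e P N T →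
    ContDiff ℝ ∞ ψ → (∀ t, 0 ≤ ψ t) →
    ∫ w : sphere (0 : E n) 1, (1 - (inner ℝ e (w : E n) : ℝ) ^ 2) * ψ (inner ℝ e (w : E n)) ∂N ≤
      ∫ w : sphere (0 : E n) 1, (1 - (inner ℝ e (w : E n) : ℝ) ^ 2) * ψ (inner ℝ e (w : E n)) ∂P +
        ((n : ℝ) - 1) * (P univ).toReal * ∫ s in (-1 : ℝ)..1, |s| * ψ s

/-- NM (100 lines).  Comparison of measures on `(-1,1)` by smooth functions.
PROOF.  Compact `K ⊂ (-1,1)`, `ε > 0`.  Choose `a < 1` with `K ⊂ (-a,a)`; `μ₂` restricted to `[-a,a]` is finite, so outer regular: there is an open `U ⊃ K` with `U ⊂ (-a,a)` and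
`μ₂ U ≤ μ₂ K + ε` (`Set.exists_isOpen_lt_add` for the restricted measure, intersect with `(-a,a)`).  A smooth `φ`, `0 ≤ φ ≤ 1`, `φ = 1` on `K`, support in `U`
(`exists_contDiff_tsupport_subset`, `exists_smooth_zero_one_of_isClosed`/`exists_contMDiff_...` or `exists_contDiff_one_nhds_of_interior`): `μ₁ K ≤ ∫ φ dμ₁ ≤ ∫ φ dμ₂ ≤ μ₂ U ≤ μ₂ K + ε`.  Then
inner regularity of the finite measure `μ₁` (`MeasurableSet.exists_isCompact_lt_add` / `MeasurableSet.measure_eq_iSup_isCompact`).  Hypotheses: . -/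
def StNM : Prop :=
  ∀ μ₁ μ₂ : Measure ℝ, IsFiniteMeasure μ₁ →
    (∀ K : Set ℝ, IsCompact K → K ⊆ Ioo (-1 : ℝ) 1 → μ₂ K < ⊤) →
    (∀ φ : ℝ → ℝ, ContDiff ℝ ∞ φ → HasCompactSupport φ → tsupport φ ⊆ Ioo (-1 : ℝ) 1 →
      (∀ t, 0 ≤ φ t) → ∫ t, φ t ∂μ₁ ≤ ∫ t, φ t ∂μ₂) →
    ∀ B : Set ℝ, MeasurableSet B → B ⊆ Ioo (-1 : ℝ) 1 → μ₁ B ≤ μ₂ B

/-- ND (120 lines).  The inequality for Borel subsets of `(-1,1)`.
PROOF.  StNM for `μ₁ = N.map (w ↦ ⟨e,w⟩)` and `μ₂ = P.map (w ↦ ⟨e,w⟩) + c • (volume.withDensity (|t|/(1-t²))).restrict (Ioo (-1) 1)`, `c = (n-1) P(S)` (`μ₂` of a compact subset of `(-1,1)` is finite, the density is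
bounded there).  For a smooth `φ ≥ 0` with compact support in `(-1,1)` the function `ψ t = φ t/(1-t²)` (`0` off the support) is smooth and `≥ 0`: StNC,
`(1-t²) ψ t = φ t`, `∫_{-1}^1 |s| ψ s ds = ∫ φ t (|t|/(1-t²)) dt`.  Hypotheses: StNC StNM. -/
def StND : Prop :=
  ∀ (n : ℕ) (e : E n) (P N : Measure (sphere (0 : E n) 1))
    (T : ConvexBody (E n) → ConvexBody (E n)), 3 ≤ n → ‖e‖ = 1 →
    IsFiniteMeasure P → IsFiniteMeasure N → Zon e P → Zon e N → Gen e P N T →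
    ∀ B : Set ℝ, MeasurableSet B → B ⊆ Ioo (-1 : ℝ) 1 →
      N {w | (inner ℝ e (w : E n) : ℝ) ∈ B} ≤ P {w | (inner ℝ e (w : E n) : ℝ) ∈ B} +
        ENNReal.ofReal (((n : ℝ) - 1) * (P univ).toReal) *
          ∫⁻ t in B, ENNReal.ofReal (|t| / (1 - t ^ 2))

/-- NP (150 lines).  The poles.
PROOF.  First `⟨e,w⟩ = 1`.  `χ t = 5/6 - t²/2 + t³/3`, `χ' = -t (1-t)`, `χ (-1) = 0`, `χ 1 = 2/3`, `χ ≥ 0` on `[-1,1]` (`χ = (t+1) * ..`, nlinarith).  For `0 < ε < 1`, `r = √(1 + ε²/2)`, `q = √(1 - t² + ε²)` (positive on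
`(-r,r)`), `k = χ/q`, `ψ = (1-t)/q - χ/q³`: `q' = -t/q`, `k' = -t(1-t)/q + t χ/q³ = -t ψ`.  `k ≥ 0` on `[-1,1]` and with `u = 1 - t²`, `q² = u + ε²`:
`u ψ + k = u(1-t)/q + χ ε²/q³ ≥ 0`.  StNB: `∫ F_ε dN ≤ ∫ F_ε dP`, `F_ε = u ψ + (n-1) k = u(1-t)/q + χ ((n-2) u + (n-1) ε²)/q³`.  `0 ≤ ε F_ε ≤ 2 + (n-1)` on `[-1,1]` (`ε ≤ q`, `u ≤ 1`, `χ ≤ 1`), and for
`ε = 1/(j+2) → 0`: `ε F_ε → 0` if `u > 0`, `= (n-1) 2/3` at `t = 1`, `= 0` at `t = -1`.  Dominated convergence (`tendsto_integral_of_dominated_convergence`):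
`(n-1)(2/3) N{⟨e,w⟩ = 1} ≤ (n-1)(2/3) P{⟨e,w⟩ = 1}`.  For `⟨e,w⟩ = -1` use `χ (-t)` and `1 + t` (do both signs at once with `σ = ±1`, `χ (σ t)`, `1 - σ t`).  Hypotheses: StNB. -/
def StNP : Prop :=
  ∀ (n : ℕ) (e : E n) (P N : Measure (sphere (0 : E n) 1))
    (T : ConvexBody (E n) → ConvexBody (E n)), 3 ≤ n → ‖e‖ = 1 →
    IsFiniteMeasure P → IsFiniteMeasure N → Zon e P → Zon e N → Gen e P N T →
    ∀ σ : ℝ, (σ = 1 ∨ σ = -1) →
      N {w | (inner ℝ e (w : E n) : ℝ) = σ} ≤ P {w | (inner ℝ e (w : E n) : ℝ) = σ}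

/-- NE (130 lines).  A zonal measure is invariant under reflections which fix the pole.
PROOF.  Let `v` be a unit vector orthogonal to `e` and `a` (`n ≥ 3`), `R_α = rp v a α`: rotation (StA, `ON (v,a)`) with `R_α e = e` (definition).  `ς w = w - 2⟨a,w⟩ a`.  For continuous `φ`:
`2π ∫ φ(ς w) dP = ∫∫_0^{2π} φ(ς (R_α w)) dα dP` (`Zon` for `φ ∘ ς` and every `α`, Fubini, `integral_integral_swap`; jointly continuous bounded, finite measures).  For fixed `w` write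
`⟨v,w⟩ = ρ cos γ`, `⟨a,w⟩ = ρ sin γ`: `ς (R_α w) = R_(-α) (ς w) = R_(-α-2γ) w` (both sides have the `v`, `a` components `ρ cos(α+γ)`, `-ρ sin(α+γ)`), so
`∫_0^{2π} φ(ς (R_α w)) dα = ∫_0^{2π} φ(R_(-α-2γ) w) dα = ∫_0^{2π} φ(R_α w) dα` (`2π`-periodic in `α`, `Function.Periodic.intervalIntegral_add_eq`, substitution `α ↦ -α - 2γ`).  Hypotheses: StA. -/
def StNE : Prop :=
  ∀ (n : ℕ) (e a : E n) (P : Measure (sphere (0 : E n) 1)), 3 ≤ n → ON (e, a) →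
    IsFiniteMeasure P → Zon e P → ∀ φ : E n → ℝ, Continuous φ →
    ∫ w : sphere (0 : E n) 1, φ ((w : E n) - (2 * (inner ℝ a (w : E n) : ℝ)) • a) ∂P =
      ∫ w : sphere (0 : E n) 1, φ (w : E n) ∂P

/-- NF (150 lines).  Nonnegative zonal measures.
PROOF.  For a unit vector `w` let `X = ⟨e,w⟩ v - ⟨v,w⟩ e`, `w' = w - ⟨e,w⟩ e - ⟨v,w⟩ v`.  The curve `γ s = rp e v s w` has `γ' 0 = X`, `γ'' 0 = w' - w`, so
`Lop e v φ w = D2 φ X w + Dφ(w)(w' - w) + φ w = D2 φ X w + Dφ(w) w'` (chain rule twice, `γ s ≠ 0` by StA; Euler `Dφ(w) w = φ w`).  `D2 φ X w ≥ 0` (`Mink.D2_nonneg`).  With `a_j` an orthonormal basis of the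
orthogonal complement of `e, v` (the remaining vectors of an orthonormal basis of `E n` which contains `e` and `v`): `w' = Σ ⟨a_j,w⟩ a_j`, and for every `j`, with `ς w = w - 2⟨a_j,w⟩ a_j`, StNE (for a continuous function on the
space: `F x = ⟨a_j,x⟩ Dφ(x) a_j` is continuous off `0`; homogeneous of degree one and bounded by `M ‖x‖`, so with value `0` at `0` it is continuous) gives
`2 ∫ F dP = ∫ ⟨a_j,w⟩ (Dφ(w) a_j - Dφ(ς w) a_j) dP ≥ 0`, because `2⟨a_j,w⟩ a_j = w - ς w` and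
`(Dφ(w) - Dφ(ς w))(w - ς w) = φ w - Dφ(w)(ς w) - Dφ(ς w)(w) + φ (ς w) ≥ 0` (`Dφ(x) y ≤ φ y` for sublinear `φ`).  Hypotheses: StA StNE. -/
def StNF : Prop :=
  ∀ (n : ℕ) (e v : E n) (P : Measure (sphere (0 : E n) 1)), 3 ≤ n → ON (e, v) →
    IsFiniteMeasure P → Zon e P → ∀ φ : E n → ℝ, S1 φ → Sublinear φ →
    0 ≤ ∫ w : sphere (0 : E n) 1, Lop e v φ (w : E n) ∂P

end Pool.Agent.Helper62.PM
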