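import Pool.Agent.Helper62.PM.St4

/-!
# Project PM, part 5: the poles split off

THEOREM.  Let `T` be an admissible map generated by a zonal signed measure `P - N` (`n ≥ 3`).  Then `T K = a K + b (-K) + T' K` with `a, b ≥ 0` the masses
of `P - N` at the poles `e`, `-e` and `T'` ADMISSIBLE, generated by the restriction of `P - N` to the complement of the poles.

IDEA.  By the criterion it suffices that `∫_{w ≠ ±e} L φ d(P - N) ≥ 0` for smooth sublinear `φ`, `L = Lop e v`.  Replace `φ + ε ‖·‖` by a smooth version of the support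
function of the convex hull of the body and of a point `p_c` slightly outside, beyond the boundary point with normal `e`: near `e` this is linear (so `L` of it vanishes at
`e`), off a small cap nothing changes, and `L` of it is bounded independently of `c`.  Let `c → 0`, then `ε → 0`.
-/

set_option autoImplicit false

open MeasureTheory Metric Set Filter Topology
open scoped RealInnerProductSpace ContDiff

namespace Pool.Agent.Helper62.PM

open Pool.Agent.Helper62.Mink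

/-- a smooth convex version of `max 0 s` -/
structure Fl (F : ℝ → ℝ) : Prop where
  smooth : ContDiff ℝ ∞ F
  convex : ConvexOn ℝ univ F
  mono : Monotone F
  nonneg : ∀ s, 0 ≤ F s
  zero : ∀ s, s ≤ -1 → F s = 0
  id : ∀ s, 1 ≤ s → F s = s
  lip : Antitone fun s => F s - s
  star : ∀ l s : ℝ, 0 ≤ l → l ≤ 1 → l * F s ≤ F (l * s)
  d2 : ∃ M : ℝ, ∀ s, |deriv (deriv F) s| ≤ M

/-- the flattened function: `h` is replaced by (a smooth version of) `max (h x) ⟨p, x⟩` -/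
noncomputable def flat {n : ℕ} (F : ℝ → ℝ) (h : E n → ℝ) (p : E n) (η : ℝ) (x : E n) : ℝ :=
  inner ℝ p x + ‖x‖ * (η * F ((h x - inner ℝ p x) / (η * ‖x‖)))

/-- the data of the flattening of `φ + ε ‖·‖` at the unit vector `a`: `q` is a point of the body with outer normal `a` -/
structure Pt {n : ℕ} (φ : E n → ℝ) (a q : E n) : Prop where
  le : ∀ x, inner ℝ q x ≤ φ x
  eq : inner ℝ q a = φ a

/-- `φ + ε ‖·‖` flattened at `a` with the parameter `c` -/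
noncomputable def fc {n : ℕ} (F : ℝ → ℝ) (φ : E n → ℝ) (a q : E n) (ε c : ℝ) : E n → ℝ :=
  flat F (fun x => φ x + ε * ‖x‖) (q + (ε + c) • a) (c / 2)

/-! ## Modules -/

/-- PA (90 lines).  The function `F`.
PROOF.  `θ u = Real.smoothTransition ((u+1)/2)`: smooth, monotone, `0` for `u ≤ -1`, `1` for `u ≥ 1`, values in `[0,1]`, `θ u + θ (-u) = 1` (definition of `Real.smoothTransition` by
`expNegInvGlue`: `st x + st (1-x) = 1`).  `F s = ∫_{-1}^s θ`: derivative `θ` (FTC, `θ` continuous), `F = 0` on `(-∞,-1]`, `F 1 = ∫_{-1}^1 θ = 1` by the symmetry (`∫_{-1}^1 θ u = ∫_{-1}^1 θ (-u)`, sum `2`),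
`F s = 1 + (s-1)` for `s ≥ 1`; convex: monotone derivative (`MonotoneOn.convexOn_of_deriv` / `convexOn_univ_of_deriv..`).  `F s - s` has derivative `θ - 1 ≤ 0`.  `star`: if `s ≤ 0`: `l F s ≤ F s ≤ F (l s)`;
if `s > 0`: `d = F - id` is antitone and `≥ 0` (it is `0` at `1` and beyond, antitone), `F (l s) = l s + d (l s) ≥ l s + d s ≥ l s + l d s`.  `d2`: `F'' = θ'` is continuous and `0` off `[-1,1]`: bounded.
Hypotheses: . -/
def StPA : Prop := ∃ F : ℝ → ℝ, Fl F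

/-- PB (120 lines).  Flattening preserves smooth sublinear functions.
PROOF.  `s x = h x - ⟨p,x⟩` is sublinear and smooth off `0`, `ρ x = ‖x‖`.  Homogeneity of `flat`: clear (`c = 0` or `x = 0`: both sides `0`).  Smooth off `0`: `h`, `‖·‖`, `F` smooth, `η ‖x‖ ≠ 0`.
Subadditivity: if `x`, `y` or `x + y` is `0`: for `x + y = 0` the left side is `0` and `flat x + flat (-x) ≥ ⟨p,x⟩ + ⟨p,-x⟩ = 0` by `F ≥ 0`; otherwise with `G (s,ρ) = ρ η F(s/(η ρ))`, `ρ > 0`: `G` is monotone in `s`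
(`Fl.mono`), monotone in `ρ` (`ρ₁ ≤ ρ₂`, `l = ρ₁/ρ₂`: `star` gives `ρ₁ F(s/(η ρ₁)) ≤ ρ₂ F(s/(η ρ₂))`) and `G(s₁+s₂,ρ₁+ρ₂) ≤ G(s₁,ρ₁) + G(s₂,ρ₂)` (`Fl.convex` with the weights `ρᵢ/(ρ₁+ρ₂)`), so
`G(s(x+y),ρ(x+y)) ≤ G(s x + s y, ρ x + ρ y) ≤ G(s x,ρ x) + G(s y,ρ y)`.  Hypotheses: . -/
def StPB : Prop :=
  ∀ (n : ℕ) (F : ℝ → ℝ) (h : E n → ℝ) (p : E n) (η : ℝ), Fl F → S1 h → Sublinear h → 0 < η →
    S1 (flat F h p η) ∧ Sublinear (flat F h p η)

/-- PC (110 lines).  `L` of the flattened function: where it is known exactly.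
PROOF.  `a = σ e`, `σ = ±1`.  (1) `w` a unit vector `≠ a`: `⟨a,w⟩ < 1`.  Along the path `x t = rp e v t w` (unit vectors by StA, `x 0 = w`, continuous) `S t = φ(x) + ε - ⟨q,x⟩ - (ε+c)⟨a,x⟩ ≥
ε (1 - ⟨a,x⟩) - c ⟨a,x⟩ ≥ c/2` for `t` near `0` if `c` is so small that `ε (1 - ⟨a,w⟩) > 3c/2 `(strict at `t = 0`, continuity), so `F(S/(c/2)) = S/(c/2)` and `fc .. (x t) = φ (x t) + ε ‖x t‖` near `t = 0`: equal `Lop`
(`Filter.EventuallyEq.deriv`; the two functions of `t` are eventually equal, so are their derivatives).  And `Lop e v (φ + ε ‖·‖) w = Lop e v φ w + ε` (`‖x t‖ = 1`).  (2) `w = a`: `S 0 = φ a + ε - ⟨q,a⟩ - (ε+c) = -c < -c/2`,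
so near `t = 0` `F = 0` and `fc .. (x t) = ⟨p, x t⟩`, `x t = σ (cos t e + sin t v)`, `(∂_t² + 1)` of it is `0`.  Hypotheses: StA. -/
def StPC : Prop :=
  ∀ (n : ℕ) (e v : E n) (σ : ℝ) (F : ℝ → ℝ) (φ : E n → ℝ) (q : E n) (ε : ℝ), ON (e, v) →
    (σ = 1 ∨ σ = -1) → Fl F → S1 φ → Pt φ (σ • e) q → 0 < ε →
    (∀ w : E n, ‖w‖ = 1 → w ≠ σ • e → ∃ c₀ : ℝ, 0 < c₀ ∧ ∀ c : ℝ, 0 < c → c < c₀ →
      Lop e v (fc F φ (σ • e) q ε c) w = Lop e v φ w + ε) ∧
    ∀ c : ℝ, 0 < c → Lop e v (fc F φ (σ • e) q ε c) (σ • e) = 0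

/-- PD (170 lines).  `L` of the flattened function is bounded independently of `c`.
PROOF.  `a = σ e`, `g x = φ x + ε ‖x‖ - ⟨q + ε a, x⟩ ≥ 0` (`Pt.le`, `⟨a,x⟩ ≤ ‖x‖`), of class `S1` (StD and a linear function).  `Lop e v g` is bounded on the sphere (StC, or StXC: it is continuous), `g` too.  For a unit
vector `w` let `x t = rp e v t w`, `G t = g (x t)`, so `G' `, `G''` exist for all `t` (`φ` smooth off `0`, `x t ≠ 0` by StA) and by the group property `rp e v t (rp e v s x) = rp e v (s+t) x` of StA `G''(t) + G(t) =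
Lop e v g (x t)`: `|G''(t)| ≤ M` for all `t`, `M` independent of `w`.  CLAIM: `G'(0)² ≤ 2 M G(0)` (`0 ≤ G(t) ≤ G(0) + G'(0) t + M t²/2` for all real `t`; take `t = -G'(0)/M`, `M > 0`).
`S t = G t - c ⟨a, x t⟩`; `η = c/2`; `H t = fc .. (x t) = ⟨p, x t⟩ + η F(S t/η)`, `p = q + (ε + c) a`, so `H'' = ⟨p, x''⟩ + F'(S/η) S'' + F''(S/η) S'²/η` and `Lop = H''(0) + H(0)`.  Bounds for `0 < c ≤ 1`, at `t = 0`: `|⟨p,x''⟩|`,
`|⟨p,x⟩| ≤ ‖q‖ + ε + 1`; `0 ≤ F' ≤ 1` (mono, lip); `|S''| ≤ M + 1`; `0 ≤ η F(S/η) ≤ |S| + η`; `F''(S/η) = 0` unless `|S| ≤ η` (zero, id), and then `G ≤ η + c = 3c/2`, `|S'| ≤ |G'| + c`,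
`S'² ≤ 2 (3 M c) + 2 c²`, so `F'' S'²/η ≤ M_F (12 M + 4)`.  Hypotheses: StA StC StD. -/
def StPD : Prop :=
  ∀ (n : ℕ) (e v : E n) (σ : ℝ) (F : ℝ → ℝ) (φ : E n → ℝ) (q : E n) (ε : ℝ), ON (e, v) →
    (σ = 1 ∨ σ = -1) → Fl F → S1 φ → Pt φ (σ • e) q → 0 < ε →
    ∃ C : ℝ, ∀ c : ℝ, 0 < c → c ≤ 1 → ∀ w : E n, ‖w‖ = 1 →
      |Lop e v (fc F φ (σ • e) q ε c) w| ≤ C

/-- PE (110 lines).  Passage to the limit.
PROOF.  `q` with `Pt φ (σ e) q`: `φ = supp K` (`Mink.exists_body`), `q ∈ K` with `⟨q, σ e⟩ = φ (σ e)` (`Mink.exists_supp_eq`, `Mink.inner_le_supp`).  For `ε > 0`, `c = 1/(j+2)`: the inequality `hyp` for the sublinear function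
`fc F φ (σ e) q ε c` of class `S1` (StPB; `φ + ε ‖·‖` is of class `S1` by StD and sublinear).  Dominated convergence (StPD; `Lop e v` of a function of class `S1` is continuous on the sphere by StC), the limit is
`Lop e v φ w + ε` for `w ≠ σ e` and `0` for `w = σ e` (StPC), i.e. the integral over the set `{w ≠ σ e}`:
`∫_{w ≠ σ e} (Lop e v φ + ε) dN ≤ ∫_{w ≠ σ e} (Lop e v φ + ε) dP`.  Let `ε → 0`.  Hypotheses: StC StD StPA StPB StPC StPD. -/
def StPE : Prop :=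
  ∀ (n : ℕ) (e v : E n) (P N : Measure (sphere (0 : E n) 1)), ON (e, v) → IsFiniteMeasure P →
    IsFiniteMeasure N →
    (∀ φ : E n → ℝ, S1 φ → Sublinear φ →
      ∫ w : sphere (0 : E n) 1, Lop e v φ (w : E n) ∂N ≤
        ∫ w : sphere (0 : E n) 1, Lop e v φ (w : E n) ∂P) →
    ∀ σ : ℝ, (σ = 1 ∨ σ = -1) → ∀ φ : E n → ℝ, S1 φ → Sublinear φ →
      ∫ w : sphere (0 : E n) 1 in {w | (w : E n) ≠ σ • e}, Lop e v φ (w : E n) ∂N ≤
        ∫ w : sphere (0 : E n) 1 in {w | (w : E n) ≠ σ • e}, Lop e v φ (w : E n) ∂P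

/-- PF (80 lines).  From smooth bodies to all bodies.
PROOF.  For a body `K` and `δ = 1/(j+1)` take a body `K_j` with smooth support function, `|supp K_j x - supp K x| ≤ δ ‖x‖` (`Mink.exists_smooth`, `Mink.exists_body`), so `K_j → K` (`Mink.dist_le_of_supp`); `T K_j → T K`,
`T' K_j → T' K` (continuity of admissible maps) and `supp (T K_j) x → supp (T K) x` (`Mink.abs_supp_sub_le`).  Every `x ≠ 0` is `‖x‖ θ e` (`Mink.exists_rot`), both sides of the identity are homogeneous.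
Hypotheses: . -/
def StPF : Prop :=
  ∀ (n : ℕ) (e : E n) (T T' : ConvexBody (E n) → ConvexBody (E n)) (a b : ℝ), 2 ≤ n → ‖e‖ = 1 →
    Admissible T → Admissible T' →
    (∀ K : ConvexBody (E n), ContDiffOn ℝ ∞ (supp K) {0}ᶜ → ∀ θ : E n ≃ₗᵢ[ℝ] E n, IsRot θ →
      supp (T K) (θ e) = a * supp K (θ e) + b * supp K (-(θ e)) + supp (T' K) (θ e)) →
    ∀ (K : ConvexBody (E n)) (x : E n),
      supp (T K) x = a * supp K x + b * supp K (-x) + supp (T' K) x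

end Pool.Agent.Helper62.PM
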