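import Pool.Agent.Helper62.Mink.Final3

/-!
# Project PM part 6 (MP_ae3a4d_gt): the 0-1 law in high dimension

THEOREM.  `f` continuous on `[-1,1]`, `(f(t) - b t) / t^k → c ≠ 0` as `t → 0`, `k ≠ 1`.  If `k` is even and `c > 0` then `f` generates an
admissible map in every dimension `n ≥ n₀(f)`; otherwise in no dimension `n ≥ 3`.

PROOF.  (1) For `k ≥ 2` even, `n ≥ 3`, the density `t^k - (k+n+1)/(2(k+1)) t^(k+2)` is admissible: for `h` sublinear, smooth off `0`,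
`∫ h (p(t) - t p'(t) + p''(t) s²) = ∫ t^k (s²/2 Lap h + s²/2 h_uu + (κ - 1/2) t² h_vv - κ t s h_uv)`, `κ = k/(k+1)`, and the right side is `≥ 0`.
(2) `f ≥ b t + (c/2) t^k - M t^(k+2)`.  (3) Double cones for the necessity.
-/

set_option autoImplicit false

open MeasureTheory Metric Set Filter Topology
open scoped RealInnerProductSpace ContDiff

namespace Pool.Agent.Helper62.PM6

open Pool.Agent.Helper62.Mink

/-- the double cone functional -/
noncomputable def dco (n : ℕ) (f : ℝ → ℝ) (β α : ℝ) : ℝ :=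
  f (Real.cos β) * Real.sin β ^ (n - 2) / Real.cos β -
    f (Real.cos α) * Real.sin α ^ (n - 2) / Real.cos α +
    ((n : ℝ) - 2) * ∫ θ in β..α, f (Real.cos θ) * Real.sin θ ^ (n - 3)

/-- TR2 (60 lines).  The trace is at least the sum over two orthonormal directions.
PROOF.  `Lap h w = ∑ i, Bf h w (b i) (b i)`, `b = EuclideanSpace.basisFun` (`D2_eq_Bf`).  `u, v` extend to an orthonormal basis `b'`
(`Orthonormal.exists_orthonormalBasis_extension_of_card_eq`, or `exists_orthonormalBasis_extension`).  The trace does not depend on the basis: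
`b i = ∑ j, ⟪b' j, b i⟫ • b' j`, expand `Bf h w (b i) (b i)` (`Bf h w a b = fderiv ℝ (fderiv ℝ h) w a b` is bilinear: `map_sum`, `map_smul`), sum over `i`
with `∑ i, ⟪b' j, b i⟫ ⟪b' k, b i⟫ = ⟪b' j, b' k⟫` (`OrthonormalBasis.sum_inner_mul_inner`).  All terms `Bf h w (b' j) (b' j) ≥ 0` (`D2_nonneg`, `D2_eq_Bf`).
(Alternative without the second basis: Cauchy-Schwarz for the form, as in `Mink.trace_bound`.)  Hypotheses: . -/
def StTR2 : Prop :=
  ∀ (n : ℕ) (h : E n → ℝ), Sublinear h → ContDiffOn ℝ ∞ h {0}ᶜ → ∀ w : E n, w ≠ 0 →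
    ∀ u v : E n, ‖u‖ = 1 → ‖v‖ = 1 → (inner ℝ u v : ℝ) = 0 →
      Bf h w u u + Bf h w v v ≤ Lap h w

/-- IBS (70 lines).  First order integration by parts on the sphere.
PROOF.  `W x = bmp (‖x‖ ^ 2)`, smooth, compact support in `{0}ᶜ` (`good_compact`, `good_tsupport` with `P = 1`).
`integral_mul_fderiv_eq_neg_fderiv_mul_of_integrable` (as in `Mink.ibp2`): `∫ F * fderiv W x a = - ∫ fderiv F x a * W x`, and
`fderiv W x a = deriv bmp (‖x‖^2) * (2 * inner x a)` (`lineD`, `hasDerivAt_rad_line`).  `fderiv F (c • x) = c^d • fderiv F x` for `c > 0`, `x ≠ 0`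
(as in `Mink.fderiv_hom`; the functions `y ↦ F (c • y)` and `c^(d+1) • F` agree near `x`).  `integral_polar` on both sides:
`∫ fderiv F x a * bmp (‖x‖^2) = SI (fderiv F · a) * Kr (n-1+d)`, `∫ F x * inner a x * deriv bmp (‖x‖^2) = SI (..) * ∫ r^(n-1+(d+2)) deriv bmp (r^2)
= SI (..) * (-((n-1+d+1)/2) * Kr (n-1+d))` (`Kr_d`).  Cancel `Kr > 0` (`Kr_pos`).  Hypotheses: . -/
def StIBS : Prop :=
  ∀ (n : ℕ), 1 ≤ n → ∀ (F : E n → ℝ) (d : ℕ), ContDiffOn ℝ ∞ F {0}ᶜ →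
    (∀ c : ℝ, 0 < c → ∀ x : E n, x ≠ 0 → F (c • x) = c ^ (d + 1) * F x) → ∀ a : E n,
      SI (fun x => fderiv ℝ F x a) = ((d : ℝ) + n) * SI (fun x => inner ℝ a x * F x)

/-- NEC (90 lines).  The double cones exclude the other cases (a statement about one real function).
PROOF.  `g t = f t - b t`.  `dco n (b ·) β α = 0`: `(sin^(n-2))' = (n-2) sin^(n-3) cos`.  So `0 ≤ dco n g β α` for all `β < π/2 < α`.
If `g < 0` on `(-δ,0)`: fix `α` in `(π/2, π)` with `cos α > -δ` and let `β → π/2` from the left: `g(cos β) sin^(n-2) β / cos β → 0` (`|sin| ≤ 1`,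
`cos β → 0` from the right, `cos β > 0`), the integral tends to `∫_(π/2)^α` (continuity of the integral in the end point), so
`0 ≤ - g(cos α) sin^(n-2) α / cos α + (n-2) ∫_(π/2)^α g(cos θ) sin^(n-3) θ`, but the first term is `< 0` (`g < 0`, `cos α < 0`, `sin α > 0`) and the
second `≤ 0`.  If `g < 0` on `(0,δ)`: the same with `β` fixed and `α → π/2` from the right.  Hypotheses: . -/
def StNEC : Prop :=
  ∀ (n : ℕ), 3 ≤ n → ∀ (f : ℝ → ℝ) (b : ℝ), ContinuousOn f (Icc (-1) 1) →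
    Tendsto (fun t : ℝ => (f t - b * t) / t) (𝓝[≠] 0) (𝓝 0) →
    ((∀ᶠ t in 𝓝[>] (0 : ℝ), f t - b * t < 0) ∨ (∀ᶠ t in 𝓝[<] (0 : ℝ), f t - b * t < 0)) →
    (∀ β α : ℝ, 0 ≤ β → β < Real.pi / 2 → Real.pi / 2 < α → α ≤ Real.pi → 0 ≤ dco n f β α) → False

/-- ANA (50 lines).  The comparison polynomial.
PROOF.  For `0 < |t| < δ`, `|t| ≤ 1`: `(f t - b t)/t^k > c/2`, `t^k > 0`.  At `t = 0`: `f t - b t = t^k * ((f t - b t)/t^k) → 0` along `𝓝[≠] 0`, and `→ f 0` by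
continuity, so `f 0 = 0`.  For `|t| ≥ δ`: `|f| ≤ B`, `M = (B + |b| + c/2)/δ^(k+2)`, `M t^(k+2) ≥ B + |b| + c/2`.  Hypotheses: . -/
def StANA : Prop :=
  ∀ (f : ℝ → ℝ) (b c : ℝ) (k : ℕ), ContinuousOn f (Icc (-1) 1) → Even k → 2 ≤ k → 0 < c →
    Tendsto (fun t : ℝ => (f t - b * t) / t ^ k) (𝓝[≠] 0) (𝓝 c) →
    ∃ M : ℝ, 0 ≤ M ∧ ∀ t ∈ Icc (-1 : ℝ) 1, b * t + c / 2 * t ^ k - M * t ^ (k + 2) ≤ f t

end Pool.Agent.Helper62.PM6
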